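import Mathlib

/-!
# Quaternion lemmas for geodesic nets on the 3-sphere
-/

namespace Pool.Agent.Lib.MP_a226eb_gt

open Quaternion

abbrev HH := Quaternion ℝ

/-- unit imaginary quaternions -/
def UI (a : HH) : Prop := a.re = 0 ∧ a.imI ^ 2 + a.imJ ^ 2 + a.imK ^ 2 = 1

/-- inner product of quaternions by components -/
def ip (a b : HH) : ℝ := a.re * b.re + a.imI * b.imI + a.imJ * b.imJ + a.imK * b.imK

lemma ip_eq (a b : HH) : inner ℝ a b = ip a b := by
  rw [Quaternion.inner_def]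
  simp [ip, Quaternion.re_mul]

lemma ip_comm (a b : HH) : ip a b = ip b a := by
  simp only [ip]; ring

lemma ip_neg_left (a b : HH) : ip (-a) b = - ip a b := by
  simp [ip]; ring

lemma ip_neg_right (a b : HH) : ip a (-b) = - ip a b := by
  simp [ip]; ring

lemma ip_self_eq_one_iff (a : HH) : ip a a = 1 ↔ ‖a‖ = 1 := by
  rw [← ip_eq, real_inner_self_eq_norm_sq]
  constructor
  · intro h
    have := norm_nonneg a
    nlinarith [sq_nonneg (‖a‖ - 1)]
  · intro h; rw [h]; norm_num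

lemma UI.mul_self {a : HH} (h : UI a) : a * a = -1 := by
  obtain ⟨h0, h1⟩ := h
  ext
  · simp [Quaternion.re_mul, h0]; linarith
  · simp [Quaternion.imI_mul, h0]; ring
  · simp [Quaternion.imJ_mul, h0]; ring
  · simp [Quaternion.imK_mul, h0]; ring

lemma UI.star {a : HH} (h : UI a) : star a = -a := Quaternion.star_eq_neg.2 h.1

lemma UI.ip_self {a : HH} (h : UI a) : ip a a = 1 := by
  obtain ⟨h0, h1⟩ := h
  simp [ip, h0]; linarith

lemma UI.norm {a : HH} (h : UI a) : ‖a‖ = 1 := (ip_self_eq_one_iff a).1 h.ip_self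

lemma UI.neg {a : HH} (h : UI a) : UI (-a) := by
  obtain ⟨h0, h1⟩ := h
  constructor
  · simp [h0]
  · simp; linarith

lemma commute_aux {a q : HH} (h : UI a) (hc : a * q = q * a) :
    q = (q.re : ℝ) • (1 : HH) + (ip q a) • a := by
  obtain ⟨h0, h1⟩ := h
  have e1 := congrArg (fun z : HH => z.imI) hc
  have e2 := congrArg (fun z : HH => z.imJ) hc
  have e3 := congrArg (fun z : HH => z.imK) hc
  simp [h0] at e1 e2 e3
  have f1 : a.imJ * q.imK = a.imK * q.imJ := by linarith
  have f2 : a.imK * q.imI = a.imI * q.imK := by linarith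
  have f3 : a.imI * q.imJ = a.imJ * q.imI := by linarith
  ext
  · simp [h0]
  · simp [ip, h0]
    linear_combination (-q.imI) * h1 - a.imJ * f3 + a.imK * f2
  · simp [ip, h0]
    linear_combination (-q.imJ) * h1 + a.imI * f3 - a.imK * f1
  · simp [ip, h0]
    linear_combination (-q.imK) * h1 - a.imI * f2 + a.imJ * f1

/-- a quaternion which commutes with two independent unit imaginary quaternions is real -/
lemma commute_two {a b q : HH} (ha : UI a) (hb : UI b) (hab : ip a b ^ 2 ≠ 1)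
    (h1 : a * q = q * a) (h2 : b * q = q * b) : q = (q.re : ℝ) • (1 : HH) := by
  have e1 := commute_aux ha h1
  have e2 := commute_aux hb h2
  have k1 : ip q a = ip q b * ip a b := by
    have := congrArg (fun z => ip z a) e2
    simp only [ip] at this ⊢
    simp [ha.1, hb.1] at this ⊢
    linear_combination this
  have k2 : ip q b = ip q a * ip a b := by
    have := congrArg (fun z => ip z b) e1
    simp only [ip] at this ⊢
    simp [ha.1, hb.1] at this ⊢
    linear_combination this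
  have k3 : ip q a = 0 := by
    have : ip q a * (1 - ip a b ^ 2) = 0 := by
      linear_combination k1 + ip a b * k2
    rcases mul_eq_zero.1 this with h | h
    · exact h
    · exact absurd (by linarith) hab
  rw [k3] at e1
  simpa using e1

/-- conjugation: if `a x = x b` and `a' x = x b'` with `x` a unit then inner products agree -/
lemma ip_conj {a b a' b' x : HH} (hx : ip x x = 1) (h : a * x = x * b) (h' : a' * x = x * b') :
    ip a a' = ip b b' := by
  have hxx : x * star x = 1 := by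
    rw [Quaternion.self_mul_star]
    have : normSq x = 1 := by rw [Quaternion.normSq_def']; simp only [ip] at hx; linarith
    rw [this]; simp
  have hxx' : star x * x = 1 := by
    rw [Quaternion.star_mul_self]
    have : normSq x = 1 := by rw [Quaternion.normSq_def']; simp only [ip] at hx; linarith
    rw [this]; simp
  have e : a = x * b * star x := by rw [← h, mul_assoc, hxx, mul_one]
  have e' : a' = x * b' * star x := by rw [← h', mul_assoc, hxx, mul_one]
  have e2 : a * star a' = x * (b * star b') * star x := by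
    rw [e, e']
    simp only [star_mul, star_star]
    calc x * b * star x * (x * (star b' * star x)) = x * b * (star x * x) * (star b' * star x) := by
          noncomm_ring
      _ = _ := by rw [hxx']; noncomm_ring
  have key : ∀ u v : HH, (u * v).re = (v * u).re := by
    intro u v; simp; ring
  rw [← ip_eq, ← ip_eq, Quaternion.inner_def, Quaternion.inner_def, e2, key, ← mul_assoc, hxx',
    one_mul]

lemma mul_star_of_ip {x : HH} (hx : ip x x = 1) : x * star x = 1 := by
  rw [Quaternion.self_mul_star]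
  have : normSq x = 1 := by rw [Quaternion.normSq_def']; simp only [ip] at hx; linarith
  rw [this]; simp

lemma star_mul_of_ip {x : HH} (hx : ip x x = 1) : star x * x = 1 := by
  rw [Quaternion.star_mul_self]
  have : normSq x = 1 := by rw [Quaternion.normSq_def']; simp only [ip] at hx; linarith
  rw [this]; simp

/-- trace of `c ↦ p c q` -/
lemma trace_aux (p q e1 e2 e3 e4 : HH) (h1 : e1.re = 1 ∧ e1.imI = 0 ∧ e1.imJ = 0 ∧ e1.imK = 0)
    (h2 : e2.re = 0 ∧ e2.imI = 1 ∧ e2.imJ = 0 ∧ e2.imK = 0)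
    (h3 : e3.re = 0 ∧ e3.imI = 0 ∧ e3.imJ = 1 ∧ e3.imK = 0)
    (h4 : e4.re = 0 ∧ e4.imI = 0 ∧ e4.imJ = 0 ∧ e4.imK = 1) :
    ip e1 (p * e1 * q) + ip e2 (p * e2 * q) + ip e3 (p * e3 * q) + ip e4 (p * e4 * q)
      = 4 * p.re * q.re := by
  obtain ⟨a1, a2, a3, a4⟩ := h1
  obtain ⟨b1, b2, b3, b4⟩ := h2
  obtain ⟨c1, c2, c3, c4⟩ := h3
  obtain ⟨d1, d2, d3, d4⟩ := h4
  simp [ip, a1, a2, a3, a4, b1, b2, b3, b4, c1, c2, c3, c4, d1, d2, d3, d4]; ring

/-- existence of the intertwiner of two frames -/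
lemma exists_intertwiner {a0 a1 b0 b1 : HH} (ha0 : UI a0) (ha1 : UI a1) (hb0 : UI b0)
    (hb1 : UI b1) (ha : ip a0 a1 = -1 / 2) (hb : ip b0 b1 = -1 / 2) :
    ∃ x : HH, ip x x = 1 ∧ a0 * x = x * b0 ∧ a1 * x = x * b1 := by
  set w : HH := a1 + (1 / 2 : ℝ) • a0 with hw
  set w' : HH := b1 + (1 / 2 : ℝ) • b0 with hw'
  have haa : a0 * a0 = -1 := ha0.mul_self
  have hbb : b0 * b0 = -1 := hb0.mul_self
  obtain ⟨p0, p1⟩ := ha0
  obtain ⟨q0, q1⟩ := ha1
  obtain ⟨r0, r1⟩ := hb0
  obtain ⟨s0, s1⟩ := hb1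
  simp only [ip, p0, q0, r0, s0] at ha hb
  have hwa : w * a0 = -(a0 * w) := by
    ext
    · simp [hw, p0, q0]; linarith
    · simp [hw, p0, q0]; ring
    · simp [hw, p0, q0]; ring
    · simp [hw, p0, q0]; ring
  have hwb : w' * b0 = -(b0 * w') := by
    ext
    · simp [hw', r0, s0]; linarith
    · simp [hw', r0, s0]; ring
    · simp [hw', r0, s0]; ring
    · simp [hw', r0, s0]; ring
  have hww : w * w = -(3 / 4 : ℝ) • (1 : HH) := by
    ext
    · simp [hw, p0, q0]; linarith
    · simp [hw, p0, q0]; ring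
    · simp [hw, p0, q0]; ring
    · simp [hw, p0, q0]; ring
  have hww' : w' * w' = -(3 / 4 : ℝ) • (1 : HH) := by
    ext
    · simp [hw', r0, s0]; linarith
    · simp [hw', r0, s0]; ring
    · simp [hw', r0, s0]; ring
    · simp [hw', r0, s0]; ring
  have hre : (a0 * w).re = 0 := by
    simp [hw, p0, q0]; linarith
  have hre' : (w' * b0).re = 0 := by
    simp [hw', r0, s0]; linarith
  let X : HH → HH := fun c => c - a0 * c * b0 - (4 / 3 : ℝ) • (w * c * w')
    + (4 / 3 : ℝ) • (a0 * w * c * (w' * b0))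
  have hX0 : ∀ c, a0 * X c = X c * b0 := by
    intro c
    have t1 : a0 * X c = a0 * c - (a0 * a0) * c * b0 - (4 / 3 : ℝ) • (a0 * w * c * w')
        + (4 / 3 : ℝ) • ((a0 * a0) * w * c * (w' * b0)) := by
      simp only [X, mul_add, mul_sub, mul_smul_comm, mul_assoc]
    have t2 : X c * b0 = c * b0 - a0 * c * (b0 * b0) - (4 / 3 : ℝ) • (w * c * w' * b0)
        + (4 / 3 : ℝ) • (a0 * w * c * w' * (b0 * b0)) := by
      simp only [X, add_mul, sub_mul, smul_mul_assoc, mul_assoc]
    rw [t1, t2, haa, hbb]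
    simp only [neg_mul, mul_neg, one_mul, mul_one, mul_assoc, smul_neg]
    abel
  have hXw : ∀ c, w * X c = X c * w' := by
    intro c
    have t1 : w * X c = w * c - (w * a0) * c * b0 - (4 / 3 : ℝ) • ((w * w) * c * w')
        + (4 / 3 : ℝ) • ((w * a0) * w * c * (w' * b0)) := by
      simp only [X, mul_add, mul_sub, mul_smul_comm, mul_assoc]
    have t2 : X c * w' = c * w' - a0 * c * (b0 * w') - (4 / 3 : ℝ) • (w * c * (w' * w'))
        + (4 / 3 : ℝ) • (a0 * w * c * (w' * (b0 * w'))) := by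
      simp only [X, add_mul, sub_mul, smul_mul_assoc, mul_assoc]
    have hb' : b0 * w' = -(w' * b0) := by rw [hwb]; simp
    have t3 : w' * (b0 * w') = (3 / 4 : ℝ) • b0 := by
      rw [hb', mul_neg, ← mul_assoc, hww']
      simp
    have t4 : (w * a0) * w * c * (w' * b0) = (3 / 4 : ℝ) • (a0 * c * (w' * b0)) := by
      rw [hwa]
      have : -(a0 * w) * w = (3 / 4 : ℝ) • a0 := by
        rw [neg_mul, mul_assoc, hww]; simp
      rw [this]; simp [mul_assoc]
    rw [t1, t2, t3, t4, hwa, hb', hww, hww']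
    simp only [neg_mul, mul_neg, one_mul, mul_one, mul_assoc, smul_mul_assoc,
      mul_smul_comm, smul_smul]
    norm_num
    abel
  have hX1 : ∀ c, a1 * X c = X c * b1 := by
    intro c
    have e1 : a1 = w - (1 / 2 : ℝ) • a0 := by rw [hw]; simp
    have e2 : b1 = w' - (1 / 2 : ℝ) • b0 := by rw [hw']; simp
    rw [e1, e2, sub_mul, mul_sub, hXw, smul_mul_assoc, mul_smul_comm, hX0]
  have hex : ∃ c, X c ≠ 0 := by
    by_contra hcon
    push Not at hcon
    let e1 : HH := ⟨1, 0, 0, 0⟩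
    let e2 : HH := ⟨0, 1, 0, 0⟩
    let e3 : HH := ⟨0, 0, 1, 0⟩
    let e4 : HH := ⟨0, 0, 0, 1⟩
    have h1 : e1.re = 1 ∧ e1.imI = 0 ∧ e1.imJ = 0 ∧ e1.imK = 0 := ⟨rfl, rfl, rfl, rfl⟩
    have h2 : e2.re = 0 ∧ e2.imI = 1 ∧ e2.imJ = 0 ∧ e2.imK = 0 := ⟨rfl, rfl, rfl, rfl⟩
    have h3 : e3.re = 0 ∧ e3.imI = 0 ∧ e3.imJ = 1 ∧ e3.imK = 0 := ⟨rfl, rfl, rfl, rfl⟩
    have h4 : e4.re = 0 ∧ e4.imI = 0 ∧ e4.imJ = 0 ∧ e4.imK = 1 := ⟨rfl, rfl, rfl, rfl⟩
    have key : ∀ c, ip c (X c) = ip c (1 * c * 1) - ip c (a0 * c * b0)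
        - 4 / 3 * ip c (w * c * w') + 4 / 3 * ip c (a0 * w * c * (w' * b0)) := by
      intro c
      have hlin : ∀ u v y z : HH, ip c (u - v - (4 / 3 : ℝ) • y + (4 / 3 : ℝ) • z)
          = ip c u - ip c v - 4 / 3 * ip c y + 4 / 3 * ip c z := by
        intro u v y z; simp [ip]; ring
      rw [one_mul, mul_one, ← hlin]
    have t1 := trace_aux 1 1 e1 e2 e3 e4 h1 h2 h3 h4
    have t2 := trace_aux a0 b0 e1 e2 e3 e4 h1 h2 h3 h4
    have t3 := trace_aux w w' e1 e2 e3 e4 h1 h2 h3 h4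
    have t4 := trace_aux (a0 * w) (w' * b0) e1 e2 e3 e4 h1 h2 h3 h4
    have z : ∀ c, ip c (X c) = 0 := by intro c; rw [hcon c]; simp [ip]
    have k1 := key e1
    have k2 := key e2
    have k3 := key e3
    have k4 := key e4
    rw [z] at k1 k2 k3 k4
    have hwre : w.re = 0 := by simp [hw, p0, q0]
    rw [hre] at t4
    rw [hwre] at t3
    rw [p0] at t2
    simp only [Quaternion.re_one] at t1
    linarith
  obtain ⟨c, hc⟩ := hex
  have hn : ‖X c‖ ≠ 0 := norm_ne_zero_iff.2 hc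
  refine ⟨(‖X c‖)⁻¹ • X c, ?_, ?_, ?_⟩
  · rw [ip_self_eq_one_iff, norm_smul, norm_inv, norm_norm, inv_mul_cancel₀ hn]
  · rw [mul_smul_comm, smul_mul_assoc, hX0]
  · rw [mul_smul_comm, smul_mul_assoc, hX1]

end Pool.Agent.Lib.MP_a226eb_gt
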