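import Pool.Agent.Lib.MP_a226eb_gt.Defs
import Pool.Agent.Lib.MP_a226eb_gt.Quat

/-!
# The criterion: two flows with a non-crossing condition give a geodesic net
-/

namespace Pool.Agent.Lib.MP_a226eb_gt

open Quaternion

/-- the sign of a Boolean -/
def sg (b : Bool) : ℝ := if b then 1 else -1

lemma sg_mul_self (b : Bool) : sg b * sg b = 1 := by cases b <;> simp [sg]

lemma sg_not (b : Bool) : sg (!b) = - sg b := by cases b <;> simp [sg]

lemma sg_cases (b : Bool) : sg b = 1 ∨ sg b = -1 := by cases b <;> simp [sg]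

/-- choice of signs with at most one negative half-edge at each vertex -/
lemma exists_signs {V : Type} [Fintype V] (mate : V × Fin 3 → V × Fin 3)
    (hp : IsPairing mate) (hl : ∀ d, (mate d).1 ≠ d.1) (ε : V × Fin 3 → ℝ)
    (hε : ∀ d, ε d = 1 ∨ ε d = -1) (hm : ∀ d, ε (mate d) = ε d) :
    ∃ σ : V → Bool, ∀ v, ∀ i j : Fin 3, i ≠ j →
      ¬ (sg (σ v) * sg (σ (mate (v, i)).1) * ε (v, i) < 0 ∧
        sg (σ v) * sg (σ (mate (v, j)).1) * ε (v, j) < 0) := by
  classical
  let f : (V → Bool) → V × Fin 3 → ℝ := fun σ d => sg (σ d.1) * sg (σ (mate d).1) * ε d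
  obtain ⟨σ, hσ⟩ := Finite.exists_max (fun σ : V → Bool => ∑ d, f σ d)
  refine ⟨σ, ?_⟩
  have hfm : ∀ σ d, f σ (mate d) = f σ d := by
    intro σ d
    simp only [f, (hp d).1, hm]; ring
  have hf1 : ∀ d, f σ d = 1 ∨ f σ d = -1 := by
    intro d
    simp only [f]
    rcases sg_cases (σ d.1) with h1 | h1 <;> rcases sg_cases (σ (mate d).1) with h2 | h2 <;>
      rcases hε d with h3 | h3 <;> rw [h1, h2, h3] <;> norm_num
  have hsum : ∀ v, 0 ≤ ∑ i, f σ (v, i) := by
    intro v
    have h1 := hσ (Function.update σ v (!(σ v)))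
    have h2 : ∀ d, f (Function.update σ v (!(σ v))) d
        = f σ d - 2 * (if d.1 = v then f σ d else 0) - 2 * (if (mate d).1 = v then f σ d else 0) := by
      intro d
      simp only [f]
      by_cases hd : d.1 = v
      · have hd' : (mate d).1 ≠ v := fun h => hl d (h.trans hd.symm)
        rw [if_pos hd, if_neg hd', hd, Function.update_self, Function.update_of_ne hd', sg_not]
        ring
      · by_cases hd' : (mate d).1 = v
        · rw [if_neg hd, if_pos hd', Function.update_of_ne hd, hd', Function.update_self, sg_not]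
          ring
        · rw [if_neg hd, if_neg hd', Function.update_of_ne hd, Function.update_of_ne hd']
          ring
    have h3 : ∑ d, (if (mate d).1 = v then f σ d else 0) = ∑ d : V × Fin 3,
        (if d.1 = v then f σ d else 0) := by
      let e : V × Fin 3 ≃ V × Fin 3 := ⟨mate, mate, fun d => (hp d).1, fun d => (hp d).1⟩
      rw [← Equiv.sum_comp e]
      refine Finset.sum_congr rfl fun d _ => ?_
      show (if (mate (mate d)).1 = v then f σ (mate d) else 0) = _
      rw [(hp d).1, hfm]
    have h4 : ∑ d : V × Fin 3, (if d.1 = v then f σ d else 0) = ∑ i, f σ (v, i) := by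
      rw [Fintype.sum_prod_type]
      rw [Finset.sum_eq_single v]
      · simp
      · intro b _ hb
        simp [hb]
      · simp
    have h5 : ∑ d, f (Function.update σ v (!(σ v))) d = ∑ d, f σ d - 4 * ∑ i, f σ (v, i) := by
      simp only [h2]
      rw [Finset.sum_sub_distrib, Finset.sum_sub_distrib, ← Finset.mul_sum, ← Finset.mul_sum,
        h3, h4]
      ring
    simp only [h5] at h1
    linarith
  intro v i j hij hcon
  have h1 := hsum v
  rw [Fin.sum_univ_three] at h1
  have hi : f σ (v, i) = -1 := by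
    rcases hf1 (v, i) with h | h
    · exact absurd h (by have := hcon.1; simp only [f]; intro h; linarith)
    · exact h
  have hj : f σ (v, j) = -1 := by
    rcases hf1 (v, j) with h | h
    · exact absurd h (by have := hcon.2; simp only [f]; intro h; linarith)
    · exact h
  have hle : ∀ d, f σ d ≤ 1 := by
    intro d; rcases hf1 d with h | h <;> rw [h]; norm_num
  have e0 := hle (v, 0)
  have e1 := hle (v, 1)
  have e2 := hle (v, 2)
  fin_cases i <;> fin_cases j <;> simp at hij hi hj <;> linarith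

/-- Two unit flows on the darts. -/
structure TwoFlows (V : Type) (mate : V × Fin 3 → V × Fin 3) where
  A : V × Fin 3 → HH
  B : V × Fin 3 → HH
  hA : ∀ d, UI (A d)
  hB : ∀ d, UI (B d)
  mA : ∀ d, A (mate d) = - A d
  mB : ∀ d, B (mate d) = - B d
  sA : ∀ v, A (v, 0) + A (v, 1) + A (v, 2) = 0
  sB : ∀ v, B (v, 0) + B (v, 1) + B (v, 2) = 0

lemma ip_half {a b c : HH} (ha : UI a) (hb : UI b) (hc : UI c) (h : a + b + c = 0) :
    ip a b = -1 / 2 := by
  have e : c = -(a + b) := by
    rw [eq_neg_iff_add_eq_zero, add_comm]; exact h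
  have h1 := hc.ip_self
  rw [e] at h1
  have h2 := ha.ip_self
  have h3 := hb.ip_self
  simp only [ip] at h1 h2 h3 ⊢
  simp at h1
  linarith

lemma ip_half' {a : Fin 3 → HH} (ha : ∀ i, UI (a i)) (h : a 0 + a 1 + a 2 = 0) {i j : Fin 3}
    (hij : i ≠ j) : ip (a i) (a j) = -1 / 2 := by
  have h01 := ip_half (ha 0) (ha 1) (ha 2) h
  have h12 := ip_half (ha 1) (ha 2) (ha 0) (by rw [← h]; abel)
  have h20 := ip_half (ha 2) (ha 0) (ha 1) (by rw [← h]; abel)
  fin_cases i <;> fin_cases j <;> simp at hij ⊢ <;> first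
    | exact h01 | exact h12 | exact h20 | (rw [ip_comm]; first | exact h01 | exact h12 | exact h20)

/-- Non-adjacent edges: they are not joined at any vertex. -/
def NonAdj {V : Type} (mate : V × Fin 3 → V × Fin 3) (d d' : V × Fin 3) : Prop :=
  d.1 ≠ d'.1 ∧ d.1 ≠ (mate d').1 ∧ (mate d).1 ≠ d'.1 ∧ (mate d).1 ≠ (mate d').1

/-- positions in the quaternions -/
structure Placed {V : Type} {mate : V × Fin 3 → V × Fin 3} (F : TwoFlows V mate) where
  y : V → HH
  unit : ∀ v, ip (y v) (y v) = 1
  inter : ∀ d, F.A d * y d.1 = y d.1 * F.B d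

lemma exists_placed {V : Type} {mate : V × Fin 3 → V × Fin 3} (F : TwoFlows V mate) :
    Nonempty (Placed F) := by
  have h : ∀ v, ∃ x : HH, ip x x = 1 ∧ ∀ i, F.A (v, i) * x = x * F.B (v, i) := by
    intro v
    obtain ⟨x, h1, h2, h3⟩ := exists_intertwiner (F.hA (v, 0)) (F.hA (v, 1)) (F.hB (v, 0))
      (F.hB (v, 1)) (ip_half (F.hA _) (F.hA _) (F.hA _) (F.sA v))
      (ip_half (F.hB _) (F.hB _) (F.hB _) (F.sB v))
    refine ⟨x, h1, fun i => ?_⟩
    fin_cases i
    · exact h2
    · exact h3
    · have ea : F.A (v, 2) = -(F.A (v, 0) + F.A (v, 1)) := by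
        rw [eq_neg_iff_add_eq_zero, add_comm]; exact F.sA v
      have eb : F.B (v, 2) = -(F.B (v, 0) + F.B (v, 1)) := by
        rw [eq_neg_iff_add_eq_zero, add_comm]; exact F.sB v
      show F.A (v, 2) * x = x * F.B (v, 2)
      rw [ea, eb, neg_mul, mul_neg, add_mul, mul_add, h2, h3]
  choose x hx1 hx2 using h
  exact ⟨⟨x, hx1, fun d => hx2 d.1 d.2⟩⟩

/-- change of signs -/
def Placed.flip {V : Type} {mate : V × Fin 3 → V × Fin 3} {F : TwoFlows V mate} (P : Placed F)
    (σ : V → Bool) : Placed F where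
  y v := sg (σ v) • P.y v
  unit v := by
    have := P.unit v
    have h2 := sg_mul_self (σ v)
    simp only [ip] at this ⊢
    simp
    linear_combination (sg (σ v) * sg (σ v)) * this + h2
  inter d := by
    rw [mul_smul_comm, smul_mul_assoc, P.inter]

section Geometry

variable {V : Type} {mate : V × Fin 3 → V × Fin 3} {F : TwoFlows V mate} (P : Placed F)

/-- cosine of the edge length -/
noncomputable def Placed.co (d : V × Fin 3) : ℝ := ip (P.y d.1) (P.y (mate d).1)

/-- sine of the edge length -/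
noncomputable def Placed.si (d : V × Fin 3) : ℝ := ip (F.A d * P.y d.1) (P.y (mate d).1)

lemma Placed.far (d : V × Fin 3) :
    P.y (mate d).1 = P.co d • P.y d.1 + P.si d • (F.A d * P.y d.1) := by
  set x := P.y d.1 with hx
  set z := P.y (mate d).1 with hz
  have hx1 : ip x x = 1 := P.unit _
  have h1 : F.A d * x = x * F.B d := P.inter d
  have h2 : F.A d * z = z * F.B d := by
    have := P.inter (mate d)
    rw [F.mA, F.mB] at this
    simpa using this
  have h3 : star x * F.A d = F.B d * star x := by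
    have := congrArg star h1
    rw [star_mul, star_mul, (F.hA d).star, (F.hB d).star] at this
    simpa using this
  have h4 : F.A d * (z * star x) = (z * star x) * F.A d := by
    rw [← mul_assoc, h2, mul_assoc, mul_assoc, h3]
  have h5 := commute_aux (F.hA d) h4
  have h6 : z = (z * star x) * x := by
    rw [mul_assoc, star_mul_of_ip hx1, mul_one]
  have h7 : (z * star x).re = P.co d := by
    rw [← Quaternion.inner_def, ip_eq, ip_comm]; rfl
  have h8 : ip (z * star x) (F.A d) = P.si d := by
    rw [← ip_eq, Quaternion.inner_def, mul_assoc, ← star_mul, ← Quaternion.inner_def, ip_eq,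
      ip_comm]; rfl
  rw [h7, h8] at h5
  calc z = (z * star x) * x := h6
    _ = (P.co d • (1 : HH) + P.si d • F.A d) * x := by rw [← h5]
    _ = _ := by rw [add_mul, smul_mul_assoc, smul_mul_assoc, one_mul]

lemma ip_orth {a x : HH} (ha : UI a) : ip x (a * x) = 0 := by
  simp [ip, ha.1]; ring

lemma ip_unit {a x : HH} (ha : UI a) (hx : ip x x = 1) : ip (a * x) (a * x) = 1 := by
  rw [ip_self_eq_one_iff, norm_mul, ha.norm, (ip_self_eq_one_iff x).1 hx, one_mul]

lemma Placed.co_si (d : V × Fin 3) : P.co d ^ 2 + P.si d ^ 2 = 1 := by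
  have h1 := P.far d
  have h2 := P.unit (mate d).1
  have h3 := P.unit d.1
  have h4 := ip_orth (x := P.y d.1) (F.hA d)
  have h5 := ip_unit (F.hA d) h3
  rw [h1] at h2
  have hlin : ∀ (u v : HH) (r s : ℝ), ip (r • u + s • v) (r • u + s • v)
      = r ^ 2 * ip u u + 2 * r * s * ip u v + s ^ 2 * ip v v := by
    intro u v r s; simp [ip]; ring
  rw [hlin, h3, h4, h5] at h2
  linarith

lemma Placed.co_mate (hp : IsPairing mate) (d : V × Fin 3) : P.co (mate d) = P.co d := by
  unfold Placed.co
  rw [(hp d).1, ip_comm]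

lemma Placed.si_mate (hp : IsPairing mate) (d : V × Fin 3) : P.si (mate d) = P.si d := by
  unfold Placed.si
  rw [(hp d).1, F.mA]
  have h0 := (F.hA d).1
  simp [ip, h0]
  ring

/-- the length of an edge -/
noncomputable def Placed.le (d : V × Fin 3) : ℝ :=
  if 0 < P.si d then Real.arccos (P.co d) else 2 * Real.pi - Real.arccos (P.co d)

lemma Placed.cos_le (d : V × Fin 3) : Real.cos (P.le d) = P.co d := by
  have h := P.co_si d
  have h1 : -1 ≤ P.co d := by nlinarith [sq_nonneg (P.si d)]
  have h2 : P.co d ≤ 1 := by nlinarith [sq_nonneg (P.si d)]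
  unfold Placed.le
  split_ifs
  · exact Real.cos_arccos h1 h2
  · rw [Real.cos_two_pi_sub]; exact Real.cos_arccos h1 h2

lemma Placed.sin_le (d : V × Fin 3) : Real.sin (P.le d) = P.si d := by
  have h := P.co_si d
  have h3 : 1 - P.co d ^ 2 = P.si d ^ 2 := by linarith
  unfold Placed.le
  split_ifs with h4
  · rw [Real.sin_arccos, h3, Real.sqrt_sq h4.le]
  · rw [Real.sin_two_pi_sub, Real.sin_arccos, h3, Real.sqrt_sq_eq_abs, abs_of_nonpos (by linarith)]
    ring

lemma Placed.le_bounds (d : V × Fin 3) (hs : P.si d ≠ 0) :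
    0 < P.le d ∧ P.le d < 2 * Real.pi ∧ (Real.pi ≤ P.le d → P.si d < 0) := by
  have hpi := Real.pi_pos
  have h := P.co_si d
  have h1 : -1 < P.co d := by nlinarith [sq_nonneg (P.si d), sq_pos_of_ne_zero hs]
  have h2 : P.co d < 1 := by nlinarith [sq_nonneg (P.si d), sq_pos_of_ne_zero hs]
  have h3 : 0 < Real.arccos (P.co d) := Real.arccos_pos.2 h2
  have h4 : Real.arccos (P.co d) < Real.pi := Real.arccos_lt_pi.2 h1
  unfold Placed.le
  split_ifs with h5
  · refine ⟨h3, by linarith, fun h => absurd h (by linarith)⟩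
  · refine ⟨by linarith, by linarith, fun _ => ?_⟩
    exact lt_of_le_of_ne (not_lt.1 h5) hs

/-- the point of the arc of `d` at time `s` -/
noncomputable def Placed.pt (d : V × Fin 3) (s : ℝ) : HH :=
  Real.cos s • P.y d.1 + Real.sin s • (F.A d * P.y d.1)

lemma ip_lin (u v c : HH) (r s : ℝ) : ip (r • u + s • v) c = r * ip u c + s * ip v c := by
  simp [ip]; ring

lemma Placed.pt_cos (d : V × Fin 3) (s : ℝ) : ip (P.pt d s) (P.y d.1) = Real.cos s := by
  unfold Placed.pt
  rw [ip_lin, P.unit, ip_comm (F.A d * P.y d.1), ip_orth (F.hA d)]; ring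

lemma Placed.pt_sin (d : V × Fin 3) (s : ℝ) :
    ip (P.pt d s) (F.A d * P.y d.1) = Real.sin s := by
  unfold Placed.pt
  rw [ip_lin, ip_unit (F.hA d) (P.unit _), ip_orth (F.hA d)]; ring

lemma Placed.pt_unit (d : V × Fin 3) (s : ℝ) : ip (P.pt d s) (P.pt d s) = 1 := by
  have h : ip (P.pt d s) (P.pt d s) = Real.cos s * ip (P.pt d s) (P.y d.1)
      + Real.sin s * ip (P.pt d s) (F.A d * P.y d.1) := by
    conv_lhs => rw [ip_comm]; unfold Placed.pt
    rw [ip_lin, ip_comm, ip_comm (F.A d * P.y d.1)]; rfl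
  rw [h, P.pt_cos, P.pt_sin]
  nlinarith [Real.sin_sq_add_cos_sq s]

lemma Placed.pt_inter (d : V × Fin 3) (s : ℝ) : F.A d * P.pt d s = P.pt d s * F.B d := by
  unfold Placed.pt
  rw [mul_add, add_mul, mul_smul_comm, mul_smul_comm, smul_mul_assoc, smul_mul_assoc, P.inter,
    ← mul_assoc, P.inter]

lemma Placed.pt_mate (d : V × Fin 3) (s : ℝ) :
    P.pt (mate d) (P.le d - s) = P.pt d s := by
  unfold Placed.pt
  rw [F.mA, P.far d, Real.cos_sub, Real.sin_sub, P.cos_le, P.sin_le]
  have h1 : F.A d * (F.A d * P.y d.1) = - P.y d.1 := by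
    rw [← mul_assoc, (F.hA d).mul_self, neg_one_mul]
  have h2 := P.co_si d
  rw [neg_mul, mul_add, mul_smul_comm, mul_smul_comm, h1]
  generalize F.A d * P.y d.1 = z at *
  generalize P.y d.1 = y at *
  have h3 : P.co d ^ 2 = 1 - P.si d ^ 2 := by linarith
  have : (P.co d * Real.cos s + P.si d * Real.sin s) • (P.co d • y + P.si d • z) +
      (P.si d * Real.cos s - P.co d * Real.sin s) • -(P.co d • z + P.si d • -y)
      = ((P.co d ^ 2 + P.si d ^ 2) * Real.cos s) • y
        + ((P.co d ^ 2 + P.si d ^ 2) * Real.sin s) • z := by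
    module
  rw [this, h2, one_mul, one_mul]

end Geometry

lemma sq_eq_one_iff_of_real {r : ℝ} (h : r ^ 2 = 1) : r = 1 ∨ r = -1 := by
  have : (r - 1) * (r + 1) = 0 := by linear_combination h
  rcases mul_eq_zero.1 this with h | h
  · left; linarith
  · right; linarith

lemma eq_of_cos_sin {s t : ℝ} (hs : 0 ≤ s) (hs' : s < 2 * Real.pi) (ht : 0 ≤ t)
    (ht' : t < 2 * Real.pi) (hc : Real.cos s = Real.cos t) (hn : Real.sin s = Real.sin t) :
    s = t := by
  have h : Real.cos (s - t) = 1 := by
    rw [Real.cos_sub, hc, hn]; nlinarith [Real.sin_sq_add_cos_sq t]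
  have := (Real.cos_eq_one_iff_of_lt_of_lt (by linarith) (by linarith)).1 h
  linarith

lemma two_nbr {α : Type} (f : Fin 3 → α) (hf : ∀ i j, f i = f j → i = j) (a : α) :
    ∃ i, f i ≠ a := by
  by_cases h : f 0 = a
  · refine ⟨1, fun h1 => ?_⟩
    have := hf 0 1 (h.trans h1.symm)
    simp at this
  · exact ⟨0, h⟩

lemma three_nbr {α : Type} (f : Fin 3 → α) (hf : ∀ i j, f i = f j → i = j) (a b : α) :
    ∃ i, f i ≠ a ∧ f i ≠ b := by
  by_contra hcon
  push Not at hcon
  have h0 := hcon 0
  have h1 := hcon 1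
  have h2 := hcon 2
  have n01 : f 0 ≠ f 1 := fun h => by have := hf 0 1 h; simp at this
  have n02 : f 0 ≠ f 2 := fun h => by have := hf 0 2 h; simp at this
  have n12 : f 1 ≠ f 2 := fun h => by have := hf 1 2 h; simp at this
  by_cases a0 : f 0 = a
  · have b1 := h1 (fun h => n01 (a0.trans h.symm))
    have b2 := h2 (fun h => n02 (a0.trans h.symm))
    exact n12 (b1.trans b2.symm)
  · have b0 := h0 a0
    by_cases a1 : f 1 = a
    · have b2 := h2 (fun h => n12 (a1.trans h.symm))
      exact n02 (b0.trans b2.symm)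
    · exact n01 (b0.trans (h1 a1).symm)

/-- **Criterion.** Let the cubic multigraph `mate` have no loops and no parallel edges. Two flows of
unit imaginary quaternions with `⟨A d, A d'⟩ ≠ ⟨B d, B d'⟩` for non-adjacent edges give a
closed geodesic net. -/
theorem criterion {V : Type} [Finite V] {mate : V × Fin 3 → V × Fin 3} (hp : IsPairing mate)
    (hl : ∀ d, (mate d).1 ≠ d.1)
    (hpar : ∀ v i j, (mate (v, i)).1 = (mate (v, j)).1 → i = j)
    (F : TwoFlows V mate)
    (hN : ∀ d d', NonAdj mate d d' → ip (F.A d) (F.A d') ≠ ip (F.B d) (F.B d')) :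
    Nonempty (Net V mate) := by
  classical
  have := Fintype.ofFinite V
  -- separation of the vertices
  have sep : ∀ (P : Placed F) (u v : V), u ≠ v → ∀ r : ℝ, P.y v ≠ r • P.y u := by
    intro P u v huv r hr
    obtain ⟨i, hi⟩ := two_nbr (fun i => (mate (u, i)).1) (hpar u) v
    obtain ⟨j, hj, hj'⟩ := three_nbr (fun j => (mate (v, j)).1) (hpar v) u (mate (u, i)).1
    refine hN (u, i) (v, j) ⟨huv, fun h => hj h.symm, hi, fun h => hj' h.symm⟩ ?_
    have h1 := P.inter (u, i)
    have h2 := P.inter (v, j)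
    have hr0 : r ≠ 0 := by
      rintro rfl
      have := P.unit v
      rw [hr] at this
      simp [ip] at this
    refine ip_conj (P.unit u) h1 ?_
    have h3 : r • (F.A (v, j) * P.y u) = r • (P.y u * F.B (v, j)) := by
      rw [← mul_smul_comm, ← smul_mul_assoc]
      simp only at h2
      rw [hr] at h2
      exact h2
    exact smul_right_injective _ hr0 h3
  obtain ⟨P0⟩ := exists_placed F
  have hsi : ∀ (P : Placed F) (d : V × Fin 3), P.si d ≠ 0 := by
    intro P d h0
    have h1 := P.far d
    rw [h0, zero_smul, add_zero] at h1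
    exact sep P d.1 (mate d).1 (fun h => hl d h.symm) _ h1
  -- choice of signs
  obtain ⟨σ, hσ⟩ := exists_signs mate hp hl (fun d => if 0 < P0.si d then 1 else -1)
    (fun d => by split_ifs <;> simp) (fun d => by simp only [P0.si_mate hp])
  set P := P0.flip σ with hP
  have hflip : ∀ d, P.si d = sg (σ d.1) * sg (σ (mate d).1) * P0.si d := by
    intro d
    simp only [Placed.si, hP, Placed.flip, mul_smul_comm]
    simp [ip]; ring
  have hsg : ∀ v i j, i ≠ j → ¬ (P.si (v, i) < 0 ∧ P.si (v, j) < 0) := by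
    intro v i j hij hcon
    apply hσ v i j hij
    have key : ∀ k, P.si (v, k) < 0 → sg (σ v) * sg (σ (mate (v, k)).1) *
        (if 0 < P0.si (v, k) then 1 else -1) < 0 := by
      intro k hk
      rw [hflip] at hk
      have h0 := hsi P0 (v, k)
      simp only at hk
      rcases sg_cases (σ v) with h1 | h1 <;> rcases sg_cases (σ (mate (v, k)).1) with h2 | h2 <;>
        rw [h1, h2] at hk ⊢ <;> split_ifs <;> linarith
    exact ⟨key i hcon.1, key j hcon.2⟩
  have hb := fun d => P.le_bounds d (hsi P d)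
  have same : ∀ d s t, 0 ≤ s → s ≤ P.le d → 0 ≤ t → t ≤ P.le d → P.pt d s = P.pt d t → t = s := by
    intro d s t hs hs' ht ht' h
    have h1 := P.pt_cos d s
    have h2 := P.pt_sin d s
    rw [h, P.pt_cos] at h1
    rw [h, P.pt_sin] at h2
    exact eq_of_cos_sin ht (by linarith [(hb d).2.1]) hs (by linarith [(hb d).2.1]) h1 h2
  have core : ∀ d d' : V × Fin 3, d.1 = d'.1 → d ≠ d' → ∀ s t, 0 ≤ s → s ≤ P.le d → 0 ≤ t →
      t ≤ P.le d' → P.pt d s = P.pt d' t → s = 0 ∧ t = 0 := by
    rintro ⟨v, i⟩ ⟨w, j⟩ hvw hne s t hs hs' ht ht' h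
    simp only at hvw
    subst hvw
    have hij : i ≠ j := fun h => hne (by rw [h])
    have hx := P.unit v
    have hst : ∀ k, star (P.y v) * F.A (v, k) = F.B (v, k) * star (P.y v) := by
      intro k
      have := congrArg star (P.inter (v, k))
      rw [star_mul, star_mul, (F.hA _).star, (F.hB _).star] at this
      simpa using this
    have c1 : F.A (v, i) * (P.pt (v, i) s * star (P.y v))
        = (P.pt (v, i) s * star (P.y v)) * F.A (v, i) := by
      rw [← mul_assoc, P.pt_inter, mul_assoc, mul_assoc, hst]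
    have c2 : F.A (v, j) * (P.pt (v, i) s * star (P.y v))
        = (P.pt (v, i) s * star (P.y v)) * F.A (v, j) := by
      rw [h, ← mul_assoc, P.pt_inter, mul_assoc, mul_assoc, hst]
    have hhalf := ip_half' (a := fun k => F.A (v, k)) (fun k => F.hA _) (F.sA v) hij
    have c3 := commute_two (F.hA _) (F.hA _) (by rw [hhalf]; norm_num) c1 c2
    set r := (P.pt (v, i) s * star (P.y v)).re with hr
    have c4 : P.pt (v, i) s = r • P.y v := by
      calc P.pt (v, i) s = (P.pt (v, i) s * star (P.y v)) * P.y v := by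
            rw [mul_assoc, star_mul_of_ip hx, mul_one]
        _ = (r • (1 : HH)) * P.y v := by rw [← c3]
        _ = _ := by rw [smul_mul_assoc, one_mul]
    have hlin : ∀ u c : HH, ip (r • u) c = r * ip u c := by
      intro u c; simp [ip]; ring
    have hcs : Real.cos s = r := by
      have := P.pt_cos (v, i) s
      rw [c4, hlin, hx, mul_one] at this
      exact this.symm
    have hss : Real.sin s = 0 := by
      have := P.pt_sin (v, i) s
      rw [c4, hlin, ip_orth (F.hA _), mul_zero] at this
      exact this.symm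
    rw [h] at c4
    have hct : Real.cos t = r := by
      have := P.pt_cos (v, j) t
      rw [c4, hlin, hx, mul_one] at this
      exact this.symm
    have hst' : Real.sin t = 0 := by
      have := P.pt_sin (v, j) t
      rw [c4, hlin, ip_orth (F.hA _), mul_zero] at this
      exact this.symm
    have hpi := Real.pi_pos
    have hr2 : r ^ 2 = 1 := by
      have := Real.sin_sq_add_cos_sq s
      rw [hss, hcs] at this; linarith
    have hb1 := hb (v, i)
    have hb2 := hb (v, j)
    rcases sq_eq_one_iff_of_real hr2 with h1 | h1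
    · constructor
      · exact eq_of_cos_sin hs (by linarith) le_rfl (by linarith) (by rw [hcs, h1, Real.cos_zero])
          (by rw [hss, Real.sin_zero])
      · exact eq_of_cos_sin ht (by linarith) le_rfl (by linarith) (by rw [hct, h1, Real.cos_zero])
          (by rw [hst', Real.sin_zero])
    · exfalso
      have e1 : s = Real.pi := eq_of_cos_sin hs (by linarith) hpi.le (by linarith)
        (by rw [hcs, h1, Real.cos_pi]) (by rw [hss, Real.sin_pi])
      have e2 : t = Real.pi := eq_of_cos_sin ht (by linarith) hpi.le (by linarith)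
        (by rw [hct, h1, Real.cos_pi]) (by rw [hst', Real.sin_pi])
      exact hsg v i j hij ⟨hb1.2.2 (by linarith), hb2.2.2 (by linarith)⟩
  let φ := Quaternion.linearIsometryEquivTuple
  have harc : ∀ d s, arc (φ (P.y d.1)) (φ (F.A d * P.y d.1)) s = φ (P.pt d s) := by
    intro d s
    simp only [arc, Placed.pt, map_add, map_smul]
  refine ⟨⟨fun v => φ (P.y v), fun d => φ (F.A d * P.y d.1), P.le, ?_, ?_, ?_, ?_, ?_, ?_, ?_, ?_,
    ?_⟩⟩
  · intro v
    rw [φ.norm_map, ← ip_self_eq_one_iff, P.unit]
  · intro u v huv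
    by_contra hne
    have : P.y u = P.y v := φ.injective huv
    exact sep P u v hne 1 (by rw [one_smul]; exact this.symm)
  · intro d
    rw [φ.norm_map, ← ip_self_eq_one_iff, ip_unit (F.hA d) (P.unit _)]
  · intro d
    rw [φ.inner_map_map, ip_eq, ip_orth (F.hA d)]
  · exact fun d => (hb d).1
  · intro d
    simp only [Placed.le, P.co_mate hp, P.si_mate hp]
  · intro d t
    rw [harc, harc, P.pt_mate]
  · intro v
    rw [← map_add, ← map_add, ← add_mul, ← add_mul, F.sA, zero_mul, map_zero]
  · intro d d' s hs t ht h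
    rw [harc, harc] at h
    have h := φ.injective h
    by_cases h1 : d' = d
    · left
      subst h1
      exact ⟨rfl, same d' s t hs.1 hs.2 ht.1 ht.2 h⟩
    by_cases h2 : d' = mate d
    · right; left
      subst h2
      refine ⟨rfl, ?_⟩
      have hle : P.le (mate d) = P.le d := by simp only [Placed.le, P.co_mate hp, P.si_mate hp]
      rw [hle] at ht
      have h3 : P.pt (mate d) t = P.pt d (P.le d - t) := by
        rw [← P.pt_mate d (P.le d - t), sub_sub_cancel]
      rw [h3] at h
      have := same d s (P.le d - t) hs.1 hs.2 (by linarith [ht.2]) (by linarith [ht.1]) h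
      linarith
    · right; right
      have hle : ∀ d, P.le (mate d) = P.le d := by
        intro d; simp only [Placed.le, P.co_mate hp, P.si_mate hp]
      have hnn : ¬ NonAdj mate d d' := by
        intro hn
        refine hN d d' hn (ip_conj (P.pt_unit d s) (P.pt_inter d s) ?_)
        rw [h]; exact P.pt_inter d' t
      have hs1 := hs.1
      have hs2 := hs.2
      have ht1 := ht.1
      have ht2 := ht.2
      unfold NonAdj at hnn
      by_cases a1 : d.1 = d'.1
      · obtain ⟨e1, e2⟩ := core d d' a1 (fun h => h1 h.symm) s t hs1 hs2 ht1 ht2 h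
        exact ⟨Or.inl e1, Or.inl e2⟩
      by_cases a2 : d.1 = (mate d').1
      · obtain ⟨e1, e2⟩ := core d (mate d') a2 (fun h => h2 (by rw [h, (hp d').1])) s
          (P.le d' - t) hs1 hs2 (by linarith) (by rw [hle]; linarith)
          (by rw [P.pt_mate]; exact h)
        exact ⟨Or.inl e1, Or.inr (by linarith)⟩
      by_cases a3 : (mate d).1 = d'.1
      · obtain ⟨e1, e2⟩ := core (mate d) d' a3 (fun h => h2 h.symm)
          (P.le d - s) t (by linarith) (by rw [hle]; linarith) ht1 ht2
          (by rw [P.pt_mate]; exact h)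
        exact ⟨Or.inr (by linarith), Or.inl e2⟩
      by_cases a4 : (mate d).1 = (mate d').1
      · obtain ⟨e1, e2⟩ := core (mate d) (mate d') a4
          (fun h => h1 (by rw [← (hp d').1, ← h, (hp d).1]))
          (P.le d - s) (P.le d' - t) (by linarith) (by rw [hle]; linarith) (by linarith)
          (by rw [hle]; linarith)
          (by rw [P.pt_mate, P.pt_mate]; exact h)
        exact ⟨Or.inr (by linarith), Or.inr (by linarith)⟩
      exact absurd ⟨a1, a2, a3, a4⟩ hnn

end Pool.Agent.Lib.MP_a226eb_gt
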