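import Mathlib

/-!
# Trivalent closed geodesic nets in the round 3-sphere: definitions

A finite cubic multigraph is given by its darts (half-edges) `V × Fin 3`, the dart `(v, i)` being
the `i`-th half-edge at the vertex `v`, and by the fixed-point-free involution `mate` of the darts
which sends a half-edge to the other half of its edge.
-/

namespace Pool.Agent.Lib.MP_a226eb_gt

/-- Euclidean four-space. -/
abbrev E4 := EuclideanSpace ℝ (Fin 4)

/-- The unit-speed geodesic of the unit sphere which starts at `x` in the direction `u`
(for orthonormal `x`, `u`), at time `t`. -/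
noncomputable def arc (x u : E4) (t : ℝ) : E4 := Real.cos t • x + Real.sin t • u

/-- A closed geodesic net on the unit sphere of `E4` modelled on the cubic multigraph whose darts
are `V × Fin 3`, with `mate` the pairing of the darts into edges. -/
structure Net (V : Type) (mate : V × Fin 3 → V × Fin 3) where
  /-- the position of a vertex -/
  pos : V → E4
  /-- the unit tangent vector, at the vertex of the dart, of the edge of the dart -/
  dir : V × Fin 3 → E4
  /-- the length of the edge of the dart -/
  len : V × Fin 3 → ℝ
  pos_norm : ∀ v, ‖pos v‖ = 1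
  pos_inj : Function.Injective pos
  dir_norm : ∀ d, ‖dir d‖ = 1
  orth : ∀ d, inner ℝ (pos d.1) (dir d) = 0
  len_pos : ∀ d, 0 < len d
  len_mate : ∀ d, len (mate d) = len d
  /-- the edge of a dart, run through backwards, is the edge of the opposite dart -/
  rev : ∀ d t, arc (pos d.1) (dir d) t = arc (pos (mate d).1) (dir (mate d)) (len d - t)
  /-- balancing -/
  balanced : ∀ v, dir (v, 0) + dir (v, 1) + dir (v, 2) = 0
  /-- edges meet one another or themselves only at endpoints -/
  embedded : ∀ d d' : V × Fin 3, ∀ s ∈ Set.Icc 0 (len d), ∀ t ∈ Set.Icc 0 (len d'),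
    arc (pos d.1) (dir d) s = arc (pos d'.1) (dir d') t →
      (d' = d ∧ t = s) ∨ (d' = mate d ∧ t = len d - s) ∨
        ((s = 0 ∨ s = len d) ∧ (t = 0 ∨ t = len d'))

/-- `mate` is the pairing of the darts of a cubic multigraph: it is an involution without fixed
points. -/
def IsPairing {V : Type} (mate : V × Fin 3 → V × Fin 3) : Prop :=
  ∀ d, mate (mate d) = d ∧ mate d ≠ d

/-- The multigraph is connected. -/
def Connected {V : Type} (mate : V × Fin 3 → V × Fin 3) : Prop :=
  ∀ v w : V, Relation.ReflTransGen (fun a b => ∃ i, (mate (a, i)).1 = b) v w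

/-- The round 3-sphere carries a closed geodesic net modelled on the cubic multigraph `mate`. -/
def Occurs {V : Type} (mate : V × Fin 3 → V × Fin 3) : Prop :=
  IsPairing mate ∧ Connected mate ∧ Nonempty (Net V mate)

end Pool.Agent.Lib.MP_a226eb_gt
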