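import Pool.Agent.Lib.MP_a226eb_gt.Haar

/-!
# Generalised Petersen graphs
-/

namespace Pool.Agent.Lib.MP_a226eb_gt

open Quaternion Complex ComplexConjugate

/-- The pairing of the generalised Petersen graph `GP(n, K)`: the vertices are `u_m = (false, m)`
and `v_m = (true, m)` for `m` in `ZMod n`; the edges are `u_m u_(m+1)`, `u_m v_m`, `v_m v_(m+K)`. -/
def gp (n : ℕ) (K : ZMod n) (d : (Bool × ZMod n) × Fin 3) : (Bool × ZMod n) × Fin 3 :=
  match d with
  | ((false, m), 0) => ((false, m + 1), 1)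
  | ((false, m), 1) => ((false, m - 1), 0)
  | ((false, m), 2) => ((true, m), 2)
  | ((true, m), 0) => ((true, m + K), 1)
  | ((true, m), 1) => ((true, m - K), 0)
  | ((true, m), 2) => ((false, m), 2)

lemma gp_pairing (n : ℕ) (K : ZMod n) : IsPairing (gp n K) := by
  rintro ⟨⟨b, m⟩, t⟩
  cases b <;> fin_cases t <;> simp [gp]

/-- It is enough to check the non-crossing condition on representatives of the edges. -/
lemma criterion_rep {V : Type} [Finite V] {mate : V × Fin 3 → V × Fin 3} (hp : IsPairing mate)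
    (hl : ∀ d, (mate d).1 ≠ d.1)
    (hpar : ∀ v i j, (mate (v, i)).1 = (mate (v, j)).1 → i = j)
    (F : TwoFlows V mate) (R : V × Fin 3 → Prop) (hR : ∀ d, R d ∨ R (mate d))
    (hN : ∀ d d', R d → R d' → NonAdj mate d d' → ip (F.A d) (F.A d') ≠ ip (F.B d) (F.B d')) :
    Nonempty (Net V mate) := by
  refine criterion hp hl hpar F ?_
  have flip1 : ∀ d d', NonAdj mate d d' → NonAdj mate (mate d) d' := by
    rintro d d' ⟨h1, h2, h3, h4⟩
    refine ⟨h3, h4, ?_, ?_⟩
    · rw [(hp d).1]; exact h1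
    · rw [(hp d).1]; exact h2
  have flip2 : ∀ d d', NonAdj mate d d' → NonAdj mate d (mate d') := by
    rintro d d' ⟨h1, h2, h3, h4⟩
    refine ⟨h2, ?_, h4, ?_⟩
    · rw [(hp d').1]; exact h1
    · rw [(hp d').1]; exact h3
  intro d d' hn
  rcases hR d with r | r <;> rcases hR d' with r' | r'
  · exact hN d d' r r' hn
  · have := hN d (mate d') r r' (flip2 _ _ hn)
    rw [F.mA, F.mB, ip_neg_right, ip_neg_right] at this
    exact fun h => this (by rw [h])
  · have := hN (mate d) d' r r' (flip1 _ _ hn)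
    rw [F.mA, F.mB, ip_neg_left, ip_neg_left] at this
    exact fun h => this (by rw [h])
  · have := hN (mate d) (mate d') r r' (flip1 _ _ (flip2 _ _ hn))
    rw [F.mA, F.mB, F.mA, F.mB, ip_neg_left, ip_neg_left, ip_neg_right, ip_neg_right,
      neg_neg, neg_neg] at this
    exact this

/-- flows on a generalised Petersen graph from their values on the oriented edges -/
lemma gp_net (n : ℕ) (hn : 2 < n) (K : ZMod n) (hK : K + K ≠ 0)
    (aO aS aI bO bS bI : ZMod n → HH)
    (hu : ∀ m, UI (aO m) ∧ UI (aS m) ∧ UI (aI m) ∧ UI (bO m) ∧ UI (bS m) ∧ UI (bI m))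
    (h1 : ∀ m, aO m - aO (m - 1) + aS m = 0) (h2 : ∀ m, aI m - aI (m - K) - aS m = 0)
    (h3 : ∀ m, bO m - bO (m - 1) + bS m = 0) (h4 : ∀ m, bI m - bI (m - K) - bS m = 0)
    (hOO : ∀ m m', m ≠ m' → m ≠ m' + 1 → m' ≠ m + 1 → ip (aO m) (aO m') ≠ ip (bO m) (bO m'))
    (hSS : ∀ m m', m ≠ m' → ip (aS m) (aS m') ≠ ip (bS m) (bS m'))
    (hII : ∀ m m', m ≠ m' → m ≠ m' + K → m' ≠ m + K → ip (aI m) (aI m') ≠ ip (bI m) (bI m'))
    (hOS : ∀ m m', m' ≠ m → m' ≠ m + 1 → ip (aO m) (aS m') ≠ ip (bO m) (bS m'))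
    (hIS : ∀ m m', m' ≠ m → m' ≠ m + K → ip (aI m) (aS m') ≠ ip (bI m) (bS m'))
    (hOI : ∀ m m', ip (aO m) (aI m') ≠ ip (bO m) (bI m')) :
    Nonempty (Net (Bool × ZMod n) (gp n K)) := by
  have : NeZero n := ⟨by omega⟩
  have h11 : (1 : ZMod n) + 1 ≠ 0 := by
    intro h
    have h2 : ((2 : ℕ) : ZMod n) = 0 := by push_cast; rw [← h]; norm_num
    rw [ZMod.natCast_eq_zero_iff] at h2
    exact absurd (Nat.le_of_dvd (by norm_num) h2) (by omega)
  have h10 : (1 : ZMod n) ≠ 0 := by
    intro h; exact h11 (by rw [h, add_zero])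
  have hK0 : K ≠ 0 := by
    intro h; exact hK (by rw [h, add_zero])
  let F : TwoFlows (Bool × ZMod n) (gp n K) :=
    { A := fun d => match d with
        | ((false, m), 0) => aO m
        | ((false, m), 1) => -aO (m - 1)
        | ((false, m), 2) => aS m
        | ((true, m), 0) => aI m
        | ((true, m), 1) => -aI (m - K)
        | ((true, m), 2) => -aS m
      B := fun d => match d with
        | ((false, m), 0) => bO m
        | ((false, m), 1) => -bO (m - 1)
        | ((false, m), 2) => bS m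
        | ((true, m), 0) => bI m
        | ((true, m), 1) => -bI (m - K)
        | ((true, m), 2) => -bS m
      hA := by
        rintro ⟨⟨c, m⟩, t⟩
        cases c <;> fin_cases t
        · exact (hu m).1
        · exact (hu _).1.neg
        · exact (hu m).2.1
        · exact (hu m).2.2.1
        · exact (hu _).2.2.1.neg
        · exact (hu m).2.1.neg
      hB := by
        rintro ⟨⟨c, m⟩, t⟩
        cases c <;> fin_cases t
        · exact (hu m).2.2.2.1
        · exact (hu _).2.2.2.1.neg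
        · exact (hu m).2.2.2.2.1
        · exact (hu m).2.2.2.2.2
        · exact (hu _).2.2.2.2.2.neg
        · exact (hu m).2.2.2.2.1.neg
      mA := by
        rintro ⟨⟨c, m⟩, t⟩
        cases c <;> fin_cases t <;> simp [gp]
      mB := by
        rintro ⟨⟨c, m⟩, t⟩
        cases c <;> fin_cases t <;> simp [gp]
      sA := by
        rintro ⟨c, m⟩
        cases c
        · show aO m + -aO (m - 1) + aS m = 0
          rw [← sub_eq_add_neg]; exact h1 m
        · show aI m + -aI (m - K) + -aS m = 0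
          rw [← sub_eq_add_neg, ← sub_eq_add_neg]; exact h2 m
      sB := by
        rintro ⟨c, m⟩
        cases c
        · show bO m + -bO (m - 1) + bS m = 0
          rw [← sub_eq_add_neg]; exact h3 m
        · show bI m + -bI (m - K) + -bS m = 0
          rw [← sub_eq_add_neg, ← sub_eq_add_neg]; exact h4 m }
  refine criterion_rep (gp_pairing n K) ?_ ?_ F
    (fun d => (∃ m, d = ((false, m), 0)) ∨ (∃ m, d = ((false, m), 2)) ∨
      (∃ m, d = ((true, m), 0))) ?_ ?_
  · rintro ⟨⟨c, m⟩, t⟩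
    cases c <;> fin_cases t <;> simp [gp, h10, hK0]
  · have k1 : ∀ m : ZMod n, m + 1 ≠ m - 1 := by
      intro m h; apply h11; linear_combination h
    have k2 : ∀ m : ZMod n, m + K ≠ m - K := by
      intro m h; apply hK; linear_combination h
    rintro ⟨c, m⟩ i j h
    cases c <;> fin_cases i <;> fin_cases j <;> simp [gp] at h ⊢
    · exact k1 m h
    · exact k1 m h.symm
    · exact k2 m h
    · exact k2 m h.symm
  · rintro ⟨⟨c, m⟩, t⟩
    cases c <;> fin_cases t <;> simp [gp]
  · rintro d d' (⟨m, rfl⟩ | ⟨m, rfl⟩ | ⟨m, rfl⟩) (⟨m', rfl⟩ | ⟨m', rfl⟩ | ⟨m', rfl⟩)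
      ⟨n1, n2, n3, n4⟩ <;> simp [gp] at n1 n2 n3 n4
    · exact hOO m m' n1 n2 (fun h => n3 h.symm)
    · exact hOS m m' (fun h => n1 h.symm) (fun h => n3 h.symm)
    · exact hOI m m'
    · show ip (aS m) (aO m') ≠ ip (bS m) (bO m')
      rw [ip_comm, ip_comm (bS m)]
      exact hOS m' m n1 n2
    · exact hSS m m' n1
    · show ip (aS m) (aI m') ≠ ip (bS m) (bI m')
      rw [ip_comm, ip_comm (bS m)]
      exact hIS m' m n3 n4
    · show ip (aI m) (aO m') ≠ ip (bI m) (bO m')
      rw [ip_comm, ip_comm (bI m)]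
      exact hOI m' m
    · exact hIS m m' (fun h => n2 h.symm) (fun h => n4 h.symm)
    · exact hII m m' n1 n2 (fun h => n3 h.symm)

end Pool.Agent.Lib.MP_a226eb_gt
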