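import Pool.Agent.Lib.MP_a226eb_gt.GP

/-!
# Bipartite generalised Petersen graphs
-/

namespace Pool.Agent.Lib.MP_a226eb_gt

open Quaternion Complex ComplexConjugate

/-- the sign of a residue modulo two -/
def e2 (x : ZMod 2) : ℤ := if x = 0 then 1 else -1

lemma e2_add : ∀ x y : ZMod 2, e2 (x + y) = e2 x * e2 y := by decide

lemma e2_sub : ∀ x y : ZMod 2, e2 (x - y) = e2 x * e2 y := by decide

lemma e2_cases : ∀ x : ZMod 2, e2 x = 1 ∨ e2 x = -1 := by decide

/-- the sign of a residue modulo an even number -/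
def s2 {n : ℕ} (h : 2 ∣ n) (m : ZMod n) : ℝ := (e2 (ZMod.castHom h (ZMod 2) m) : ℝ)

lemma s2_add {n : ℕ} (h : 2 ∣ n) (a b : ZMod n) : s2 h (a + b) = s2 h a * s2 h b := by
  unfold s2
  rw [map_add, e2_add]; push_cast; rfl

lemma s2_sub {n : ℕ} (h : 2 ∣ n) (a b : ZMod n) : s2 h (a - b) = s2 h a * s2 h b := by
  unfold s2
  rw [map_sub, e2_sub]; push_cast; rfl

lemma s2_cases {n : ℕ} (h : 2 ∣ n) (a : ZMod n) : s2 h a = 1 ∨ s2 h a = -1 := by
  unfold s2
  rcases e2_cases (ZMod.castHom h (ZMod 2) a) with h | h <;> rw [h] <;> simp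

lemma s2_one {n : ℕ} (h : 2 ∣ n) : s2 h (1 : ZMod n) = -1 := by
  unfold s2
  rw [map_one]
  simp [e2]

lemma s2_mul_self {n : ℕ} (h : 2 ∣ n) (a : ZMod n) : s2 h a * s2 h a = 1 := by
  rcases s2_cases h a with h | h <;> rw [h] <;> norm_num

lemma oi_ineq {N N' a b : ℝ} (hN : 0 < N) (hN' : 0 < N') (ha : 0 ≤ a) (hb : 0 ≤ b)
    (ha2 : a ^ 2 = 1 - 1 / N) (hb2 : b ^ 2 = 1 - 1 / N')
    (hF : N + N' < 3 / 4 * (N * N') + Real.sqrt (N * N')) :
    Real.sqrt (1 / (N * N')) < 1 / 2 + a * b := by
  set P := Real.sqrt (N * N') with hP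
  have hP2 : P ^ 2 = N * N' := Real.sq_sqrt (by positivity)
  have hP0 : 0 < P := Real.sqrt_pos.2 (by positivity)
  have hinv : Real.sqrt (1 / (N * N')) = 1 / P := by
    rw [one_div, Real.sqrt_inv, ← hP, one_div]
  rw [hinv]
  have hab : 0 ≤ a * b := mul_nonneg ha hb
  have hab2 : (P * (a * b)) ^ 2 = (N - 1) * (N' - 1) := by
    have : (P * (a * b)) ^ 2 = P ^ 2 * (a ^ 2 * b ^ 2) := by ring
    rw [this, hP2, ha2, hb2]; field_simp
  have h6 : 0 ≤ P * (a * b) := mul_nonneg hP0.le hab
  have h5 : 1 - P / 2 < P * (a * b) := by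
    by_contra hcon
    push Not at hcon
    have h7 : (P * (a * b)) ^ 2 ≤ (1 - P / 2) ^ 2 := pow_le_pow_left₀ h6 hcon 2
    rw [hab2] at h7
    have h8 : (1 - P / 2) ^ 2 = 1 - P + (N * N') / 4 := by rw [← hP2]; ring
    rw [h8] at h7
    linarith
  rw [div_lt_iff₀ hP0]
  linarith

/-- the flow argument -/
theorem gp_main (n : ℕ) [NeZero n] (hn : 2 < n) (h2 : 2 ∣ n) (K J : ZMod n) (hK : K + K ≠ 0)
    (hKs : s2 h2 K = -1) (hJ : ∀ δ : ZMod n, J * δ = 0 → δ = 0)
    (N N' : ℝ) (hN : N = normSq (1 + ZMod.stdAddChar J : ℂ))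
    (hN' : N' = normSq (1 + ZMod.stdAddChar (J * K) : ℂ)) (h1 : 1 < N) (h1' : 1 < N')
    (hF : N + N' < 3 / 4 * (N * N') + Real.sqrt (N * N')) :
    Nonempty (Net (Bool × ZMod n) (gp n K)) := by
  let e : ZMod n → ℂ := fun m => ZMod.stdAddChar m
  have eadd : ∀ a b, e (a + b) = e a * e b := fun a b => AddChar.map_add_eq_mul _ a b
  have econj : ∀ a, conj (e a) = e (-a) := fun a => stdAddChar_conj a
  have e0 : e 0 = 1 := AddChar.map_zero_eq_one _
  have eunit : ∀ a, normSq (e a) = 1 := fun a => unit_of_stdAddChar a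
  have einj : Function.Injective e := ZMod.injective_stdAddChar
  have hN2 : N = 2 + 2 * (e J).re := by
    rw [hN, Complex.normSq_add]
    have := eunit J
    simp only [e] at this ⊢
    rw [this]; simp; ring
  have hN2' : N' = 2 + 2 * (e (J * K)).re := by
    rw [hN', Complex.normSq_add]
    have := eunit (J * K)
    simp only [e] at this ⊢
    rw [this]; simp; ring
  have hne : (1 + e J) ≠ 0 := by
    intro h; rw [show (1 + ZMod.stdAddChar J : ℂ) = 1 + e J from rfl, h] at hN
    simp at hN; linarith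
  have hne' : (1 + e (J * K)) ≠ 0 := by
    intro h; rw [show (1 + ZMod.stdAddChar (J * K) : ℂ) = 1 + e (J * K) from rfl, h] at hN'
    simp at hN'; linarith
  set wO : ℂ := (1 + e J)⁻¹ with hwO
  set wI : ℂ := -(1 + e (J * K))⁻¹ with hwI
  have wOsum : wO + e J * wO = 1 := by rw [hwO]; field_simp
  have wIsum : wI + e (J * K) * wI = -1 := by rw [hwI]; field_simp; ring
  have conj_inv : ∀ a : ZMod n, 1 + e a ≠ 0 → conj ((1 + e a)⁻¹) = e a * (1 + e a)⁻¹ := by
    intro a ha
    rw [map_inv₀, map_add, map_one, econj]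
    have h3 : e a * e (-a) = 1 := by rw [← eadd, add_neg_cancel, e0]
    have h4 : e a * (1 + e (-a)) = 1 + e a := by rw [mul_add, h3]; ring
    have h5 : (1 + e (-a)) ≠ 0 := by
      intro h; rw [h, mul_zero] at h4; exact ha h4.symm
    rw [inv_eq_iff_eq_inv, mul_inv, inv_inv]
    have h6 : e a ≠ 0 := by intro h; rw [h, zero_mul] at h3; exact zero_ne_one h3
    field_simp
    linear_combination h4
  have wOc : conj wO = e J * wO := conj_inv J hne
  have wIc : conj wI = e (J * K) * wI := by
    rw [hwI, map_neg, conj_inv _ hne']; ring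
  have wOn : normSq wO = 1 / N := by
    rw [hwO, map_inv₀, hN, one_div]
  have wIn : normSq wI = 1 / N' := by
    rw [hwI, Complex.normSq_neg, map_inv₀, hN', one_div]
  have hN0 : 0 < N := by linarith
  have hN0' : 0 < N' := by linarith
  have wOre : wO.re = 1 / 2 := by
    have := congrArg Complex.re wOsum
    rw [← wOc] at this
    simp at this; linarith
  have wIre : wI.re = -1 / 2 := by
    have := congrArg Complex.re wIsum
    rw [← wIc] at this
    simp at this; linarith
  have wOre' : (e J * wO).re = 1 / 2 := by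
    rw [← wOc]; simpa using wOre
  have wIre' : (e (J * K) * wI).re = -1 / 2 := by
    rw [← wIc]; simpa using wIre
  have hinvN : 0 ≤ 1 - 1 / N := by
    rw [sub_nonneg, div_le_one hN0]; exact h1.le
  have hinvN' : 0 ≤ 1 - 1 / N' := by
    rw [sub_nonneg, div_le_one hN0']; exact h1'.le
  set hO : ℝ := Real.sqrt (1 - 1 / N) with hhO
  set hI : ℝ := Real.sqrt (1 - 1 / N') with hhI
  have hO2 : hO ^ 2 = 1 - 1 / N := Real.sq_sqrt hinvN
  have hI2 : hI ^ 2 = 1 - 1 / N' := Real.sq_sqrt hinvN'
  set q : ℝ := Real.sqrt 3 / 2 with hq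
  have q2 : q ^ 2 = 3 / 4 := by
    rw [hq, div_pow, Real.sq_sqrt (by norm_num)]; norm_num
  let σ : ZMod n → ℝ := s2 h2
  have σσ : ∀ m, σ m * σ m = 1 := s2_mul_self h2
  have σ1 : ∀ m, σ (m - 1) = - σ m := by
    intro m; simp only [σ, s2_sub, s2_one]; ring
  have σK : ∀ m, σ (m - K) = - σ m := by
    intro m; simp only [σ, s2_sub, hKs]; ring
  have σc : ∀ m, σ m = 1 ∨ σ m = -1 := s2_cases h2
  have σn : ∀ m, normSq (σ m : ℂ) = 1 := by
    intro m; rw [Complex.normSq_ofReal]; exact σσ m
  let E : ZMod n → ℂ := fun m => (σ m : ℂ) * e (-(J * m))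
  have En : ∀ m, normSq (E m) = 1 := by
    intro m; simp only [E]; rw [map_mul, σn, eunit, one_mul]
  have EE : ∀ m m', E m * conj (E m') = (σ m * σ m' : ℝ) * e (J * (m' - m)) := by
    intro m m'
    simp only [E, map_mul, econj, Complex.conj_ofReal]
    have : e (J * (m' - m)) = e (-(J * m)) * e (-(-(J * m'))) := by
      rw [← eadd]; congr 1; ring
    rw [this]; push_cast; ring
  let aO : ZMod n → HH := fun m => vec ((σ m / 2 : ℝ) : ℂ) (-q)
  let aS : ZMod n → HH := fun m => vec ((-σ m : ℝ) : ℂ) 0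
  let aI : ZMod n → HH := fun m => vec ((-(σ m / 2) : ℝ) : ℂ) (-q)
  let bO : ZMod n → HH := fun m => vec (E m * wO) hO
  let bS : ZMod n → HH := fun m => vec (-E m) 0
  let bI : ZMod n → HH := fun m => vec (E m * wI) (-hI)
  have E1 : ∀ m, E (m - 1) = - (E m * e J) := by
    intro m
    simp only [E]
    have : e (-(J * (m - 1))) = e (-(J * m)) * e J := by
      rw [← eadd]; congr 1; ring
    rw [σ1, this]; push_cast; ring
  have EK : ∀ m, E (m - K) = - (E m * e (J * K)) := by
    intro m
    simp only [E]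
    have : e (-(J * (m - K))) = e (-(J * m)) * e (J * K) := by
      rw [← eadd]; congr 1; ring
    rw [σK, this]; push_cast; ring
  have vsub : ∀ (z w : ℂ) (h k : ℝ), vec z h - vec w k = vec (z - w) (h - k) := by
    intro z w h k
    rw [sub_eq_add_neg, vec_neg, vec_add, ← sub_eq_add_neg, ← sub_eq_add_neg]
  have v0 : ∀ (z : ℂ) (h : ℝ), z = 0 → h = 0 → vec z h = 0 := by
    rintro z h rfl rfl; exact vec_zero
  -- real part of a product with a unit in the circle equal to a given value
  have eδ : ∀ δ : ZMod n, (e (J * δ)).re = 1 → δ = 0 := by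
    intro δ h
    have h3 := eq_one_of_re (eunit _) h
    rw [← e0] at h3
    exact hJ δ (einj h3)
  have eJne : ∀ δ : ZMod n, δ ≠ 0 → (1 : ℂ) ≠ e (J * δ) := by
    intro δ hδ h
    rw [← e0] at h
    exact hδ (hJ δ (einj h).symm)
  have h10 : (1 : ZMod n) ≠ 0 := by
    intro h
    have h3 : ((1 : ℕ) : ZMod n) = 0 := by push_cast; exact h
    rw [ZMod.natCast_eq_zero_iff] at h3
    exact absurd (Nat.le_of_dvd (by norm_num) h3) (by omega)
  have h11 : (1 : ZMod n) + 1 ≠ 0 := by
    intro h
    have h3 : ((2 : ℕ) : ZMod n) = 0 := by push_cast; rw [← h]; norm_num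
    rw [ZMod.natCast_eq_zero_iff] at h3
    exact absurd (Nat.le_of_dvd (by norm_num) h3) (by omega)
  have hK0 : K ≠ 0 := by
    intro h; exact hK (by rw [h, add_zero])
  -- equal real parts
  have same_re : ∀ a b : ZMod n, b + b ≠ 0 → (e (J * a)).re = (e (J * b)).re → a = b ∨ a = -b := by
    intro a b hb h
    have hb' : e (J * b) ≠ e (J * (-b)) := by
      intro h3
      have h4 := einj h3
      apply hb
      apply hJ
      linear_combination h4
    rcases two_sol (w := 1) (eunit (J * a)) (eunit (J * b)) (eunit (J * (-b))) one_ne_zero hb'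
      (by rw [mul_one, mul_one]; exact h) (by
        rw [mul_one, mul_one]
        have : e (J * (-b)) = conj (e (J * b)) := by rw [econj]; congr 1; ring
        rw [this, Complex.conj_re]) with h3 | h3
    · left
      have := einj h3
      have h4 := hJ (a - b) (by linear_combination this)
      exact sub_eq_zero.1 h4
    · right
      have := einj h3
      have h4 := hJ (a + b) (by linear_combination this)
      exact eq_neg_of_add_eq_zero_left h4
  refine gp_net n hn K hK aO aS aI bO bS bI ?_ ?_ ?_ ?_ ?_ ?_ ?_ ?_ ?_ ?_ ?_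
  · intro m
    refine ⟨vec_UI ?_, vec_UI ?_, vec_UI ?_, vec_UI ?_, vec_UI ?_, vec_UI ?_⟩
    · rw [Complex.normSq_ofReal]; linear_combination (1 / 4 : ℝ) * σσ m + q2
    · rw [Complex.normSq_ofReal]; linear_combination σσ m
    · rw [Complex.normSq_ofReal]; linear_combination (1 / 4 : ℝ) * σσ m + q2
    · rw [map_mul, En, wOn, hO2]; ring
    · rw [Complex.normSq_neg, En]; norm_num
    · rw [map_mul, En, wIn, neg_sq, hI2]; ring
  · intro m
    simp only [aO, aS, vsub, vec_add]
    apply v0
    · rw [σ1]; push_cast; ring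
    · ring
  · intro m
    simp only [aI, aS, vsub]
    apply v0
    · rw [σK]; push_cast; ring
    · ring
  · intro m
    simp only [bO, bS, vsub, vec_add]
    apply v0
    · rw [E1]; linear_combination (E m) * wOsum
    · ring
  · intro m
    simp only [bI, bS, vsub]
    apply v0
    · rw [EK]; linear_combination (E m) * wIsum
    · ring
  · -- O O
    intro m m' n1 n2 n3
    simp only [aO, bO, ip_vec]
    have hA : ((((σ m / 2 : ℝ) : ℂ)) * conj (((σ m' / 2 : ℝ) : ℂ))).re = σ m * σ m' / 4 := by
      rw [Complex.conj_ofReal, ← Complex.ofReal_mul, Complex.ofReal_re]; ring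
    have hB : (E m * wO * conj (E m' * wO)).re
        = σ m * σ m' * (1 / N) * (e (J * (m' - m))).re := by
      have : E m * wO * conj (E m' * wO) = ((σ m * σ m' * (1 / N) : ℝ) : ℂ) * e (J * (m' - m)) := by
        rw [map_mul]
        calc E m * wO * (conj (E m') * conj wO) = (E m * conj (E m')) * (wO * conj wO) := by ring
          _ = _ := by rw [EE, Complex.mul_conj, wOn]; push_cast; ring
      rw [this, Complex.re_ofReal_mul]
    rw [hA, hB]
    intro heq
    have hNN : N * (1 / N) = 1 := by field_simp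
    have hh : hO * hO = 1 - 1 / N := by rw [← sq]; exact hO2
    rw [hh] at heq
    have hprod : σ m * σ m' = 1 ∨ σ m * σ m' = -1 := by
      rcases σc m with a | a <;> rcases σc m' with b | b <;> rw [a, b] <;> norm_num
    rcases hprod with hp | hp
    · rw [hp] at heq
      have h3 : (1 / N) * ((e (J * (m' - m))).re - 1) = 0 := by
        linear_combination (-1 : ℝ) * heq + q2
      have h4 : (1 / N) ≠ 0 := by positivity
      have h5 := eδ _ (by linarith [(mul_eq_zero.1 h3).resolve_left h4])
      exact n1 (sub_eq_zero.1 h5).symm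
    · rw [hp] at heq
      have h3 : (e (J * (m' - m))).re = (e (J * 1)).re := by
        rw [mul_one]
        have h4 : (1 / N) * ((e (J * (m' - m))).re + 1 - N / 2) = 0 := by
          linear_combination heq - q2 - (1 / 2 : ℝ) * hNN
        have h5 : (1 / N) ≠ 0 := by positivity
        have h6 := (mul_eq_zero.1 h4).resolve_left h5
        linarith
      rcases same_re _ _ h11 h3 with h4 | h4
      · exact n3 (by linear_combination h4)
      · exact n2 (by linear_combination -h4)
  · -- S S
    intro m m' n1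
    simp only [aS, bS, ip_vec]
    have hA : ((((-σ m : ℝ) : ℂ)) * conj (((-σ m' : ℝ) : ℂ))).re = σ m * σ m' := by
      rw [Complex.conj_ofReal, ← Complex.ofReal_mul, Complex.ofReal_re]; ring
    have hB : (-E m * conj (-E m')).re = σ m * σ m' * (e (J * (m' - m))).re := by
      have : -E m * conj (-E m') = ((σ m * σ m' : ℝ) : ℂ) * e (J * (m' - m)) := by
        rw [map_neg, neg_mul_neg, EE]
      rw [this, Complex.re_ofReal_mul]
    rw [hA, hB]
    intro heq
    have h3 : (σ m * σ m') * ((e (J * (m' - m))).re - 1) = 0 := by linear_combination -heq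
    have h4 : σ m * σ m' ≠ 0 := by
      rcases σc m with a | a <;> rcases σc m' with b | b <;> rw [a, b] <;> norm_num
    have h5 := eδ _ (by linarith [(mul_eq_zero.1 h3).resolve_left h4])
    exact n1 (sub_eq_zero.1 h5).symm
  · -- I I
    intro m m' n1 n2 n3
    simp only [aI, bI, ip_vec]
    have hA : ((((-(σ m / 2) : ℝ) : ℂ)) * conj (((-(σ m' / 2) : ℝ) : ℂ))).re
        = σ m * σ m' / 4 := by
      rw [Complex.conj_ofReal, ← Complex.ofReal_mul, Complex.ofReal_re]; ring
    have hB : (E m * wI * conj (E m' * wI)).re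
        = σ m * σ m' * (1 / N') * (e (J * (m' - m))).re := by
      have : E m * wI * conj (E m' * wI)
          = ((σ m * σ m' * (1 / N') : ℝ) : ℂ) * e (J * (m' - m)) := by
        rw [map_mul]
        calc E m * wI * (conj (E m') * conj wI) = (E m * conj (E m')) * (wI * conj wI) := by ring
          _ = _ := by rw [EE, Complex.mul_conj, wIn]; push_cast; ring
      rw [this, Complex.re_ofReal_mul]
    rw [hA, hB]
    intro heq
    have hNN : N' * (1 / N') = 1 := by field_simp
    have hh : -hI * -hI = 1 - 1 / N' := by rw [neg_mul_neg, ← sq]; exact hI2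
    rw [hh] at heq
    have hprod : σ m * σ m' = 1 ∨ σ m * σ m' = -1 := by
      rcases σc m with a | a <;> rcases σc m' with b | b <;> rw [a, b] <;> norm_num
    rcases hprod with hp | hp
    · rw [hp] at heq
      have h3 : (1 / N') * ((e (J * (m' - m))).re - 1) = 0 := by
        linear_combination (-1 : ℝ) * heq + q2
      have h4 : (1 / N') ≠ 0 := by positivity
      have h5 := eδ _ (by linarith [(mul_eq_zero.1 h3).resolve_left h4])
      exact n1 (sub_eq_zero.1 h5).symm
    · rw [hp] at heq
      have h3 : (e (J * (m' - m))).re = (e (J * K)).re := by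
        have h4 : (1 / N') * ((e (J * (m' - m))).re + 1 - N' / 2) = 0 := by
          linear_combination heq - q2 - (1 / 2 : ℝ) * hNN
        have h5 : (1 / N') ≠ 0 := by positivity
        have h6 := (mul_eq_zero.1 h4).resolve_left h5
        linarith
      rcases same_re _ _ hK h3 with h4 | h4
      · exact n3 (by linear_combination h4)
      · exact n2 (by linear_combination -h4)
  · -- O S
    intro m m' n1 n2
    simp only [aO, aS, bO, bS, ip_vec, mul_zero, add_zero]
    have hA : ((((σ m / 2 : ℝ) : ℂ)) * conj (((-σ m' : ℝ) : ℂ))).re = -(σ m * σ m') / 2 := by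
      rw [Complex.conj_ofReal, ← Complex.ofReal_mul, Complex.ofReal_re]; ring
    have hB : (E m * wO * conj (-E m')).re = -(σ m * σ m') * (e (J * (m' - m)) * wO).re := by
      have : E m * wO * conj (-E m')
          = ((-(σ m * σ m') : ℝ) : ℂ) * (e (J * (m' - m)) * wO) := by
        rw [map_neg]
        calc E m * wO * -(conj (E m')) = -(E m * conj (E m')) * wO := by ring
          _ = _ := by rw [EE]; push_cast; ring
      rw [this, Complex.re_ofReal_mul]
    rw [hA, hB]
    intro heq
    have hs0 : σ m * σ m' ≠ 0 := by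
      rcases σc m with a | a <;> rcases σc m' with b | b <;> rw [a, b] <;> norm_num
    have h3 : (σ m * σ m') * ((e (J * (m' - m)) * wO).re - 1 / 2) = 0 := by
      linear_combination heq
    have h4 := (mul_eq_zero.1 h3).resolve_left hs0
    have hw0 : wO ≠ 0 := by
      intro h; rw [h] at wOre; simp at wOre
    rcases two_sol (z := e (J * (m' - m))) (z1 := 1) (z2 := e (J * 1)) (w := wO) (eunit _)
      (by simp) (eunit _) hw0 (eJne 1 h10) (by rw [one_mul, wOre]; linarith)
      (by rw [one_mul, mul_one, wOre, wOre']) with r | r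
    · rw [← e0] at r
      exact n1 (sub_eq_zero.1 (hJ _ (einj r)))
    · have r' := hJ (m' - m - 1) (by linear_combination einj r)
      exact n2 (by linear_combination r')
  · -- I S
    intro m m' n1 n2
    simp only [aI, aS, bI, bS, ip_vec, mul_zero, add_zero]
    have hA : ((((-(σ m / 2) : ℝ) : ℂ)) * conj (((-σ m' : ℝ) : ℂ))).re = (σ m * σ m') / 2 := by
      rw [Complex.conj_ofReal, ← Complex.ofReal_mul, Complex.ofReal_re]; ring
    have hB : (E m * wI * conj (-E m')).re = -(σ m * σ m') * (e (J * (m' - m)) * wI).re := by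
      have : E m * wI * conj (-E m')
          = ((-(σ m * σ m') : ℝ) : ℂ) * (e (J * (m' - m)) * wI) := by
        rw [map_neg]
        calc E m * wI * -(conj (E m')) = -(E m * conj (E m')) * wI := by ring
          _ = _ := by rw [EE]; push_cast; ring
      rw [this, Complex.re_ofReal_mul]
    rw [hA, hB]
    intro heq
    have hs0 : σ m * σ m' ≠ 0 := by
      rcases σc m with a | a <;> rcases σc m' with b | b <;> rw [a, b] <;> norm_num
    have h3 : (σ m * σ m') * ((e (J * (m' - m)) * wI).re + 1 / 2) = 0 := by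
      linear_combination heq
    have h4 := (mul_eq_zero.1 h3).resolve_left hs0
    have hw0 : wI ≠ 0 := by
      intro h; rw [h] at wIre; norm_num at wIre
    rcases two_sol (z := e (J * (m' - m))) (z1 := 1) (z2 := e (J * K)) (w := wI) (eunit _)
      (by simp) (eunit _) hw0 (eJne K hK0) (by rw [one_mul, wIre]; linarith)
      (by rw [one_mul, wIre, wIre']) with r | r
    · rw [← e0] at r
      exact n1 (sub_eq_zero.1 (hJ _ (einj r)))
    · have r' := hJ (m' - m - K) (by linear_combination einj r)
      exact n2 (by linear_combination r')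
  · -- O I
    intro m m'
    simp only [aO, aI, bO, bI, ip_vec]
    have hA : ((((σ m / 2 : ℝ) : ℂ)) * conj (((-(σ m' / 2) : ℝ) : ℂ))).re
        = -(σ m * σ m') / 4 := by
      rw [Complex.conj_ofReal, ← Complex.ofReal_mul, Complex.ofReal_re]; ring
    rw [hA]
    have hle : (E m * wO * conj (E m' * wI)).re ≤ Real.sqrt (1 / (N * N')) := by
      refine (Complex.re_le_norm _).trans ?_
      rw [← Real.sqrt_sq (norm_nonneg _), ← Complex.normSq_eq_norm_sq]
      apply Real.sqrt_le_sqrt
      rw [Complex.normSq_mul, Complex.normSq_conj, Complex.normSq_mul (E m) wO,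
        Complex.normSq_mul (E m') wI, En, En, wOn, wIn]
      apply le_of_eq; field_simp
    have hs1 : σ m * σ m' ≤ 1 := by
      rcases σc m with a | a <;> rcases σc m' with b | b <;> rw [a, b] <;> norm_num
    have key : Real.sqrt (1 / (N * N')) < 1 / 2 + hO * hI :=
      oi_ineq hN0 hN0' (Real.sqrt_nonneg _) (Real.sqrt_nonneg _) hO2 hI2 hF
    intro heq
    have : -q * -q = 3 / 4 := by rw [neg_mul_neg, ← sq]; exact q2
    rw [this] at heq
    linarith

end Pool.Agent.Lib.MP_a226eb_gt
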