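import Pool.Agent.Lib.MP_a226eb_gt.GP2

/-!
# Bipartite generalised Petersen graphs: the trigonometric conditions
-/

namespace Pool.Agent.Lib.MP_a226eb_gt

open Complex

lemma normSq_one_add {n : ℕ} [NeZero n] (j : ℤ) :
    normSq (1 + ZMod.stdAddChar (j : ZMod n) : ℂ) = 4 * Real.cos (Real.pi * j / n) ^ 2 := by
  rw [ZMod.stdAddChar_coe]
  have h1 : (2 * (Real.pi : ℂ) * I * j / n) = ((2 * (Real.pi * j / n) : ℝ) : ℂ) * I := by
    push_cast; ring
  rw [h1, Complex.normSq_apply]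
  simp only [Complex.add_re, Complex.one_re, Complex.exp_ofReal_mul_I_re, Complex.add_im,
    Complex.one_im, Complex.exp_ofReal_mul_I_im]
  rw [Real.cos_two_mul, Real.sin_two_mul]
  have := Real.sin_sq_add_cos_sq (Real.pi * j / n)
  linear_combination (4 * Real.cos (Real.pi * j / n) ^ 2) * this

/-- the conditions in terms of cosines -/
theorem gp_cos (n : ℕ) [NeZero n] (hn : 2 < n) (h2 : 2 ∣ n) (k : ℕ) (hk : Odd k) (hkn : 2 * k < n)
    (j : ℤ) (hj : IsCoprime j (n : ℤ)) (c c' : ℝ) (hc : 1 / 2 < c) (hc' : 1 / 2 < c')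
    (hcj : c ^ 2 = Real.cos (Real.pi * j / n) ^ 2)
    (hck : c' ^ 2 = Real.cos (Real.pi * (j * k : ℤ) / n) ^ 2)
    (hF : c ^ 2 + c' ^ 2 < 3 * (c ^ 2 * c' ^ 2) + c * c') :
    Nonempty (Net (Bool × ZMod n) (gp n (k : ZMod n))) := by
  have hk0 : 0 < k := hk.pos
  refine gp_main n hn h2 (k : ZMod n) ((j : ℤ) : ZMod n) ?_ ?_ ?_ (4 * c ^ 2) (4 * c' ^ 2) ?_ ?_ ?_ ?_
    ?_
  · intro h
    have h3 : ((2 * k : ℕ) : ZMod n) = 0 := by push_cast; linear_combination h
    rw [ZMod.natCast_eq_zero_iff] at h3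
    exact absurd (Nat.le_of_dvd (by omega) h3) (by omega)
  · unfold s2
    have : ZMod.castHom h2 (ZMod 2) (k : ZMod n) = 1 := by
      rw [map_natCast]
      obtain ⟨t, rfl⟩ := hk
      push_cast
      have : (2 : ZMod 2) = 0 := rfl
      rw [this, zero_mul, zero_add]
    rw [this]; simp [e2]
  · intro δ hδ
    obtain ⟨a, b, hab⟩ := hj
    have h3 : ((a : ℤ) : ZMod n) * ((j : ℤ) : ZMod n) = 1 := by
      have := congrArg (fun z : ℤ => (z : ZMod n)) hab
      push_cast at this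
      simpa using this
    calc δ = (((a : ℤ) : ZMod n) * ((j : ℤ) : ZMod n)) * δ := by rw [h3, one_mul]
      _ = ((a : ℤ) : ZMod n) * (((j : ℤ) : ZMod n) * δ) := by ring
      _ = 0 := by rw [hδ, mul_zero]
  · rw [normSq_one_add, hcj]
  · have : ((j : ℤ) : ZMod n) * ((k : ℕ) : ZMod n) = ((j * k : ℤ) : ZMod n) := by push_cast; rfl
    rw [this, normSq_one_add, hck]
  · nlinarith
  · nlinarith
  · have h3 : Real.sqrt (4 * c ^ 2 * (4 * c' ^ 2)) = 4 * (c * c') := by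
      rw [show 4 * c ^ 2 * (4 * c' ^ 2) = (4 * (c * c')) ^ 2 by ring]
      apply Real.sqrt_sq; positivity
    rw [h3]
    linarith

lemma region {c c' : ℝ} (h1 : 53 / 100 ≤ c) (h3 : 7 / 10 ≤ c') (h4 : c' ≤ 1) :
    c ^ 2 + c' ^ 2 < 3 * (c ^ 2 * c' ^ 2) + c * c' := by
  have e1 : 0 ≤ (c - 53 / 100) * ((3 * c' ^ 2 - 1) * (c + 53 / 100) + c') := by
    apply mul_nonneg (by linarith)
    have : 0 ≤ 3 * c' ^ 2 - 1 := by nlinarith
    have : 0 ≤ (3 * c' ^ 2 - 1) * (c + 53 / 100) := mul_nonneg this (by linarith)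
    linarith
  nlinarith [mul_nonneg (sub_nonneg.2 h3) (sub_nonneg.2 h4)]

lemma region1 {c c' : ℝ} (h1 : 7 / 10 ≤ c) (h2 : c ≤ 1) (h3 : 1 / 2 < c') (h4 : c' ≤ 1)
    (h5 : -c ≤ 4 * c' ^ 3 - 3 * c') :
    c ^ 2 + c' ^ 2 < 3 * (c ^ 2 * c' ^ 2) + c * c' := by
  obtain ⟨η, rfl⟩ : ∃ η, c' = 1 / 2 + η := ⟨c' - 1 / 2, by ring⟩
  obtain ⟨τ, rfl⟩ : ∃ τ, c = 1 - τ := ⟨1 - c, by ring⟩
  have hη : 0 < η := by linarith
  have hη2 : η ≤ 1 / 2 := by linarith
  have hτ : 0 ≤ τ := by linarith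
  have hτ2 : τ ≤ 3 / 10 := by linarith
  have h6 : τ ≤ 6 * η ^ 2 + 4 * η ^ 3 := by nlinarith
  have h7 : η ^ 3 ≤ η ^ 2 / 2 := by nlinarith [sq_nonneg η]
  have h8 : η ^ 2 ≤ η / 2 := by nlinarith
  have h9 : τ ^ 2 ≤ 3 / 10 * τ := by nlinarith
  have h10 : τ ^ 2 / 4 ≤ 3 / 10 * η := by linarith
  have h11 : (117 / 100 : ℝ) ≤ 3 * (1 - τ) ^ 2 + (1 - τ) - 1 := by nlinarith
  have h12 : 0 ≤ 3 * (1 - τ) ^ 2 - 1 := by nlinarith
  have h13 : 3 * ((1 - τ) ^ 2 * (1 / 2 + η) ^ 2) + (1 - τ) * (1 / 2 + η)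
      - ((1 - τ) ^ 2 + (1 / 2 + η) ^ 2)
      = -(τ ^ 2 / 4) + η * (3 * (1 - τ) ^ 2 + (1 - τ) - 1) + η ^ 2 * (3 * (1 - τ) ^ 2 - 1) := by
    ring
  have h14 : η * (117 / 100) ≤ η * (3 * (1 - τ) ^ 2 + (1 - τ) - 1) :=
    mul_le_mul_of_nonneg_left h11 hη.le
  have h15 : 0 ≤ η ^ 2 * (3 * (1 - τ) ^ 2 - 1) := mul_nonneg (sq_nonneg η) h12
  linarith

/-- small multipliers: `j = 1` -/
theorem gp_small (n : ℕ) [NeZero n] (h2 : 2 ∣ n) (k : ℕ) (hk : Odd k) (hkn : 3 * k < n) :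
    Nonempty (Net (Bool × ZMod n) (gp n (k : ZMod n))) := by
  have hk0 : 0 < k := hk.pos
  have hn4 : 4 ≤ n := by omega
  have hn4' : (4 : ℝ) ≤ n := by exact_mod_cast hn4
  have hpi := Real.pi_pos
  have hn0 : (0 : ℝ) < n := by linarith
  have hk1 : (1 : ℝ) ≤ k := by exact_mod_cast hk0
  have hkn' : 3 * (k : ℝ) + 1 ≤ n := by exact_mod_cast hkn
  set ψ := Real.pi / n with hψ
  have hψ0 : 0 < ψ := by positivity
  have hψ4 : ψ ≤ Real.pi / 4 := by
    rw [hψ]; gcongr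
  have hnψ : (n : ℝ) * ψ = Real.pi := by rw [hψ]; field_simp
  have h3k : 3 * (k * ψ) ≤ Real.pi - ψ := by nlinarith
  have hkψ : ψ ≤ k * ψ := by nlinarith
  have hcos : 7 / 10 ≤ Real.cos ψ := by
    have h5 : Real.cos (Real.pi / 4) ≤ Real.cos ψ :=
      Real.cos_le_cos_of_nonneg_of_le_pi hψ0.le (by linarith) hψ4
    rw [Real.cos_pi_div_four] at h5
    have h6 : (14 / 10 : ℝ) ≤ Real.sqrt 2 := Real.le_sqrt_of_sq_le (by norm_num)
    linarith
  have hcosk : 1 / 2 < Real.cos (k * ψ) := by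
    rw [← Real.cos_pi_div_three]
    exact Real.cos_lt_cos_of_nonneg_of_le_pi (by linarith) (by linarith) (by linarith)
  have h5 : -Real.cos ψ ≤ 4 * Real.cos (k * ψ) ^ 3 - 3 * Real.cos (k * ψ) := by
    rw [← Real.cos_three_mul, ← Real.cos_pi_sub]
    exact Real.cos_le_cos_of_nonneg_of_le_pi (by linarith) (by linarith) h3k
  refine gp_cos n (by omega) h2 k hk (by omega) 1 isCoprime_one_left (Real.cos ψ)
    (Real.cos (k * ψ)) (by linarith) hcosk ?_ ?_ ?_
  · congr 2; rw [hψ]; push_cast; ring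
  · congr 2; rw [hψ]; push_cast; ring
  · exact region1 hcos (Real.cos_le_one _) hcosk (Real.cos_le_one _) h5

lemma cos_bound {y : ℝ} (h0 : 0 ≤ y) (h1 : y ≤ Real.pi / 14) :
    53 / 100 ≤ Real.cos (Real.pi / 4 + y) := by
  rw [Real.cos_add, Real.cos_pi_div_four, Real.sin_pi_div_four]
  have hpi : Real.pi < 31416 / 10000 := by
    have := Real.pi_lt_d6; linarith
  have h2 : y ≤ 2244 / 10000 := by linarith
  have h3 : 1 - y ^ 2 / 2 ≤ Real.cos y := Real.one_sub_sq_div_two_le_cos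
  have h4 : Real.sin y ≤ y := Real.sin_le h0
  have h5 : (1414 / 1000 : ℝ) ≤ Real.sqrt 2 := Real.le_sqrt_of_sq_le (by norm_num)
  have h6 : (7504 / 10000 : ℝ) ≤ Real.cos y - Real.sin y := by nlinarith
  have h7 : Real.sqrt 2 / 2 * Real.cos y - Real.sqrt 2 / 2 * Real.sin y
      = Real.sqrt 2 / 2 * (Real.cos y - Real.sin y) := by ring
  rw [h7]
  nlinarith

/-- large multipliers, `n` divisible by four -/
theorem gp_large (n : ℕ) [NeZero n] (h4 : 4 ∣ n) (k : ℕ) (hk : Odd k) (hkn : 2 * k < n)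
    (hkn3 : n < 3 * k) (e1 : ¬ (n = 8 ∧ k = 3)) (e2 : ¬ (n = 12 ∧ k = 5))
    (e3 : ¬ (n = 20 ∧ k = 9)) :
    Nonempty (Net (Bool × ZMod n) (gp n (k : ZMod n))) := by
  obtain ⟨q, rfl⟩ := h4
  obtain ⟨r, hr⟩ : ∃ r, 2 * q = k + r := ⟨2 * q - k, by omega⟩
  have hr0 : 0 < r := by omega
  have hr3 : 3 * r < 2 * q := by omega
  have hrodd : Odd r := by
    rcases Nat.even_or_odd r with h | h
    · exfalso
      have : Odd (k + r) := hk.add_even h
      rw [← hr] at this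
      exact (Nat.not_odd_iff_even.2 (even_two_mul q)) this
    · exact h
  -- the sign
  obtain ⟨s, t, hs, hrs⟩ : ∃ s t : ℤ, (s = 1 ∨ s = -1) ∧ (r : ℤ) = 4 * t + s := by
    obtain ⟨a, ha⟩ := hrodd
    rcases Nat.even_or_odd a with ⟨b, hb⟩ | ⟨b, hb⟩
    · exact ⟨1, b, Or.inl rfl, by push_cast [ha, hb]; ring⟩
    · exact ⟨-1, b + 1, Or.inr rfl, by push_cast [ha, hb]; ring⟩
  -- the step
  obtain ⟨u, hu, hu1, hq, hus⟩ : ∃ u : ℤ, (1 ≤ u) ∧ (u ≤ 2) ∧
      (IsCoprime ((q : ℤ) + s * u) (q : ℤ) ∧ Odd ((q : ℤ) + s * u)) ∧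
      (s = 1 → 14 * u ≤ 4 * (q : ℤ)) := by
    have hss : s * s = 1 := by rcases hs with h | h <;> rw [h] <;> norm_num
    have hso : Odd s := by rcases hs with h | h <;> rw [h] <;> decide
    rcases Nat.even_or_odd q with hq | hq
    · refine ⟨1, le_rfl, by norm_num, ⟨⟨s, -s, by linear_combination hss⟩, ?_⟩, ?_⟩
      · rw [mul_one]
        exact ((Int.even_coe_nat q).2 hq).add_odd hso
      · intro h
        obtain ⟨p, hp⟩ := hq
        subst h
        have : q ≠ 2 := by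
          rintro rfl
          exact e1 ⟨rfl, by omega⟩
        omega
    · refine ⟨2, by norm_num, le_rfl, ⟨?_, ?_⟩, ?_⟩
      · obtain ⟨p, hp⟩ := hq
        refine ⟨-s * p, 1 + s * p, ?_⟩
        push_cast [hp]
        linear_combination (-2 * (p : ℤ)) * hss
      · have : Even (s * 2) := by rw [mul_comm]; exact even_two_mul s
        exact ((Int.odd_coe_nat q).2 hq).add_even this
      · intro h
        obtain ⟨p, hp⟩ := hq
        subst h
        have h3 : q ≠ 3 := by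
          rintro rfl
          exact e2 ⟨rfl, by omega⟩
        have h5 : q ≠ 5 := by
          rintro rfl
          exact e3 ⟨rfl, by omega⟩
        omega
  obtain ⟨hcop, w, hw⟩ := hq
  have hn0 : (0 : ℝ) < q := by
    have : 0 < q := by omega
    exact_mod_cast this
  have hpi := Real.pi_pos
  set y : ℝ := Real.pi * u / (4 * q) with hy
  have hu' : (1 : ℝ) ≤ u := by exact_mod_cast hu
  have hu1' : (u : ℝ) ≤ 2 := by exact_mod_cast hu1
  have hy0 : 0 < y := by positivity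
  have hyq : y * (4 * q) = Real.pi * u := by rw [hy]; field_simp
  have hr3' : 3 * (r : ℝ) < 2 * q := by exact_mod_cast hr3
  have hr1 : (1 : ℝ) ≤ r := by exact_mod_cast hr0
  have hyr : y * r ≤ Real.pi / 3 := by
    have h1 : y * (6 * r) ≤ y * (4 * q) := mul_le_mul_of_nonneg_left (by linarith) hy0.le
    nlinarith
  have hyr0 : 0 < y * r := by positivity
  have hyle : y ≤ y * r := by nlinarith
  have hcc : 53 / 100 ≤ Real.cos (Real.pi / 4 + s * y) := by
    rcases hs with h | h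
    · rw [h, Int.cast_one, one_mul]
      apply cos_bound hy0.le
      have h1 := hus h
      have h2 : 14 * (u : ℝ) ≤ 4 * q := by exact_mod_cast h1
      have h3 : y * (14 * u) ≤ Real.pi * u := by
        rw [← hyq]; exact mul_le_mul_of_nonneg_left h2 hy0.le
      have h5 : u * (14 * y - Real.pi) ≤ 0 := by linarith
      have h6 : 14 * y - Real.pi ≤ 0 := by
        by_contra hcon
        push Not at hcon
        have : 0 < u * (14 * y - Real.pi) := by positivity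
        linarith
      linarith
    · rw [h]
      push_cast
      have h1 : Real.cos (Real.pi / 4) ≤ Real.cos (Real.pi / 4 + -1 * y) := by
        rw [← Real.cos_abs (Real.pi / 4 + -1 * y)]
        apply Real.cos_le_cos_of_nonneg_of_le_pi (abs_nonneg _) (by linarith)
        rw [abs_le]; constructor <;> linarith
      rw [Real.cos_pi_div_four] at h1
      have h6 : (14 / 10 : ℝ) ≤ Real.sqrt 2 := Real.le_sqrt_of_sq_le (by norm_num)
      linarith
  have hcs : 7 / 10 ≤ Real.sin (Real.pi / 4 + y * r) := by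
    have h1 : Real.cos (Real.pi / 4) ≤ Real.cos (y * r - Real.pi / 4) := by
      rw [← Real.cos_abs (y * r - Real.pi / 4)]
      apply Real.cos_le_cos_of_nonneg_of_le_pi (abs_nonneg _) (by linarith)
      rw [abs_le]; constructor <;> linarith
    have h2 : Real.cos (y * r - Real.pi / 4) = Real.sin (Real.pi / 4 + y * r) := by
      rw [← Real.sin_pi_div_two_sub, ← Real.sin_pi_sub]
      congr 1; ring
    rw [← h2]
    rw [Real.cos_pi_div_four] at h1
    have h6 : (14 / 10 : ℝ) ≤ Real.sqrt 2 := Real.le_sqrt_of_sq_le (by norm_num)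
    linarith
  refine gp_cos (4 * q) (by omega) (Dvd.dvd.mul_right (by norm_num) q) k hk (by omega)
    ((q : ℤ) + s * u) ?_ _ _ (by linarith) (by linarith) ?_ ?_ (region hcc hcs (Real.sin_le_one _))
  · have h4 : IsCoprime ((q : ℤ) + s * u) 4 := by
      rw [hw]
      exact ⟨2 * w + 1, -(w ^ 2 + w), by ring⟩
    have : ((4 * q : ℕ) : ℤ) = 4 * (q : ℤ) := by push_cast; ring
    rw [this]
    exact h4.mul_right hcop
  · congr 2
    rw [hy]; push_cast; field_simp
  · have h1 : (Real.pi * (((q : ℤ) + s * u) * (k : ℕ) : ℤ) / ((4 * q : ℕ) : ℝ))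
        = Real.pi / 2 - s * (Real.pi / 4 + y * r) + ((w - t : ℤ) : ℝ) * Real.pi := by
      have hk' : (k : ℝ) = 2 * q - r := by
        have : (2 * q : ℝ) = k + r := by exact_mod_cast hr
        linarith
      have hw' : (q : ℝ) + s * u = 2 * w + 1 := by exact_mod_cast hw
      have hrs' : (r : ℝ) = 4 * t + s := by exact_mod_cast hrs
      have hss : (s : ℝ) * s = 1 := by
        rcases hs with h | h <;> rw [h] <;> norm_num
      push_cast
      rw [hk', hy]
      field_simp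
      rw [hrs']
      have hss2 : (s : ℝ) ^ 2 = 1 := by rw [sq]; exact hss
      have hw2 : (w : ℝ) = ((q : ℝ) + s * u - 1) / 2 := by linarith
      rw [hw2]
      ring_nf
    have h3 : ((-1 : ℝ) ^ (w - t)) ^ 2 = 1 := by
      rcases Int.even_or_odd (w - t) with h | h
      · rw [h.neg_one_zpow]; norm_num
      · rw [h.neg_one_zpow]; norm_num
    rw [h1, Real.cos_add_int_mul_pi, mul_pow, h3, one_mul, Real.cos_pi_div_two_sub]
    rcases hs with h | h
    · rw [h]; norm_num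
    · rw [h]; push_cast
      rw [neg_one_mul, Real.sin_neg, neg_sq]

end Pool.Agent.Lib.MP_a226eb_gt
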