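import Pool.Agent.Lib.MP_a226eb_gt.Tot

/-!
# Units modulo an odd number away from zero
-/

namespace Pool.Agent.Lib.MP_a226eb_gt

open Finset

/-- the residue `x` modulo `h` is at distance at least `h / 5` from zero -/
def good {h : ℕ} (x : ZMod h) : Prop := h ≤ 5 * x.val ∧ h ≤ 5 * (h - x.val)

instance {h : ℕ} (x : ZMod h) : Decidable (good x) := by unfold good; infer_instance

lemma card_bad (h : ℕ) [NeZero h] (h1 : 1 < h) :
    ((univ : Finset (ZMod h)ˣ).filter (fun u : (ZMod h)ˣ => ¬ good (u : ZMod h))).card ≤ 2 * T5' h := by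
  have hsub : (univ : Finset (ZMod h)ˣ).filter (fun u : (ZMod h)ˣ => ¬ good (u : ZMod h))
      ⊆ (univ.filter (fun u : (ZMod h)ˣ => 5 * (u : ZMod h).val < h)) ∪
        (univ.filter (fun u : (ZMod h)ˣ => 5 * (h - (u : ZMod h).val) < h)) := by
    intro u hu
    have hu' := (mem_filter.1 hu).2
    simp only [mem_filter, mem_univ, true_and, mem_union]
    by_contra hcon
    push Not at hcon
    exact hu' hcon
  refine (card_le_card hsub).trans ((card_union_le _ _).trans ?_)
  have hpos : ∀ u : (ZMod h)ˣ, 0 < (u : ZMod h).val := by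
    intro u
    have := ZMod.val_coe_unit_coprime u
    rcases Nat.eq_zero_or_pos (u : ZMod h).val with h0 | h0
    · rw [h0] at this; simp at this; omega
    · exact h0
  have a1 : (univ.filter (fun u : (ZMod h)ˣ => 5 * (u : ZMod h).val < h)).card ≤ T5' h := by
    refine card_le_card_of_injOn (fun u => (u : ZMod h).val) ?_ ?_
    · intro u hu
      simp only [coe_filter, mem_univ, true_and, Set.mem_ofPred_eq] at hu
      simp only [coe_filter, mem_Ioc, Set.mem_ofPred_eq]
      exact ⟨⟨hpos u, by omega⟩, ZMod.val_coe_unit_coprime u, hu⟩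
    · intro u _ v _ huv
      exact Units.ext (ZMod.val_injective h huv)
  have a2 : (univ.filter (fun u : (ZMod h)ˣ => 5 * (h - (u : ZMod h).val) < h)).card ≤ T5' h := by
    refine card_le_card_of_injOn (fun u => h - (u : ZMod h).val) ?_ ?_
    · intro u hu
      simp only [coe_filter, mem_univ, true_and, Set.mem_ofPred_eq] at hu
      simp only [coe_filter, mem_Ioc, Set.mem_ofPred_eq]
      have hlt := ZMod.val_lt (u : ZMod h)
      refine ⟨⟨by omega, by omega⟩, ?_, hu⟩
      have := ZMod.val_coe_unit_coprime u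
      exact (Nat.coprime_self_sub_left hlt.le).2 this
    · intro u _ v _ huv
      have hu := ZMod.val_lt (u : ZMod h)
      have hv := ZMod.val_lt (v : ZMod h)
      simp only at huv
      exact Units.ext (ZMod.val_injective h (by omega))
  omega

lemma good15 : ∀ κ : ZMod 15, κ ≠ 0 → κ ≠ 4 → κ ≠ 11 →
    ∃ u : ZMod 15, (u.val.Coprime 15) ∧ good u ∧ good (κ * u) := by
  decide +kernel

lemma good21 : ∀ κ : ZMod 21, κ ≠ 0 → κ ≠ 8 → κ ≠ 13 →
    ∃ u : ZMod 21, (u.val.Coprime 21) ∧ good u ∧ good (κ * u) := by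
  decide +kernel

/-- a unit which is good and whose multiple by `κ` is good -/
theorem exists_good (h : ℕ) [NeZero h] (h1 : 1 < h) (hodd : Odd h) (κ : ZMod h) (hκ : κ ≠ 0)
    (e15 : h = 15 → κ.val ≠ 4 ∧ κ.val ≠ 11) (e21 : h = 21 → κ.val ≠ 8 ∧ κ.val ≠ 13) :
    ∃ u : ZMod h, u.val.Coprime h ∧ good u ∧ good (κ * u) := by
  by_cases h15 : h = 15
  · subst h15
    have := e15 rfl
    exact good15 κ hκ (fun h => this.1 (by rw [h]; rfl)) (fun h => this.2 (by rw [h]; rfl))
  by_cases h21 : h = 21
  · subst h21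
    have := e21 rfl
    exact good21 κ hκ (fun h => this.1 (by rw [h]; rfl)) (fun h => this.2 (by rw [h]; rfl))
  have hκv : 0 < κ.val := by
    rcases Nat.eq_zero_or_pos κ.val with h0 | h0
    · exact absurd ((ZMod.val_eq_zero κ).1 h0) hκ
    · exact h0
  obtain ⟨g, κ0, h', hg, hcop, hκ0, hh'⟩ : ∃ g κ0 h' : ℕ, 0 < g ∧ Nat.Coprime κ0 h' ∧
      κ.val = g * κ0 ∧ h = g * h' := by
    have hgpos : 0 < Nat.gcd κ.val h := Nat.gcd_pos_of_pos_left _ hκv
    obtain ⟨a, b, hab, ha, hb⟩ := Nat.exists_coprime κ.val h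
    exact ⟨Nat.gcd κ.val h, a, b, hgpos, hab, by rw [mul_comm]; exact ha,
      by rw [mul_comm]; exact hb⟩
  have hh'1 : 1 < h' := by
    have hlt := ZMod.val_lt κ
    rw [hκ0] at hlt
    have hκ0' : 0 < κ0 := by
      rcases Nat.eq_zero_or_pos κ0 with h0 | h0
      · rw [h0, mul_zero] at hκ0; omega
      · exact h0
    by_contra hcon
    have h2 : h ≤ g := by
      calc h = g * h' := hh'
        _ ≤ g * 1 := Nat.mul_le_mul_left _ (by omega)
        _ = g := mul_one g
    nlinarith
  have hodd' : Odd h' := by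
    rw [hh'] at hodd
    exact (Nat.odd_mul.1 hodd).2
  have : NeZero h' := ⟨by omega⟩
  have hdvd : h' ∣ h := ⟨g, by rw [hh', mul_comm]⟩
  let π := ZMod.unitsMap hdvd
  let κ' : (ZMod h')ˣ := ZMod.unitOfCoprime κ0 hcop
  -- the value of the product
  have hval : ∀ u : (ZMod h)ˣ, (κ * (u : ZMod h)).val = g * ((κ' * π u : (ZMod h')ˣ) : ZMod h').val := by
    intro u
    have e1 : (((κ' * π u : (ZMod h')ˣ) : ZMod h')) = ((κ0 * (u : ZMod h).val : ℕ) : ZMod h') := by
      rw [Units.val_mul, ZMod.coe_unitOfCoprime, ZMod.unitsMap_val]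
      push_cast
      rw [ZMod.natCast_val]
    rw [e1, ZMod.val_natCast, ZMod.val_mul, hκ0]
    generalize (u : ZMod h).val = x
    rw [mul_assoc, ← Nat.mul_mod_mul_left, ← hh']
  have hgood : ∀ u : (ZMod h)ˣ, good ((κ' * π u : (ZMod h')ˣ) : ZMod h') →
      good (κ * (u : ZMod h)) := by
    intro u hu
    unfold good at hu ⊢
    rw [hval u]
    generalize ((κ' * π u : (ZMod h')ˣ) : ZMod h').val = x at hu ⊢
    obtain ⟨p1, p2⟩ := hu
    rw [hh']
    constructor
    · calc g * h' ≤ g * (5 * x) := Nat.mul_le_mul_left _ p1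
        _ = 5 * (g * x) := by ring
    · calc g * h' ≤ g * (5 * (h' - x)) := Nat.mul_le_mul_left _ p2
        _ = 5 * (g * h' - g * x) := by rw [← Nat.mul_sub]; ring
  -- fibres
  have hsurj : Function.Surjective π := ZMod.unitsMap_surjective hdvd
  obtain ⟨c, hc⟩ : ∃ c, ∀ v : (ZMod h')ˣ,
      ((univ : Finset (ZMod h)ˣ).filter (fun u => π u = v)).card = c := by
    refine ⟨((univ : Finset (ZMod h)ˣ).filter (fun u => π u = 1)).card, fun v => ?_⟩
    exact MonoidHom.card_fiber_eq_of_mem_range π (hsurj v) (hsurj 1)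
  have hcount : ∀ S : Finset (ZMod h')ˣ,
      ((univ : Finset (ZMod h)ˣ).filter (fun u => π u ∈ S)).card = c * S.card := by
    intro S
    rw [card_eq_sum_card_fiberwise (f := fun u => π u) (t := S)
      (by intro u hu; simpa using hu)]
    rw [sum_congr rfl (g := fun _ => c)]
    · rw [sum_const, smul_eq_mul, mul_comm]
    · intro v hv
      rw [← hc v, filter_filter]
      congr 1
      ext u
      simp only [mem_filter, mem_univ, true_and]
      constructor
      · rintro ⟨_, h⟩; exact h
      · intro h; exact ⟨by rw [h]; exact hv, h⟩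
  have htot : Nat.totient h = c * Nat.totient h' := by
    have := hcount univ
    simp only [mem_univ, filter_true, card_univ, ZMod.card_units_eq_totient] at this
    exact this
  have hc0 : 0 < c := by
    rcases Nat.eq_zero_or_pos c with h0 | h0
    · rw [h0, zero_mul] at htot
      have := Nat.totient_pos.2 (by omega : 0 < h)
      omega
    · exact h0
  let S2 : Finset (ZMod h')ˣ := univ.filter (fun v : (ZMod h')ˣ => ¬ good ((κ' * v : (ZMod h')ˣ) : ZMod h'))
  have hS2 : S2.card ≤ 2 * T5' h' := by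
    refine le_trans ?_ (card_bad h' hh'1)
    refine card_le_card_of_injOn (fun v => κ' * v) ?_ ?_
    · intro v hv
      simpa [S2] using hv
    · intro u _ v _ huv
      exact mul_left_cancel huv
  by_contra hcon
  push Not at hcon
  have hcover : (univ : Finset (ZMod h)ˣ) ⊆
      (univ.filter (fun u : (ZMod h)ˣ => ¬ good (u : ZMod h))) ∪
        (univ.filter (fun u : (ZMod h)ˣ => π u ∈ S2)) := by
    intro u _
    simp only [mem_union, mem_filter, mem_univ, true_and, S2]
    by_contra hcc
    push Not at hcc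
    exact hcon (u : ZMod h) (ZMod.val_coe_unit_coprime u) hcc.1 (hgood u hcc.2)
  have hle := (card_le_card hcover).trans (card_union_le _ _)
  rw [card_univ, ZMod.card_units_eq_totient, hcount] at hle
  have hb := card_bad h h1
  have t1 := T5_lt h h1 hodd h15 h21
  have t2 := T5_all h' hh'1 hodd'
  have t3 : c * S2.card ≤ c * (2 * T5' h') := Nat.mul_le_mul_left _ hS2
  have t4 : c * (4 * T5' h') ≤ c * h'.totient := Nat.mul_le_mul_left _ t2
  have t5 : c * (4 * T5' h') = 2 * (c * (2 * T5' h')) := by ring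
  rw [← htot, t5] at t4
  omega

end Pool.Agent.Lib.MP_a226eb_gt
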