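import Pool.Agent.Lib.MP_a226eb_gt.GP3
import Pool.Agent.Lib.MP_a226eb_gt.UnitsGood

/-!
# Bipartite generalised Petersen graphs, `n` twice an odd number
-/

namespace Pool.Agent.Lib.MP_a226eb_gt

lemma region2 {c c' : ℝ} (h1 : 587 / 1000 ≤ c) (h2 : 587 / 1000 ≤ c') :
    c ^ 2 + c' ^ 2 < 3 * (c ^ 2 * c' ^ 2) + c * c' := by
  have e0 : 3 * (c ^ 2 * c' ^ 2) + c * c' - (c ^ 2 + c' ^ 2)
      = (3 * c' ^ 2 - 1) * ((c - 587 / 1000) * (c + 587 / 1000)) + c' * (c - 587 / 1000)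
        + ((3 * (587 / 1000) ^ 2 - 1) * ((c' - 587 / 1000) * (c' + 587 / 1000))
          + 587 / 1000 * (c' - 587 / 1000)) + (587 / 1000) ^ 2 * (3 * (587 / 1000) ^ 2 - 1) := by
    ring
  have e1 : 0 ≤ c - 587 / 1000 := by linarith
  have e2 : 0 ≤ c' - 587 / 1000 := by linarith
  have e3 : 0 ≤ 3 * c' ^ 2 - 1 := by nlinarith
  have e4 : 0 ≤ (3 * c' ^ 2 - 1) * ((c - 587 / 1000) * (c + 587 / 1000)) :=
    mul_nonneg e3 (mul_nonneg e1 (by linarith))
  have e5 : 0 ≤ c' * (c - 587 / 1000) := mul_nonneg (by linarith) e1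
  have e6 : 0 ≤ (c' - 587 / 1000) * (c' + 587 / 1000) := mul_nonneg e2 (by linarith)
  nlinarith

lemma sin_fifth : 587 / 1000 ≤ Real.sin (Real.pi / 5) := by
  have h1 : Real.cos (Real.pi / 5) = (1 + Real.sqrt 5) / 4 := Real.cos_pi_div_five
  have h2 := Real.sin_sq_add_cos_sq (Real.pi / 5)
  have h3 : Real.sqrt 5 ≤ 2237 / 1000 := by
    rw [Real.sqrt_le_left (by norm_num)]; norm_num
  have h4 : 0 ≤ Real.sqrt 5 := Real.sqrt_nonneg 5
  have h5 : Real.sqrt 5 ^ 2 = 5 := Real.sq_sqrt (by norm_num)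
  have h6 : 0 ≤ Real.sin (Real.pi / 5) :=
    Real.sin_nonneg_of_nonneg_of_le_pi (by positivity) (by linarith [Real.pi_pos])
  by_contra hcon
  push Not at hcon
  rw [h1] at h2
  nlinarith

lemma sin_good {h x : ℕ} (hh : 0 < h) (h1 : h ≤ 5 * x) (h2 : h ≤ 5 * (h - x)) :
    587 / 1000 ≤ Real.sin (Real.pi * x / h) := by
  have hpi := Real.pi_pos
  have hh' : (0 : ℝ) < h := by exact_mod_cast hh
  have hx : x ≤ h := by omega
  have e1 : (h : ℝ) ≤ 5 * x := by exact_mod_cast h1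
  have e2 : (h : ℝ) ≤ 5 * (h - x) := by
    have : ((h - x : ℕ) : ℝ) = (h : ℝ) - x := by push_cast [hx]; ring
    rw [← this]; exact_mod_cast h2
  set t : ℝ := Real.pi * x / h with ht
  have hth : t * h = Real.pi * x := by rw [ht]; field_simp
  have t1 : Real.pi / 5 ≤ t := by
    rw [ht, le_div_iff₀ hh']; nlinarith
  have t2 : t ≤ Real.pi - Real.pi / 5 := by
    rw [ht, div_le_iff₀ hh']; nlinarith
  refine sin_fifth.trans ?_
  have h3 : Real.cos (Real.pi / 2 - Real.pi / 5) ≤ Real.cos (|t - Real.pi / 2|) := by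
    apply Real.cos_le_cos_of_nonneg_of_le_pi (abs_nonneg _) (by linarith)
    rw [abs_le]; constructor <;> linarith
  rw [Real.cos_abs, Real.cos_pi_div_two_sub, Real.cos_sub_pi_div_two] at h3
  exact h3

/-- `n` twice an odd number -/
theorem gp_two_mod_four (h : ℕ) (hodd : Odd h) (k : ℕ) [NeZero (2 * h)] (hk : Odd k)
    (hkn : 2 * k < 2 * h) (hkn3 : 2 * h < 3 * k) (e1 : ¬ (h = 15 ∧ k = 11)) :
    Nonempty (Net (Bool × ZMod (2 * h)) (gp (2 * h) (k : ZMod (2 * h)))) := by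
  have hk0 : 0 < k := hk.pos
  have hh1 : 1 < h := by omega
  have : NeZero h := ⟨by omega⟩
  have hκv : ((k : ZMod h)).val = k := by
    rw [ZMod.val_natCast, Nat.mod_eq_of_lt (by omega)]
  obtain ⟨u, hcop, hg1, hg2⟩ := exists_good h hh1 hodd (k : ZMod h)
    (by
      intro h0
      rw [ZMod.natCast_eq_zero_iff] at h0
      exact absurd (Nat.le_of_dvd hk0 h0) (by omega))
    (by
      intro h15
      rw [hκv]
      obtain ⟨w, hw⟩ := hk
      constructor
      · omega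
      · intro h11; exact e1 ⟨h15, h11⟩)
    (by
      intro h21
      rw [hκv]
      omega)
  set x := u.val with hx
  set y := ((k : ZMod h) * u).val with hy
  have hh0 : (0 : ℝ) < h := by exact_mod_cast (by omega : 0 < h)
  obtain ⟨z, hz⟩ : ∃ z : ℕ, k * x = y + h * z := by
    refine ⟨k * x / h, ?_⟩
    rw [hy, ZMod.val_mul, hκv, ← hx]
    exact (Nat.mod_add_div _ _).symm
  have s1 := sin_good (by omega) hg1.1 hg1.2
  have s2 := sin_good (by omega) hg2.1 hg2.2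
  rw [← hx] at s1
  rw [← hy] at s2
  refine gp_cos (2 * h) (by omega) (Dvd.intro h rfl) k hk hkn ((h : ℤ) + 2 * x) ?_ _ _
    (by linarith) (by linarith) ?_ ?_ (region2 s1 s2)
  · have c1 : IsCoprime ((h : ℤ) + 2 * x) 2 := by
      obtain ⟨w, hw⟩ := hodd
      refine ⟨1, -(w + x), ?_⟩
      rw [hw]; push_cast; ring
    have c2 : IsCoprime ((h : ℤ) + 2 * x) (h : ℤ) := by
      have c3 : IsCoprime (2 : ℤ) (h : ℤ) := by
        obtain ⟨w, hw⟩ := hodd
        refine ⟨-w, 1, ?_⟩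
        rw [hw]; push_cast; ring
      have c4 : IsCoprime (x : ℤ) (h : ℤ) := Nat.isCoprime_iff_coprime.2 hcop
      have c5 := c3.mul_left c4
      obtain ⟨a, b, hab⟩ := c5
      exact ⟨a, b - a, by linear_combination hab⟩
    have : ((2 * h : ℕ) : ℤ) = 2 * (h : ℤ) := by push_cast; ring
    rw [this]
    exact c1.mul_right c2
  · have e : (Real.pi * (((h : ℤ) + 2 * x : ℤ) : ℝ) / ((2 * h : ℕ) : ℝ))
        = Real.pi * x / h + Real.pi / 2 := by
      push_cast; field_simp; ring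
    rw [e, Real.cos_add_pi_div_two, neg_sq]
  · obtain ⟨w, hw⟩ := hk
    have hkr : (k : ℝ) = 2 * w + 1 := by rw [hw]; push_cast; ring
    have hzr : (k : ℝ) * x = y + h * z := by exact_mod_cast hz
    have e : (Real.pi * ((((h : ℤ) + 2 * x) * (k : ℕ) : ℤ) : ℝ) / ((2 * h : ℕ) : ℝ))
        = (Real.pi * y / h + Real.pi / 2) + ((w + z : ℤ) : ℝ) * Real.pi := by
      push_cast
      field_simp
      have : ((h : ℝ) + 2 * x) * k = h * k + 2 * (k * x) := by ring
      rw [this, hzr, hkr]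
      ring
    have h3 : ((-1 : ℝ) ^ ((w : ℤ) + z)) ^ 2 = 1 := by
      rcases Int.even_or_odd ((w : ℤ) + z) with h | h
      · rw [h.neg_one_zpow]; norm_num
      · rw [h.neg_one_zpow]; norm_num
    rw [e, Real.cos_add_int_mul_pi, mul_pow, h3, one_mul, Real.cos_add_pi_div_two, neg_sq]

/-- Every bipartite generalised Petersen graph with four exceptions carries a net. -/
theorem gp_bipartite (n k : ℕ) (hn : Even n) (hk : Odd k) (hkn : 2 * k < n)
    (e1 : ¬ (n = 8 ∧ k = 3)) (e2 : ¬ (n = 12 ∧ k = 5)) (e3 : ¬ (n = 20 ∧ k = 9))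
    (e4 : ¬ (n = 30 ∧ k = 11)) :
    Nonempty (Net (Bool × ZMod n) (gp n (k : ZMod n))) := by
  have hk0 : 0 < k := hk.pos
  have : NeZero n := ⟨by omega⟩
  obtain ⟨a, ha⟩ := hn
  obtain ⟨w, hw⟩ := hk
  rcases lt_trichotomy (3 * k) n with h | h | h
  · exact gp_small n ⟨a, by omega⟩ k ⟨w, hw⟩ h
  · omega
  · by_cases h4 : 4 ∣ n
    · exact gp_large n h4 k ⟨w, hw⟩ hkn h e1 e2 e3
    · have haodd : Odd a := by
        rcases Nat.even_or_odd a with ⟨b, hb⟩ | hb
        · exact absurd ⟨b, by omega⟩ h4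
        · exact hb
      have hna : n = 2 * a := by omega
      subst hna
      exact gp_two_mod_four a haodd k ⟨w, hw⟩ hkn h (fun ⟨h1, h2⟩ => e4 ⟨by omega, h2⟩)

end Pool.Agent.Lib.MP_a226eb_gt
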