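import Pool.Agent.Lib.MP_a226eb_gt.Criterion

/-!
# Cyclic Haar graphs
-/

namespace Pool.Agent.Lib.MP_a226eb_gt

open Quaternion Complex ComplexConjugate

/-- the imaginary quaternion with horizontal part `z` and height `h` -/
def vec (z : ℂ) (h : ℝ) : HH := ⟨0, h, z.re, z.im⟩

lemma vec_UI {z : ℂ} {h : ℝ} (hz : normSq z + h ^ 2 = 1) : UI (vec z h) := by
  refine ⟨rfl, ?_⟩
  rw [Complex.normSq_apply] at hz
  simp only [vec]
  linarith

@[simp] lemma vec_re (z : ℂ) (h : ℝ) : (vec z h).re = 0 := rfl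
@[simp] lemma vec_imI (z : ℂ) (h : ℝ) : (vec z h).imI = h := rfl
@[simp] lemma vec_imJ (z : ℂ) (h : ℝ) : (vec z h).imJ = z.re := rfl
@[simp] lemma vec_imK (z : ℂ) (h : ℝ) : (vec z h).imK = z.im := rfl

lemma vec_neg (z : ℂ) (h : ℝ) : -vec z h = vec (-z) (-h) := by
  ext <;> simp

lemma vec_add (z w : ℂ) (h k : ℝ) : vec z h + vec w k = vec (z + w) (h + k) := by
  ext <;> simp

lemma vec_zero : vec 0 0 = 0 := by
  ext <;> simp

lemma ip_vec (z w : ℂ) (h k : ℝ) : ip (vec z h) (vec w k) = (z * conj w).re + h * k := by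
  simp [ip, vec]; ring

/-- two points of the unit circle on a line -/
lemma two_sol {z z1 z2 w : ℂ} (hz : normSq z = 1) (hz1 : normSq z1 = 1) (hz2 : normSq z2 = 1)
    (hw : w ≠ 0) (h12 : z1 ≠ z2) (h1 : (z * w).re = (z1 * w).re) (h2 : (z2 * w).re = (z1 * w).re) :
    z = z1 ∨ z = z2 := by
  have hc : ∀ u : ℂ, normSq u = 1 → u * conj u = 1 := by
    intro u hu; rw [Complex.mul_conj, hu]; simp
  have hq : ∀ u : ℂ, normSq u = 1 → (u * w).re = (z1 * w).re →
      w * u ^ 2 - 2 * ((z1 * w).re : ℂ) * u + conj w = 0 := by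
    intro u hu hr
    have e1 : ((u * w).re : ℂ) = (u * w + conj (u * w)) / 2 := by
      rw [Complex.re_eq_add_conj]
    rw [← hr, e1, map_mul]
    have := hc u hu
    linear_combination (-(conj w)) * this
  have q0 := hq z hz h1
  have q1 := hq z1 hz1 rfl
  have q2 := hq z2 hz2 h2
  by_cases hzz : z = z1
  · left; exact hzz
  right
  have d1 : (z - z1) * (w * (z + z1) - 2 * ((z1 * w).re : ℂ)) = 0 := by
    linear_combination q0 - q1
  have d2 : (z2 - z1) * (w * (z2 + z1) - 2 * ((z1 * w).re : ℂ)) = 0 := by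
    linear_combination q2 - q1
  have e1 := (mul_eq_zero.1 d1).resolve_left (sub_ne_zero.2 hzz)
  have e2 := (mul_eq_zero.1 d2).resolve_left (sub_ne_zero.2 (Ne.symm h12))
  have e3 : w * (z - z2) = 0 := by linear_combination e1 - e2
  exact sub_eq_zero.1 ((mul_eq_zero.1 e3).resolve_left hw)

/-- signs from Heron's formula -/
lemma heron_signs {a b c : ℝ} (ha : 0 ≤ a) (hb : 0 ≤ b) (hc : 0 ≤ c)
    (h : 2 * (a * b + b * c + c * a) - (a ^ 2 + b ^ 2 + c ^ 2) = 0) :
    ∃ x y z : ℝ, x ^ 2 = a ∧ y ^ 2 = b ∧ z ^ 2 = c ∧ x + y + z = 0 := by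
  set p := Real.sqrt a with hp
  set q := Real.sqrt b with hq
  set r := Real.sqrt c with hr
  have h1 : p ^ 2 = a := Real.sq_sqrt ha
  have h2 : q ^ 2 = b := Real.sq_sqrt hb
  have h3 : r ^ 2 = c := Real.sq_sqrt hc
  have h4 : (p + q + r) * ((-p + q + r) * ((p - q + r) * (p + q - r))) = 0 := by
    rw [← h1, ← h2, ← h3] at h
    linear_combination h
  rcases mul_eq_zero.1 h4 with h5 | h5
  · exact ⟨p, q, r, h1, h2, h3, h5⟩
  rcases mul_eq_zero.1 h5 with h6 | h6
  · exact ⟨-p, q, r, by rw [neg_sq]; exact h1, h2, h3, h6⟩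
  rcases mul_eq_zero.1 h6 with h7 | h7
  · exact ⟨p, -q, r, h1, by rw [neg_sq]; exact h2, h3, by linarith⟩
  · exact ⟨p, q, -r, h1, h2, by rw [neg_sq]; exact h3, by linarith⟩

/-- the heights; here `y 0` is the largest -/
lemma exists_mu_aux {a b c : ℝ} (ha : 0 < a) (hab : b ≤ a)
    (hac : c ≤ a) : ∃ μ : ℝ, 0 < μ ∧ μ * a ≤ 1 ∧ μ * b ≤ 1 ∧ μ * c ≤ 1 ∧
      2 * ((1 - μ * a) * (1 - μ * b) + (1 - μ * b) * (1 - μ * c) + (1 - μ * c) * (1 - μ * a))
        - ((1 - μ * a) ^ 2 + (1 - μ * b) ^ 2 + (1 - μ * c) ^ 2) = 0 := by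
  let f : ℝ → ℝ := fun μ =>
    2 * ((1 - μ * a) * (1 - μ * b) + (1 - μ * b) * (1 - μ * c) + (1 - μ * c) * (1 - μ * a))
        - ((1 - μ * a) ^ 2 + (1 - μ * b) ^ 2 + (1 - μ * c) ^ 2)
  have hf : Continuous f := by fun_prop
  have h0 : f 0 = 3 := by simp only [f]; norm_num
  have h1 : f (1 / a) ≤ 0 := by
    have e : 1 / a * a = 1 := by field_simp
    have : f (1 / a) = -((1 - 1 / a * b) - (1 - 1 / a * c)) ^ 2 := by
      simp only [f]; rw [e]; ring
    rw [this]
    nlinarith [sq_nonneg ((1 - 1 / a * b) - (1 - 1 / a * c))]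
  obtain ⟨μ, hμ, hfμ⟩ := intermediate_value_Icc' (by positivity : (0 : ℝ) ≤ 1 / a) hf.continuousOn
    (show (0 : ℝ) ∈ Set.Icc (f (1 / a)) (f 0) from ⟨h1, by rw [h0]; norm_num⟩)
  have hμ0 : 0 < μ := by
    rcases hμ.1.lt_or_eq with h | h
    · exact h
    · rw [← h, h0] at hfμ; norm_num at hfμ
  have hμa : μ * a ≤ 1 := by
    have := mul_le_mul_of_nonneg_right hμ.2 ha.le
    rwa [one_div_mul_cancel ha.ne'] at this
  exact ⟨μ, hμ0, hμa, le_trans (mul_le_mul_of_nonneg_left hab hμ0.le) hμa,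
    le_trans (mul_le_mul_of_nonneg_left hac hμ0.le) hμa, hfμ⟩

lemma exists_mu {a b c : ℝ} (ha : 0 < a) (hb : 0 < b) (hc : 0 < c) : ∃ μ x y z : ℝ, 0 < μ ∧
    μ * a + x ^ 2 = 1 ∧ μ * b + y ^ 2 = 1 ∧ μ * c + z ^ 2 = 1 ∧ x + y + z = 0 := by
  have key : ∃ μ : ℝ, 0 < μ ∧ μ * a ≤ 1 ∧ μ * b ≤ 1 ∧ μ * c ≤ 1 ∧
      2 * ((1 - μ * a) * (1 - μ * b) + (1 - μ * b) * (1 - μ * c) + (1 - μ * c) * (1 - μ * a))
        - ((1 - μ * a) ^ 2 + (1 - μ * b) ^ 2 + (1 - μ * c) ^ 2) = 0 := by
    by_cases h1 : b ≤ a ∧ c ≤ a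
    · exact exists_mu_aux ha h1.1 h1.2
    by_cases h2 : a ≤ b ∧ c ≤ b
    · obtain ⟨μ, k1, k2, k3, k4, k5⟩ := exists_mu_aux hb h2.1 h2.2
      exact ⟨μ, k1, k3, k2, k4, by linear_combination k5⟩
    have h3 : a ≤ c ∧ b ≤ c := by
      by_contra hcon
      rcases le_total a b with p | p <;> rcases le_total b c with q | q <;>
        rcases le_total a c with r | r
      · exact hcon ⟨r, q⟩
      · exact hcon ⟨by linarith, q⟩
      · exact h2 ⟨p, q⟩
      · exact h2 ⟨p, q⟩
      · exact hcon ⟨r, q⟩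
      · exact h1 ⟨p, r⟩
      · exact hcon ⟨r, by linarith⟩
      · exact h1 ⟨p, r⟩
    obtain ⟨μ, k1, k2, k3, k4, k5⟩ := exists_mu_aux hc h3.1 h3.2
    exact ⟨μ, k1, k3, k4, k2, by linear_combination k5⟩
  obtain ⟨μ, k1, k2, k3, k4, k5⟩ := key
  obtain ⟨x, y, z, h1, h2, h3, h4⟩ := heron_signs (by linarith : 0 ≤ 1 - μ * a)
    (by linarith : 0 ≤ 1 - μ * b) (by linarith : 0 ≤ 1 - μ * c) k5
  exact ⟨μ, x, y, z, k1, by linarith, by linarith, by linarith, h4⟩

/-- The pairing of the cyclic Haar graph `H(n; s 0, s 1, s 2)`: the vertices are `u_m = (false, m)`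
and `v_m = (true, m)` for `m` in `ZMod n`, and `u_m` is joined to `v_(m + s t)` for `t = 0, 1, 2`. -/
def haar (n : ℕ) (s : Fin 3 → ZMod n) (d : (Bool × ZMod n) × Fin 3) : (Bool × ZMod n) × Fin 3 :=
  match d with
  | ((false, m), t) => ((true, m + s t), t)
  | ((true, m), t) => ((false, m - s t), t)

lemma haar_pairing (n : ℕ) (s : Fin 3 → ZMod n) : IsPairing (haar n s) := by
  rintro ⟨⟨b, m⟩, t⟩
  cases b
  · constructor
    · simp [haar]
    · simp [haar]
  · constructor
    · simp [haar]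
    · simp [haar]

/-- a bipartite description of flows: only the darts at the first class are needed -/
lemma haar_net (n : ℕ) (hn : 0 < n) (s : Fin 3 → ZMod n) (hs : Function.Injective s)
    (a b : ZMod n → Fin 3 → HH) (ha : ∀ m t, UI (a m t)) (hb : ∀ m t, UI (b m t))
    (ha0 : ∀ m, a m 0 + a m 1 + a m 2 = 0) (hb0 : ∀ m, b m 0 + b m 1 + b m 2 = 0)
    (ha1 : ∀ m, a (m - s 0) 0 + a (m - s 1) 1 + a (m - s 2) 2 = 0)
    (hb1 : ∀ m, b (m - s 0) 0 + b (m - s 1) 1 + b (m - s 2) 2 = 0)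
    (hN : ∀ m t m' t', m ≠ m' → m + s t ≠ m' + s t' → ip (a m t) (a m' t') ≠ ip (b m t) (b m' t')) :
    Nonempty (Net (Bool × ZMod n) (haar n s)) := by
  have : NeZero n := ⟨hn.ne'⟩
  let F : TwoFlows (Bool × ZMod n) (haar n s) :=
    { A := fun d => match d with
        | ((false, m), t) => a m t
        | ((true, m), t) => -a (m - s t) t
      B := fun d => match d with
        | ((false, m), t) => b m t
        | ((true, m), t) => -b (m - s t) t
      hA := by
        rintro ⟨⟨c, m⟩, t⟩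
        cases c
        · exact ha m t
        · exact (ha _ t).neg
      hB := by
        rintro ⟨⟨c, m⟩, t⟩
        cases c
        · exact hb m t
        · exact (hb _ t).neg
      mA := by
        rintro ⟨⟨c, m⟩, t⟩
        cases c
        · simp [haar]
        · simp [haar]
      mB := by
        rintro ⟨⟨c, m⟩, t⟩
        cases c
        · simp [haar]
        · simp [haar]
      sA := by
        rintro ⟨c, m⟩
        cases c
        · exact ha0 m
        · show -a (m - s 0) 0 + -a (m - s 1) 1 + -a (m - s 2) 2 = 0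
          rw [← neg_add, ← neg_add, ha1, neg_zero]
      sB := by
        rintro ⟨c, m⟩
        cases c
        · exact hb0 m
        · show -b (m - s 0) 0 + -b (m - s 1) 1 + -b (m - s 2) 2 = 0
          rw [← neg_add, ← neg_add, hb1, neg_zero] }
  refine criterion (haar_pairing n s) ?_ ?_ F ?_
  · rintro ⟨⟨c, m⟩, t⟩
    cases c <;> simp [haar]
  · rintro ⟨c, m⟩ i j h
    cases c
    · simp only [haar, Prod.mk.injEq, true_and, add_right_inj] at h
      exact hs h
    · simp only [haar, Prod.mk.injEq, true_and, sub_right_inj] at h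
      exact hs h
  · rintro ⟨⟨c, m⟩, t⟩ ⟨⟨c', m'⟩, t'⟩ ⟨h1, h2, h3, h4⟩
    cases c <;> cases c'
    · simp only [haar, ne_eq, Prod.mk.injEq, true_and] at h1 h4
      exact hN m t m' t' h1 h4
    · simp only [haar, ne_eq, Prod.mk.injEq, true_and] at h2 h3
      show ip (a m t) (-a (m' - s t') t') ≠ ip (b m t) (-b (m' - s t') t')
      rw [ip_neg_right, ip_neg_right]
      intro h
      exact hN m t (m' - s t') t' h2 (by rw [sub_add_cancel]; exact h3) (neg_injective h)
    · simp only [haar, ne_eq, Prod.mk.injEq, true_and] at h2 h3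
      show ip (-a (m - s t) t) (a m' t') ≠ ip (-b (m - s t) t) (b m' t')
      rw [ip_neg_left, ip_neg_left]
      intro h
      exact hN (m - s t) t m' t' h3 (by rw [sub_add_cancel]; exact h2) (neg_injective h)
    · simp only [haar, ne_eq, Prod.mk.injEq, true_and] at h1 h4
      show ip (-a (m - s t) t) (-a (m' - s t') t') ≠ ip (-b (m - s t) t) (-b (m' - s t') t')
      rw [ip_neg_left, ip_neg_left, ip_neg_right, ip_neg_right, neg_neg, neg_neg]
      exact hN (m - s t) t (m' - s t') t' h4 (by rw [sub_add_cancel, sub_add_cancel]; exact h1)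

lemma unit_of_stdAddChar {n : ℕ} [NeZero n] (m : ZMod n) :
    normSq (ZMod.stdAddChar m : ℂ) = 1 := by
  rw [ZMod.stdAddChar_apply, Circle.normSq_coe]

lemma stdAddChar_conj {n : ℕ} [NeZero n] (m : ZMod n) :
    conj (ZMod.stdAddChar m : ℂ) = ZMod.stdAddChar (-m) := by
  have h1 : (ZMod.stdAddChar m : ℂ) * conj (ZMod.stdAddChar m : ℂ) = 1 := by
    rw [Complex.mul_conj, unit_of_stdAddChar]; simp
  have h2 : (ZMod.stdAddChar m : ℂ) * ZMod.stdAddChar (-m) = 1 := by
    rw [← AddChar.map_add_eq_mul, add_neg_cancel, AddChar.map_zero_eq_one]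
  have h3 : (ZMod.stdAddChar m : ℂ) ≠ 0 := by
    intro h; rw [h, zero_mul] at h1; exact zero_ne_one h1
  exact mul_left_cancel₀ h3 (h1.trans h2.symm)

lemma eq_one_of_re {u : ℂ} (hu : normSq u = 1) (h : u.re = 1) : u = 1 := by
  rw [Complex.normSq_apply, h] at hu
  have : u.im = 0 := by nlinarith
  apply Complex.ext <;> simp [h, this]

/-- the three cube roots of unity -/
noncomputable def om (t : Fin 3) : ℂ :=
  ![1, ⟨-1 / 2, Real.sqrt 3 / 2⟩, ⟨-1 / 2, -(Real.sqrt 3 / 2)⟩] t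

lemma om_normSq (t : Fin 3) : normSq (om t) = 1 := by
  have h3 : Real.sqrt 3 * Real.sqrt 3 = 3 := Real.mul_self_sqrt (by norm_num)
  fin_cases t
  · simp [om]
  · simp [om, Complex.normSq_apply]; linarith
  · simp [om, Complex.normSq_apply]; linarith

lemma om_sum : om 0 + om 1 + om 2 = 0 := by
  apply Complex.ext <;> simp [om]
  norm_num

/-- every cyclic Haar graph carries a net -/
theorem haar_has_net (n : ℕ) (hn : 0 < n) (s : Fin 3 → ZMod n) (hs : Function.Injective s) :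
    Nonempty (Net (Bool × ZMod n) (haar n s)) := by
  have : NeZero n := ⟨hn.ne'⟩
  let e : ZMod n → ℂ := fun m => ZMod.stdAddChar m
  have eadd : ∀ a b, e (a + b) = e a * e b := fun a b => AddChar.map_add_eq_mul _ a b
  have econj : ∀ a, conj (e a) = e (-a) := fun a => stdAddChar_conj a
  have e0 : e 0 = 1 := AddChar.map_zero_eq_one _
  have eunit : ∀ a, normSq (e a) = 1 := fun a => unit_of_stdAddChar a
  have einj : Function.Injective e := ZMod.injective_stdAddChar
  let c : Fin 3 → ℂ := fun t => e (-s t)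
  have cinj : ∀ i j, i ≠ j → 0 < normSq (c i - c j) := by
    intro i j hij
    rw [Complex.normSq_pos, sub_ne_zero]
    intro h
    exact hij (hs (neg_injective (einj h)))
  obtain ⟨μ, x, y, z, hμ, hx, hy, hz, hxyz⟩ := exists_mu (cinj 2 1 (by decide))
    (cinj 0 2 (by decide)) (cinj 1 0 (by decide))
  set l : ℝ := Real.sqrt μ with hl
  have hl2 : l * l = μ := Real.mul_self_sqrt hμ.le
  have hl0 : 0 < l := Real.sqrt_pos.2 hμ
  let p : Fin 3 → ℂ := ![l * (c 2 - c 1), l * (c 0 - c 2), l * (c 1 - c 0)]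
  let h : Fin 3 → ℝ := ![x, y, z]
  have hph : ∀ t, normSq (p t) + h t ^ 2 = 1 := by
    intro t
    fin_cases t
    · show normSq (l * (c 2 - c 1)) + x ^ 2 = 1
      rw [map_mul, Complex.normSq_ofReal, hl2]; exact hx
    · show normSq (l * (c 0 - c 2)) + y ^ 2 = 1
      rw [map_mul, Complex.normSq_ofReal, hl2]; exact hy
    · show normSq (l * (c 1 - c 0)) + z ^ 2 = 1
      rw [map_mul, Complex.normSq_ofReal, hl2]; exact hz
  have hp0 : ∀ t, p t ≠ 0 := by
    have hl' : (l : ℂ) ≠ 0 := by exact_mod_cast hl0.ne'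
    intro t
    fin_cases t
    · exact mul_ne_zero hl' (by rw [← Complex.normSq_pos]; exact cinj 2 1 (by decide))
    · exact mul_ne_zero hl' (by rw [← Complex.normSq_pos]; exact cinj 0 2 (by decide))
    · exact mul_ne_zero hl' (by rw [← Complex.normSq_pos]; exact cinj 1 0 (by decide))
  have hpsum : p 0 + p 1 + p 2 = 0 := by
    show l * (c 2 - c 1) + l * (c 0 - c 2) + l * (c 1 - c 0) = 0
    ring
  have hcpsum : c 0 * p 0 + c 1 * p 1 + c 2 * p 2 = 0 := by
    show c 0 * (l * (c 2 - c 1)) + c 1 * (l * (c 0 - c 2)) + c 2 * (l * (c 1 - c 0)) = 0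
    ring
  have hhsum : h 0 + h 1 + h 2 = 0 := hxyz
  let b : ZMod n → Fin 3 → HH := fun m t => vec (e m * p t) (h t)
  have hb : ∀ m t, UI (b m t) := by
    intro m t
    apply vec_UI
    rw [map_mul, eunit, one_mul, hph]
  have hb0 : ∀ m, b m 0 + b m 1 + b m 2 = 0 := by
    intro m
    simp only [b, vec_add]
    rw [hhsum, ← mul_add, ← mul_add, hpsum, mul_zero, vec_zero]
  have hb1 : ∀ m, b (m - s 0) 0 + b (m - s 1) 1 + b (m - s 2) 2 = 0 := by
    intro m
    simp only [b, vec_add]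
    have : e (m - s 0) * p 0 + e (m - s 1) * p 1 + e (m - s 2) * p 2
        = e m * (c 0 * p 0 + c 1 * p 1 + c 2 * p 2) := by
      simp only [sub_eq_add_neg, eadd, c]; ring
    rw [hhsum, this, hcpsum, mul_zero, vec_zero]
  let a : ZMod n → Fin 3 → HH := fun _ t => vec (om t) 0
  have ha : ∀ m t, UI (a m t) := by
    intro m t
    apply vec_UI
    rw [om_normSq]; norm_num
  have ha0 : ∀ m, a m 0 + a m 1 + a m 2 = 0 := by
    intro m
    simp only [a, vec_add]
    rw [om_sum, add_zero, add_zero, vec_zero]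
  have ha1 : ∀ m, a (m - s 0) 0 + a (m - s 1) 1 + a (m - s 2) 2 = 0 := fun m => ha0 m
  have hip : ∀ m t m' t', ip (b m t) (b m' t')
      = (e (m - m') * (p t * conj (p t'))).re + h t * h t' := by
    intro m t m' t'
    simp only [b, ip_vec, map_mul, econj]
    rw [sub_eq_add_neg, eadd]
    congr 2
    ring
  refine haar_net n hn s hs a b ha hb ha0 hb0 ha1 hb1 ?_
  intro m t m' t' h1 h2 heq
  rw [hip] at heq
  by_cases htt : t = t'
  · subst htt
    have e1 : ip (a m t) (a m' t) = 1 := (ha m t).ip_self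
    rw [e1, Complex.mul_conj, mul_comm, Complex.re_ofReal_mul] at heq
    have e2 := hph t
    have e3 : 0 < normSq (p t) := Complex.normSq_pos.2 (hp0 t)
    have e4 : (e (m - m')).re = 1 := by
      have : normSq (p t) * ((e (m - m')).re - 1) = 0 := by linear_combination -heq + (-1 : ℝ) * e2
      rcases mul_eq_zero.1 this with h | h
      · exact absurd h e3.ne'
      · linarith
    have e5 := eq_one_of_re (eunit _) e4
    rw [← e0] at e5
    exact h1 (sub_eq_zero.1 (einj e5))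
  · have q1 : ip (a m t) (a m' t') = -1 / 2 := ip_half' (a := a m) (ha m) (ha0 m) htt
    rw [q1] at heq
    have q2 := ip_half' (a := b 0) (hb 0) (hb0 0) htt
    have q3 := ip_half' (a := fun i => b (0 - s i) i) (fun i => hb _ i) (hb1 0) htt
    rw [hip] at q2 q3
    rw [sub_self, e0] at q2
    have h12 : (1 : ℂ) ≠ e (0 - s t - (0 - s t')) := by
      intro h
      rw [← e0] at h
      have h' : (0 : ZMod n) = 0 - s t - (0 - s t') := einj h
      exact htt (hs (by linear_combination h'))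
    rcases two_sol (z := e (m - m')) (z1 := 1) (z2 := e (0 - s t - (0 - s t')))
      (w := p t * conj (p t')) (eunit _) (by simp) (eunit _)
      (mul_ne_zero (hp0 t) (by simpa using hp0 t')) h12 (by linarith) (by linarith) with r | r
    · rw [← e0] at r
      exact h1 (sub_eq_zero.1 (einj r))
    · have := einj r
      apply h2
      linear_combination this

end Pool.Agent.Lib.MP_a226eb_gt
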