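import Pool.Agent.Lib.MP_a226eb_gt.Haar

/-!
# Necklaces of digons
-/

namespace Pool.Agent.Lib.MP_a226eb_gt

open Complex ComplexConjugate

/-- The pairing of the necklace of `r` digons: the vertices are `c_m = (false, m)` and
`d_m = (true, m)` for `m` in `ZMod r`; two edges join `c_m` and `d_m`, and one edge joins `d_m` and
`c_(m+1)`. -/
def necklace (r : ℕ) (d : (Bool × ZMod r) × Fin 3) : (Bool × ZMod r) × Fin 3 :=
  match d with
  | ((b, m), 0) => ((!b, m), 0)
  | ((b, m), 1) => ((!b, m), 1)
  | ((false, m), 2) => ((true, m - 1), 2)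
  | ((true, m), 2) => ((false, m + 1), 2)

lemma necklace_pairing (r : ℕ) : IsPairing (necklace r) := by
  rintro ⟨⟨b, m⟩, t⟩
  cases b <;> fin_cases t <;> simp [necklace]

section Obstruction

variable {r : ℕ} (N : Net (Bool × ZMod r) (necklace r))

/-- two arcs from a point in directions at 120 degrees with a common end point different from it -/
lemma digon_aux {c d v0 v1 : E4} {a b : ℝ} (hc : ‖c‖ = 1) (h0 : ‖v0‖ = 1) (h1 : ‖v1‖ = 1)
    (hc0 : inner ℝ c v0 = 0) (hc1 : inner ℝ c v1 = 0) (h01 : inner ℝ v0 v1 = -1 / 2)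
    (ha : arc c v0 a = d) (hb : arc c v1 b = d) (hcd : d ≠ c) :
    Real.cos a = -1 ∧ Real.sin a = 0 ∧ d = -c := by
  have hcc : inner ℝ c c = (1 : ℝ) := by rw [real_inner_self_eq_norm_sq, hc]; norm_num
  have h00 : inner ℝ v0 v0 = (1 : ℝ) := by rw [real_inner_self_eq_norm_sq, h0]; norm_num
  have h11 : inner ℝ v1 v1 = (1 : ℝ) := by rw [real_inner_self_eq_norm_sq, h1]; norm_num
  have h0c : inner ℝ v0 c = (0 : ℝ) := by rw [real_inner_comm]; exact hc0
  have h1c : inner ℝ v1 c = (0 : ℝ) := by rw [real_inner_comm]; exact hc1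
  have h10 : inner ℝ v1 v0 = (-1 / 2 : ℝ) := by rw [real_inner_comm]; exact h01
  have e : arc c v0 a = arc c v1 b := ha.trans hb.symm
  unfold arc at e
  have e1 := congrArg (fun x => inner ℝ x c) e
  have e2 := congrArg (fun x => inner ℝ x v0) e
  have e3 := congrArg (fun x => inner ℝ x v1) e
  simp only [inner_add_left, inner_smul_left, RCLike.conj_to_real, hcc, h00, h11, h0c, h1c, h10,
    hc0, hc1, h01] at e1 e2 e3
  have hs : Real.sin a = 0 := by linarith
  have hcos : Real.cos a ^ 2 = 1 := by
    have := Real.sin_sq_add_cos_sq a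
    rw [hs] at this; linarith
  have hca : Real.cos a = -1 := by
    rcases sq_eq_one_iff_of_real hcos with h | h
    · exfalso
      apply hcd
      rw [← ha, arc, hs, h]; simp
    · exact h
  refine ⟨hca, hs, ?_⟩
  rw [← ha, arc, hs, hca]; simp

lemma inner_half {a b c : E4} (ha : ‖a‖ = 1) (hb : ‖b‖ = 1) (hc : ‖c‖ = 1) (h : a + b + c = 0) :
    inner ℝ a b = (-1 / 2 : ℝ) := by
  have e : c = -(a + b) := by
    rw [eq_neg_iff_add_eq_zero, add_comm]; exact h
  have h1 : inner ℝ c c = (1 : ℝ) := by rw [real_inner_self_eq_norm_sq, hc]; norm_num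
  have h2 : inner ℝ a a = (1 : ℝ) := by rw [real_inner_self_eq_norm_sq, ha]; norm_num
  have h3 : inner ℝ b b = (1 : ℝ) := by rw [real_inner_self_eq_norm_sq, hb]; norm_num
  rw [e, inner_neg_neg, inner_add_left, inner_add_right, inner_add_right, h2, h3,
    real_inner_comm a b] at h1
  linarith

lemma arc_zero (x u : E4) : arc x u 0 = x := by simp [arc]

lemma digon_pair (m : ZMod r) :
    N.pos (true, m) = -N.pos (false, m) ∧ N.dir ((true, m), 2) = N.dir ((false, m), 2) := by
  have hv01 := inner_half (N.dir_norm ((false, m), 0)) (N.dir_norm ((false, m), 1))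
    (N.dir_norm ((false, m), 2)) (N.balanced (false, m))
  have rev0 := N.rev ((false, m), 0)
  have rev1 := N.rev ((false, m), 1)
  simp only [necklace, Bool.not_false] at rev0 rev1
  have a0 : arc (N.pos (false, m)) (N.dir ((false, m), 0)) (N.len ((false, m), 0))
      = N.pos (true, m) := by
    rw [rev0, sub_self, arc_zero]
  have a1 : arc (N.pos (false, m)) (N.dir ((false, m), 1)) (N.len ((false, m), 1))
      = N.pos (true, m) := by
    rw [rev1, sub_self, arc_zero]
  have hne : N.pos (true, m) ≠ N.pos (false, m) := by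
    intro h
    have := N.pos_inj h
    simp at this
  obtain ⟨c0, s0, hd⟩ := digon_aux (N.pos_norm _) (N.dir_norm _) (N.dir_norm _)
    (N.orth ((false, m), 0)) (N.orth ((false, m), 1)) hv01 a0 a1 hne
  obtain ⟨c1, s1, _⟩ := digon_aux (N.pos_norm _) (N.dir_norm _) (N.dir_norm _)
    (N.orth ((false, m), 1)) (N.orth ((false, m), 0)) (by rw [real_inner_comm]; exact hv01)
    a1 a0 hne
  have v0 : N.dir ((true, m), 0) = N.dir ((false, m), 0) := by
    have := rev0 (Real.pi / 2)
    simp only [arc, Real.cos_sub, Real.sin_sub, Real.cos_pi_div_two, Real.sin_pi_div_two, c0, s0]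
      at this
    simpa using this.symm
  have v1 : N.dir ((true, m), 1) = N.dir ((false, m), 1) := by
    have := rev1 (Real.pi / 2)
    simp only [arc, Real.cos_sub, Real.sin_sub, Real.cos_pi_div_two, Real.sin_pi_div_two, c1, s1]
      at this
    simpa using this.symm
  refine ⟨hd, ?_⟩
  have b1 := N.balanced (false, m)
  have b2 := N.balanced (true, m)
  rw [v0, v1] at b2
  exact add_left_cancel (b2.trans b1.symm)

include N in
/-- an even necklace carries no net -/
theorem necklace_odd (hr : 0 < r) : Odd r := by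
  by_contra hodd
  have heven : Even r := Nat.not_odd_iff_even.1 hodd
  have : NeZero r := ⟨hr.ne'⟩
  set c : ZMod r → E4 := fun m => N.pos (false, m) with hc
  set w : ZMod r → E4 := fun m => N.dir ((false, m), 2) with hw
  set l : ZMod r → ℝ := fun m => N.len ((true, m), 2) with hl
  have hlpos : ∀ m, 0 < l m := fun m => N.len_pos _
  have hrev : ∀ m t, arc (-c m) (w m) t = arc (c (m + 1)) (w (m + 1)) (l m - t) := by
    intro m t
    have h1 := N.rev ((true, m), 2) t
    simp only [necklace] at h1
    rw [(digon_pair N m).1, (digon_pair N m).2] at h1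
    exact h1
  have hcs : ∀ m, c (m + 1) = -(Real.cos (l m) • c m) + Real.sin (l m) • w m := by
    intro m
    have := hrev m (l m)
    rw [sub_self, arc_zero] at this
    rw [← this, arc]; module
  have hws : ∀ m, w (m + 1) = -(Real.sin (l m) • c m) - Real.cos (l m) • w m := by
    intro m
    have := hrev m (l m - Real.pi / 2)
    rw [sub_sub_cancel] at this
    simp only [arc, Real.cos_sub, Real.sin_sub, Real.cos_pi_div_two, Real.sin_pi_div_two] at this
    simp only [mul_zero, mul_one, zero_add, zero_smul, one_smul, zero_sub] at this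
    rw [← this]
    module
  let S : ℕ → ℝ := fun k => ∑ i ∈ Finset.range k, l (i : ZMod r)
  have hS0 : S 0 = 0 := by simp [S]
  have hSs : ∀ k, S (k + 1) = S k + l (k : ZMod r) := fun k => Finset.sum_range_succ _ _
  have key : ∀ k : ℕ, c (k : ZMod r) = (-1 : ℝ) ^ k • (Real.cos (S k) • c 0 - Real.sin (S k) • w 0)
      ∧ w (k : ZMod r) = (-1 : ℝ) ^ k • (Real.sin (S k) • c 0 + Real.cos (S k) • w 0) := by
    intro k
    induction k with
    | zero => simp [hS0]
    | succ k ih =>
      have e1 : ((k + 1 : ℕ) : ZMod r) = (k : ZMod r) + 1 := by push_cast; rfl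
      rw [e1, hcs, hws, ih.1, ih.2, hSs, Real.cos_add, Real.sin_add, pow_succ]
      constructor <;> module
  have hcc : inner ℝ (c 0) (c 0) = (1 : ℝ) := by
    rw [real_inner_self_eq_norm_sq, N.pos_norm]; norm_num
  have hwc : inner ℝ (w 0) (c 0) = (0 : ℝ) := by
    rw [real_inner_comm]; exact N.orth ((false, 0), 2)
  -- closing up
  have hclose := (key r).1
  rw [ZMod.natCast_self, heven.neg_one_pow, one_smul] at hclose
  have hcos : Real.cos (S r) = 1 := by
    have := congrArg (fun x => inner ℝ x (c 0)) hclose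
    simp only [inner_sub_left, inner_smul_left, RCLike.conj_to_real, hcc, hwc] at this
    linarith
  have hSmono : ∀ k, S k < S (k + 1) := by
    intro k; rw [hSs]; linarith [hlpos (k : ZMod r)]
  have hSpos : 0 < S r := by
    have : StrictMono S := strictMono_nat_of_lt_succ hSmono
    have := this hr
    rwa [hS0] at this
  have hpi := Real.pi_pos
  have hge : 2 * Real.pi ≤ S r := by
    obtain ⟨n, hn⟩ := (Real.cos_eq_one_iff _).1 hcos
    have hn1 : (1 : ℝ) ≤ n := by
      have : (0 : ℤ) < n := by
        by_contra hcon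
        push Not at hcon
        have : (n : ℝ) ≤ 0 := by exact_mod_cast hcon
        nlinarith
      exact_mod_cast this
    nlinarith
  -- the index at which the chain has length pi
  have hex : ∃ k, Real.pi < S k := ⟨r, by linarith⟩
  classical
  let k := Nat.find hex
  have hk : Real.pi < S k := Nat.find_spec hex
  have hk0 : k ≠ 0 := by
    intro h; rw [h, hS0] at hk; linarith
  obtain ⟨j, hj⟩ : ∃ j, k = j + 1 := ⟨k - 1, by omega⟩
  have hjle : S j ≤ Real.pi := by
    by_contra hcon
    push Not at hcon
    have := Nat.find_min' hex hcon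
    omega
  have hjr : j < r := by
    have := Nat.find_min' hex (show Real.pi < S r by linarith)
    omega
  rw [hj, hSs] at hk
  -- the point
  have hpt : arc (N.pos (true, (j : ZMod r))) (N.dir ((true, (j : ZMod r)), 2)) (Real.pi - S j)
      = (-1 : ℝ) ^ j • c 0 := by
    rw [(digon_pair N _).1, (digon_pair N _).2]
    show arc (-c (j : ZMod r)) (w (j : ZMod r)) (Real.pi - S j) = _
    rw [(key j).1, (key j).2]
    have hcs2 := Real.sin_sq_add_cos_sq (S j)
    simp only [arc, Real.cos_pi_sub, Real.sin_pi_sub]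
    have : -Real.cos (S j) • -((-1 : ℝ) ^ j • (Real.cos (S j) • c 0 - Real.sin (S j) • w 0)) +
        Real.sin (S j) • (-1 : ℝ) ^ j • (Real.sin (S j) • c 0 + Real.cos (S j) • w 0)
        = ((-1 : ℝ) ^ j * (Real.sin (S j) ^ 2 + Real.cos (S j) ^ 2)) • c 0 := by
      module
    rw [this, hcs2, mul_one]
  have hs1 : Real.pi - S j ∈ Set.Icc 0 (N.len ((true, (j : ZMod r)), 2)) :=
    ⟨by linarith, by show Real.pi - S j ≤ l (j : ZMod r); linarith⟩
  have hend : arc (N.pos (true, (j : ZMod r))) (N.dir ((true, (j : ZMod r)), 2))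
      (N.len ((true, (j : ZMod r)), 2)) = N.pos (false, (j : ZMod r) + 1) := by
    have := N.rev ((true, (j : ZMod r)), 2) (N.len ((true, (j : ZMod r)), 2))
    rw [sub_self, arc_zero] at this
    exact this
  rcases Nat.even_or_odd j with he | ho
  · rw [he.neg_one_pow, one_smul] at hpt
    rcases N.embedded ((true, (j : ZMod r)), 2) ((false, 0), 0) _ hs1 0
      ⟨le_rfl, (N.len_pos _).le⟩ (by rw [arc_zero]; exact hpt) with h | h | h
    · simp at h
    · simp [necklace] at h
    · rcases h.1 with h1 | h1
      · rw [h1, arc_zero] at hpt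
        have := N.pos_inj hpt
        simp at this
      · rw [h1, hend] at hpt
        have h2 := N.pos_inj hpt
        simp only [Prod.mk.injEq, true_and] at h2
        have h3 : ((j + 1 : ℕ) : ZMod r) = 0 := by push_cast; exact h2
        rw [ZMod.natCast_eq_zero_iff] at h3
        have h4 := Nat.le_of_dvd (by omega) h3
        have h5 : r = j + 1 := by omega
        rw [h5] at heven
        exact absurd heven (Nat.not_even_iff_odd.2 he.add_one)
  · rw [ho.neg_one_pow] at hpt
    have hpt' : arc (N.pos (true, (j : ZMod r))) (N.dir ((true, (j : ZMod r)), 2)) (Real.pi - S j)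
        = N.pos (true, 0) := by
      rw [hpt, (digon_pair N 0).1]; simp [hc]
    rcases N.embedded ((true, (j : ZMod r)), 2) ((true, 0), 0) _ hs1 0
      ⟨le_rfl, (N.len_pos _).le⟩ (by rw [arc_zero]; exact hpt') with h | h | h
    · simp at h
    · simp [necklace] at h
    · rcases h.1 with h1 | h1
      · rw [h1, arc_zero] at hpt'
        have h2 := N.pos_inj hpt'
        simp only [Prod.mk.injEq, true_and] at h2
        rw [ZMod.natCast_eq_zero_iff] at h2
        obtain ⟨z, hz⟩ := ho
        have := Nat.le_of_dvd (by omega) h2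
        omega
      · rw [h1, hend] at hpt'
        have h2 := N.pos_inj hpt'
        simp at h2

end Obstruction

end Pool.Agent.Lib.MP_a226eb_gt
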