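import Pool.Agent.Lib.MP_a226eb_gt.Necklace

/-!
# Odd necklaces carry nets
-/

namespace Pool.Agent.Lib.MP_a226eb_gt

open Complex ComplexConjugate

/-- it is enough to check embeddedness on representatives of the edges -/
def Net.ofRep {V : Type} {mate : V × Fin 3 → V × Fin 3} (hp : IsPairing mate)
    (pos : V → E4) (dir : V × Fin 3 → E4) (len : V × Fin 3 → ℝ)
    (pos_norm : ∀ v, ‖pos v‖ = 1) (pos_inj : Function.Injective pos)
    (dir_norm : ∀ d, ‖dir d‖ = 1) (orth : ∀ d, inner ℝ (pos d.1) (dir d) = 0)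
    (len_pos : ∀ d, 0 < len d) (len_mate : ∀ d, len (mate d) = len d)
    (rev : ∀ d t, arc (pos d.1) (dir d) t = arc (pos (mate d).1) (dir (mate d)) (len d - t))
    (balanced : ∀ v, dir (v, 0) + dir (v, 1) + dir (v, 2) = 0)
    (R : V × Fin 3 → Prop) (hR : ∀ d, R d ∨ R (mate d))
    (emb : ∀ d d' : V × Fin 3, R d → R d' → ∀ s ∈ Set.Icc 0 (len d), ∀ t ∈ Set.Icc 0 (len d'),
      arc (pos d.1) (dir d) s = arc (pos d'.1) (dir d') t →
        (d' = d ∧ t = s) ∨ ((s = 0 ∨ s = len d) ∧ (t = 0 ∨ t = len d'))) :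
    Net V mate where
  pos := pos
  dir := dir
  len := len
  pos_norm := pos_norm
  pos_inj := pos_inj
  dir_norm := dir_norm
  orth := orth
  len_pos := len_pos
  len_mate := len_mate
  rev := rev
  balanced := balanced
  embedded := by
    intro d d' s hs t ht h
    have hs1 := hs.1
    have hs2 := hs.2
    have ht1 := ht.1
    have ht2 := ht.2
    rcases hR d with r | r <;> rcases hR d' with r' | r'
    · rcases emb d d' r r' s hs t ht h with h1 | h1
      · exact Or.inl h1
      · exact Or.inr (Or.inr h1)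
    · rcases emb d (mate d') r r' s hs (len d' - t) (by rw [len_mate]; constructor <;> linarith)
        (by rw [← rev]; exact h) with h1 | ⟨h1, h2⟩
      · right; left
        refine ⟨by rw [← h1.1, (hp d').1], ?_⟩
        have : len d = len d' := by rw [← h1.1, len_mate]
        linarith [h1.2]
      · right; right
        refine ⟨h1, ?_⟩
        rw [len_mate] at h2
        rcases h2 with h2 | h2
        · right; linarith
        · left; linarith
    · rcases emb (mate d) d' r r' (len d - s) (by rw [len_mate]; constructor <;> linarith) t ht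
        (by rw [← rev]; exact h) with h1 | ⟨h1, h2⟩
      · right; left
        exact ⟨h1.1, h1.2⟩
      · right; right
        refine ⟨?_, h2⟩
        rw [len_mate] at h1
        rcases h1 with h1 | h1
        · right; linarith
        · left; linarith
    · rcases emb (mate d) (mate d') r r' (len d - s) (by rw [len_mate]; constructor <;> linarith)
        (len d' - t) (by rw [len_mate]; constructor <;> linarith)
        (by rw [← rev, ← rev]; exact h) with h1 | ⟨h1, h2⟩
      · left
        have hd : d' = d := by rw [← (hp d').1, h1.1, (hp d).1]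
        refine ⟨hd, ?_⟩
        have := h1.2
        rw [hd] at this
        linarith
      · right; right
        rw [len_mate] at h1 h2
        constructor
        · rcases h1 with h1 | h1
          · right; linarith
          · left; linarith
        · rcases h2 with h2 | h2
          · right; linarith
          · left; linarith

/-- a point of `E4` from two complex numbers -/
noncomputable def mk (P Q : ℂ) : E4 := !₂[P.re, P.im, Q.re, Q.im]

lemma mk_inner (P Q P' Q' : ℂ) : inner ℝ (mk P Q) (mk P' Q')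
    = P.re * P'.re + P.im * P'.im + (Q.re * Q'.re + Q.im * Q'.im) := by
  simp [mk, PiLp.inner_apply, Fin.sum_univ_four]
  ring

lemma mk_add (P Q P' Q' : ℂ) : mk P Q + mk P' Q' = mk (P + P') (Q + Q') := by
  ext i
  fin_cases i <;> simp [mk]

lemma mk_smul (a : ℝ) (P Q : ℂ) : a • mk P Q = mk (a * P) (a * Q) := by
  ext i
  fin_cases i <;> simp [mk]

lemma mk_inj {P Q P' Q' : ℂ} (h : mk P Q = mk P' Q') : P = P' ∧ Q = Q' := by
  have h0 := congrArg (fun x : E4 => x 0) h
  have h1 := congrArg (fun x : E4 => x 1) h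
  have h2 := congrArg (fun x : E4 => x 2) h
  have h3 := congrArg (fun x : E4 => x 3) h
  simp [mk] at h0 h1 h2 h3
  exact ⟨Complex.ext h0 h1, Complex.ext h2 h3⟩

lemma mk_norm {P Q : ℂ} (h : normSq P + normSq Q = 1) : ‖mk P Q‖ = 1 := by
  have h1 : inner ℝ (mk P Q) (mk P Q) = (1 : ℝ) := by
    rw [mk_inner, ← Complex.normSq_apply, ← Complex.normSq_apply, h]
  rw [real_inner_self_eq_norm_sq] at h1
  have := norm_nonneg (mk P Q)
  nlinarith [sq_nonneg (‖mk P Q‖ - 1)]

lemma mk_arc (P Q P' Q' : ℂ) (t : ℝ) : arc (mk P Q) (mk P' Q') t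
    = mk (Real.cos t * P + Real.sin t * P') (Real.cos t * Q + Real.sin t * Q') := by
  rw [arc, mk_smul, mk_smul, mk_add]

lemma exp_I_eq (t : ℝ) : Complex.exp (t * I) = Real.cos t + Real.sin t * I := by
  rw [Complex.exp_mul_I, Complex.ofReal_cos, Complex.ofReal_sin]

/-- an odd necklace carries a net -/
theorem necklace_net (r : ℕ) [NeZero r] (hr : Odd r) :
    Nonempty (Net (Bool × ZMod r) (necklace r)) := by
  have hr0 : 0 < r := hr.pos
  have hrR : (0 : ℝ) < r := by exact_mod_cast hr0
  have hrC : (r : ℂ) ≠ 0 := by exact_mod_cast hr0.ne'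
  have hpi := Real.pi_pos
  let e : ZMod r → ℂ := fun m => ZMod.stdAddChar m
  have eadd : ∀ a b, e (a + b) = e a * e b := fun a b => AddChar.map_add_eq_mul _ a b
  have e0 : e 0 = 1 := AddChar.map_zero_eq_one _
  have eunit : ∀ a, normSq (e a) = 1 := fun a => unit_of_stdAddChar a
  have einj : Function.Injective e := ZMod.injective_stdAddChar
  have epow : ∀ a, e a ^ r = 1 := by
    intro a
    have h1 : e (r • a) = e a ^ r := AddChar.map_nsmul_eq_pow _ r a
    rw [← h1, nsmul_eq_mul, ZMod.natCast_self, zero_mul, e0]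
  have ene : ∀ a, e a ≠ 0 := by
    intro a h; have := eunit a; rw [h, map_zero] at this; exact zero_ne_one this
  obtain ⟨q, hq⟩ := hr
  let hh : ZMod r := ((q + 1 : ℕ) : ZMod r)
  have h2h : 2 * hh = 1 := by
    have : ((2 * (q + 1) : ℕ) : ZMod r) = ((r + 1 : ℕ) : ZMod r) := by congr 1; omega
    push_cast at this
    rw [ZMod.natCast_self] at this
    simp only [hh]; push_cast; rw [this]; ring
  have eh : e hh = -Complex.exp ((Real.pi / r : ℝ) * I) := by
    have h1 : e hh = Complex.exp (2 * Real.pi * I * ((q + 1 : ℕ) : ℤ) / r) := by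
      have := ZMod.stdAddChar_coe (N := r) ((q + 1 : ℕ) : ℤ)
      rw [← this]; simp [e, hh]
    rw [h1]
    have hqr : ((r : ℂ)) = 2 * q + 1 := by rw [hq]; push_cast; ring
    have h3 : (2 * Real.pi * I * (((q + 1 : ℕ) : ℤ) : ℂ) / r)
        = ((Real.pi / r : ℝ) * I) + Real.pi * I := by
      push_cast
      field_simp
      rw [hqr]; ring
    rw [h3, Complex.exp_add, Complex.exp_pi_mul_I]; ring
  let c : ZMod r → ℂ := fun m => e (hh * m)
  have cinj : ∀ m m', c m = c m' → m = m' := by
    intro m m' h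
    have h1 := einj h
    have h2 : 2 * hh * m = 2 * hh * m' := by rw [mul_assoc, mul_assoc, h1]
    rwa [h2h, one_mul, one_mul] at h2
  have cpow : ∀ m, c m ^ r = 1 := fun m => epow _
  have cunit : ∀ m, normSq (c m) = 1 := fun m => eunit _
  have cne : ∀ m, c m ≠ 0 := fun m => ene _
  have csucc : ∀ m, c (m + 1) = -(Complex.exp ((Real.pi / r : ℝ) * I) * c m) := by
    intro m
    simp only [c]
    rw [mul_add, mul_one, eadd, eh]; ring
  let ν : ZMod r → ℂ := fun m => e m
  have νne : ∀ m, ν m ≠ 0 := fun m => ene _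
  have hneg1 : ∀ z : ℂ, z ^ r = 1 → (-z) ^ r = -1 := by
    intro z hz
    rw [neg_pow, hz, mul_one]
    exact Odd.neg_one_pow ⟨q, hq⟩
  have νind : ∀ (m m' : ZMod r) (a b : ℝ), m ≠ m' → (a : ℂ) * ν m = (b : ℂ) * ν m' →
      a = 0 ∧ b = 0 := by
    intro m m' a b hne h
    have hsq : a ^ 2 = b ^ 2 := by
      have := congrArg normSq h
      rw [map_mul, map_mul, Complex.normSq_ofReal, Complex.normSq_ofReal] at this
      simp only [ν] at this
      rw [eunit, eunit] at this
      linarith
    rcases sq_eq_sq_iff_eq_or_eq_neg.1 hsq with h1 | h1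
    · by_cases hb : b = 0
      · exact ⟨by rw [h1, hb], hb⟩
      · exfalso
        rw [h1] at h
        exact hne (einj (mul_left_cancel₀ (by exact_mod_cast hb) h))
    · by_cases hb : b = 0
      · exact ⟨by rw [h1, hb, neg_zero], hb⟩
      · exfalso
        rw [h1] at h
        push_cast at h
        have h2 : -ν m = ν m' := by
          apply mul_left_cancel₀ (show (b : ℂ) ≠ 0 by exact_mod_cast hb)
          rw [← h]; ring
        have h3 := hneg1 (ν m) (epow m)
        rw [h2, epow m'] at h3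
        norm_num at h3
  set g : ℝ := Real.sqrt 3 / 2 with hg
  have hg2 : g ^ 2 = 3 / 4 := by rw [hg, div_pow, Real.sq_sqrt (by norm_num)]; norm_num
  have hg0 : g ≠ 0 := by rw [hg]; positivity
  let pos : Bool × ZMod r → E4 := fun v => if v.1 then mk (-c v.2) 0 else mk (c v.2) 0
  let dir : (Bool × ZMod r) × Fin 3 → E4 := fun d =>
    match d.2 with
    | 0 => mk (I * c d.1.2 / 2) (g * ν d.1.2)
    | 1 => mk (I * c d.1.2 / 2) (-(g * ν d.1.2))
    | 2 => mk (-(I * c d.1.2)) 0
  let len : (Bool × ZMod r) × Fin 3 → ℝ := fun d =>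
    match d.2 with
    | 0 => Real.pi
    | 1 => Real.pi
    | 2 => Real.pi / r
  have hπr : 0 < Real.pi / r := by positivity
  have hcos : ∀ t : ℝ, Real.cos (Real.pi / r - t) * Complex.exp ((Real.pi / r : ℝ) * I)
      - Real.sin (Real.pi / r - t) * (I * Complex.exp ((Real.pi / r : ℝ) * I))
      = Real.cos t + Real.sin t * I := by
    intro t
    rw [← exp_I_eq t]
    have h1 : ((Real.cos (Real.pi / r - t) : ℂ)) - Real.sin (Real.pi / r - t) * I
        = Complex.exp ((-(Real.pi / r - t) : ℝ) * I) := by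
      rw [exp_I_eq, Real.cos_neg, Real.sin_neg]; push_cast; ring
    have h2 : Complex.exp ((t : ℝ) * I) = Complex.exp ((-(Real.pi / r - t) : ℝ) * I)
        * Complex.exp ((Real.pi / r : ℝ) * I) := by
      rw [← Complex.exp_add]; congr 1; push_cast; ring
    rw [h2, ← h1]; ring
  have hcos2 : ∀ t : ℝ, (Real.cos t - Real.sin t * I) * Complex.exp ((Real.pi / r : ℝ) * I)
      = Real.cos (Real.pi / r - t) + Real.sin (Real.pi / r - t) * I := by
    intro t
    rw [← exp_I_eq (Real.pi / r - t)]
    have h1 : ((Real.cos t : ℂ)) - Real.sin t * I = Complex.exp ((-t : ℝ) * I) := by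
      rw [exp_I_eq, Real.cos_neg, Real.sin_neg]; push_cast; ring
    rw [h1, ← Complex.exp_add]; congr 1; push_cast; ring
  have cN : ∀ m, (c m).re * (c m).re + (c m).im * (c m).im = 1 := by
    intro m; rw [← Complex.normSq_apply]; exact cunit m
  -- angle facts
  have ang2 : ∀ (m m' : ZMod r) (s t : ℝ), 0 ≤ s → s ≤ Real.pi / r → 0 ≤ t → t ≤ Real.pi / r →
      Complex.exp (s * I) * c m = Complex.exp (t * I) * c m' → m = m' ∧ s = t := by
    intro m m' s t hs hs' ht ht' h
    have h1 := congrArg (fun z : ℂ => z ^ r) h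
    simp only [mul_pow, cpow, mul_one] at h1
    rw [← Complex.exp_nat_mul, ← Complex.exp_nat_mul, Complex.exp_eq_exp_iff_exists_int] at h1
    obtain ⟨k, hk⟩ := h1
    have hk' : (r : ℝ) * s = r * t + k * (2 * Real.pi) := by
      have h2 : ((r * s : ℝ) : ℂ) * I = ((r * t + k * (2 * Real.pi) : ℝ) : ℂ) * I := by
        push_cast; linear_combination hk
      have h3 := mul_right_cancel₀ Complex.I_ne_zero h2
      exact_mod_cast h3
    have hrs : (r : ℝ) * s ≤ Real.pi := by
      rw [le_div_iff₀ hrR] at hs'; linarith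
    have hrt : (r : ℝ) * t ≤ Real.pi := by
      rw [le_div_iff₀ hrR] at ht'; linarith
    have hrs0 : 0 ≤ (r : ℝ) * s := by positivity
    have hrt0 : 0 ≤ (r : ℝ) * t := by positivity
    have hk0 : k = 0 := by
      have h4 : (k : ℝ) < 1 := by nlinarith
      have h5 : (-1 : ℝ) < k := by nlinarith
      have h6 : k < 1 := by exact_mod_cast h4
      have h7 : -1 < k := by exact_mod_cast h5
      omega
    rw [hk0] at hk'
    have hst : s = t := by
      have : (r : ℝ) * (s - t) = 0 := by push_cast at hk'; linarith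
      rcases mul_eq_zero.1 this with h8 | h8
      · exact absurd h8 hrR.ne'
      · linarith
    refine ⟨?_, hst⟩
    rw [hst] at h
    exact cinj _ _ (mul_left_cancel₀ (Complex.exp_ne_zero _) h)
  have ang1 : ∀ (m m' : ZMod r) (t : ℝ) (ε : ℂ), (ε = 1 ∨ ε = -1) → 0 ≤ t → t ≤ Real.pi / r →
      ε * c m = Complex.exp (t * I) * c m' → t = 0 ∨ t = Real.pi / r := by
    intro m m' t ε hε ht ht' h
    have h1 := congrArg (fun z : ℂ => z ^ (r * 2)) h
    have hε2 : ε ^ (r * 2) = 1 := by
      rw [mul_comm, pow_mul]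
      rcases hε with h | h <;> rw [h] <;> norm_num
    simp only [mul_pow, pow_mul (c m) r 2, pow_mul (c m') r 2, cpow, one_pow, mul_one, hε2] at h1
    rw [← Complex.exp_nat_mul] at h1
    have h1' := h1.symm
    rw [Complex.exp_eq_one_iff] at h1'
    obtain ⟨k, hk⟩ := h1'
    have hk' : (r : ℝ) * t = k * Real.pi := by
      have h2 : ((r * 2 * t : ℝ) : ℂ) * I = ((k * (2 * Real.pi) : ℝ) : ℂ) * I := by
        push_cast at hk ⊢; linear_combination hk
      have h3 := mul_right_cancel₀ Complex.I_ne_zero h2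
      have h4 : (r : ℝ) * 2 * t = k * (2 * Real.pi) := by exact_mod_cast h3
      linarith
    have hrt : (r : ℝ) * t ≤ Real.pi := by
      rw [le_div_iff₀ hrR] at ht'; linarith
    have hrt0 : 0 ≤ (r : ℝ) * t := by positivity
    have h4 : (k : ℝ) < 2 := by nlinarith
    have h5 : (-1 : ℝ) < k := by nlinarith
    have h6 : k < 2 := by exact_mod_cast h4
    have h7 : -1 < k := by exact_mod_cast h5
    have h8 : k = 0 ∨ k = 1 := by omega
    rcases h8 with h8 | h8
    · left
      rw [h8] at hk'
      have : (r : ℝ) * t = 0 := by rw [hk']; simp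
      rcases mul_eq_zero.1 this with h9 | h9
      · exact absurd h9 hrR.ne'
      · exact h9
    · right
      rw [h8] at hk'
      rw [eq_div_iff hrR.ne']
      push_cast at hk'
      linarith
  have sin0 : ∀ s : ℝ, 0 ≤ s → s ≤ Real.pi → Real.sin s = 0 → s = 0 ∨ s = Real.pi := by
    intro s h0 h1 h2
    by_contra hcon
    push Not at hcon
    have h3 : 0 < s := lt_of_le_of_ne h0 (Ne.symm hcon.1)
    have h4 : s < Real.pi := lt_of_le_of_ne h1 hcon.2
    exact absurd h2 (Real.sin_pos_of_pos_of_lt_pi h3 h4).ne'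
  refine ⟨Net.ofRep (necklace_pairing r) pos dir len ?_ ?_ ?_ ?_ ?_ ?_ ?_ ?_
    (fun d => d.1.1 = true) ?_ ?_⟩
  · rintro ⟨b, m⟩
    cases b
    · exact mk_norm (by rw [cunit]; simp)
    · exact mk_norm (by rw [Complex.normSq_neg, cunit]; simp)
  · have hcneg : ∀ m m', c m ≠ -c m' := by
      intro m m' h
      have h1 := hneg1 (c m') (cpow m')
      rw [← h, cpow m] at h1
      norm_num at h1
    rintro ⟨b, m⟩ ⟨b', m'⟩ h
    cases b <;> cases b'
    · have h2 : m = m' := cinj _ _ (mk_inj h).1
      rw [h2]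
    · exact absurd (mk_inj h).1 (hcneg m m')
    · exact absurd (mk_inj h).1.symm (hcneg m' m)
    · have h2 : m = m' := cinj _ _ (neg_injective (mk_inj h).1)
      rw [h2]
  · rintro ⟨⟨b, m⟩, i⟩
    have hI : normSq (I * c m / 2) = 1 / 4 := by
      rw [map_div₀, map_mul, cunit, Complex.normSq_I]; norm_num
    have hν : normSq (g * ν m) = 3 / 4 := by
      rw [map_mul, Complex.normSq_ofReal, eunit, mul_one, ← sq, hg2]
    fin_cases i
    · exact mk_norm (by rw [hI, hν]; norm_num)
    · exact mk_norm (by rw [hI, Complex.normSq_neg, hν]; norm_num)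
    · exact mk_norm (by rw [Complex.normSq_neg, map_mul, cunit, Complex.normSq_I]; norm_num)
  · rintro ⟨⟨b, m⟩, i⟩
    cases b <;> fin_cases i <;> simp [pos, dir, mk_inner] <;> ring
  · rintro ⟨⟨b, m⟩, i⟩
    fin_cases i
    · exact hpi
    · exact hpi
    · exact hπr
  · rintro ⟨⟨b, m⟩, i⟩
    cases b <;> fin_cases i <;> simp [necklace, len]
  · rintro ⟨⟨b, m⟩, i⟩ t
    cases b <;> fin_cases i
    · show arc (mk (c m) 0) (mk (I * c m / 2) (g * ν m)) t
        = arc (mk (-c m) 0) (mk (I * c m / 2) (g * ν m)) (Real.pi - t)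
      rw [mk_arc, mk_arc, Real.cos_pi_sub, Real.sin_pi_sub]
      congr 1 <;> push_cast <;> ring
    · show arc (mk (c m) 0) (mk (I * c m / 2) (-(g * ν m))) t
        = arc (mk (-c m) 0) (mk (I * c m / 2) (-(g * ν m))) (Real.pi - t)
      rw [mk_arc, mk_arc, Real.cos_pi_sub, Real.sin_pi_sub]
      congr 1 <;> push_cast <;> ring
    · show arc (mk (c m) 0) (mk (-(I * c m)) 0) t
        = arc (mk (-c (m - 1)) 0) (mk (-(I * c (m - 1))) 0) (Real.pi / r - t)
      rw [mk_arc, mk_arc]
      have h1 : c m = -(Complex.exp ((Real.pi / r : ℝ) * I) * c (m - 1)) := by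
        rw [← csucc, sub_add_cancel]
      congr 1
      · rw [h1]
        have h2 := hcos2 t
        linear_combination (-c (m - 1)) * h2
      · simp
    · show arc (mk (-c m) 0) (mk (I * c m / 2) (g * ν m)) t
        = arc (mk (c m) 0) (mk (I * c m / 2) (g * ν m)) (Real.pi - t)
      rw [mk_arc, mk_arc, Real.cos_pi_sub, Real.sin_pi_sub]
      congr 1 <;> push_cast <;> ring
    · show arc (mk (-c m) 0) (mk (I * c m / 2) (-(g * ν m))) t
        = arc (mk (c m) 0) (mk (I * c m / 2) (-(g * ν m))) (Real.pi - t)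
      rw [mk_arc, mk_arc, Real.cos_pi_sub, Real.sin_pi_sub]
      congr 1 <;> push_cast <;> ring
    · show arc (mk (-c m) 0) (mk (-(I * c m)) 0) t
        = arc (mk (c (m + 1)) 0) (mk (-(I * c (m + 1))) 0) (Real.pi / r - t)
      rw [mk_arc, mk_arc, csucc]
      congr 1
      · have h2 := hcos t
        linear_combination (c m) * h2
      · simp
  · rintro ⟨b, m⟩
    show mk (I * c m / 2) (g * ν m) + mk (I * c m / 2) (-(g * ν m)) + mk (-(I * c m)) 0 = 0
    rw [mk_add, mk_add]
    have : mk (0 : ℂ) 0 = 0 := by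
      ext i; fin_cases i <;> simp [mk]
    rw [← this]
    congr 1 <;> ring
  · rintro ⟨⟨b, m⟩, i⟩
    cases b <;> fin_cases i <;> simp [necklace]
  · -- embeddedness
    have mulre : ∀ (a : ℝ) (z : ℂ), (a : ℂ) * (g * z) = ((a * g : ℝ) : ℂ) * z := by
      intro a z; push_cast; ring
    -- a digon arc and a digon arc
    have dd : ∀ (m m' : ZMod r) (ρ ρ' s t : ℝ), (ρ = 1 ∨ ρ = -1) → (ρ' = 1 ∨ ρ' = -1) →
        0 ≤ s → s ≤ Real.pi → 0 ≤ t → t ≤ Real.pi →
        (Real.cos s : ℂ) * (-c m) + Real.sin s * (I * c m / 2)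
          = (Real.cos t : ℂ) * (-c m') + Real.sin t * (I * c m' / 2) →
        (Real.sin s : ℂ) * (ρ * (g * ν m)) = (Real.sin t : ℂ) * (ρ' * (g * ν m')) →
        (m = m' ∧ ρ = ρ' ∧ s = t) ∨ ((s = 0 ∨ s = Real.pi) ∧ (t = 0 ∨ t = Real.pi)) := by
      intro m m' ρ ρ' s t hρ hρ' hs hs' ht ht' hP hQ
      have hQ' : ((Real.sin s * ρ * g : ℝ) : ℂ) * ν m = ((Real.sin t * ρ' * g : ℝ) : ℂ) * ν m' := by
        push_cast at hQ ⊢; linear_combination hQ
      have hρ0 : ρ ≠ 0 := by rcases hρ with h | h <;> rw [h] <;> norm_num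
      have hρ0' : ρ' ≠ 0 := by rcases hρ' with h | h <;> rw [h] <;> norm_num
      have both : Real.sin s = 0 → Real.sin t = 0 →
          (s = 0 ∨ s = Real.pi) ∧ (t = 0 ∨ t = Real.pi) :=
        fun h1 h2 => ⟨sin0 s hs hs' h1, sin0 t ht ht' h2⟩
      by_cases hm : m = m'
      · subst hm
        have h1 : Real.sin s * ρ * g = Real.sin t * ρ' * g := by
          exact_mod_cast mul_right_cancel₀ (νne m) hQ'
        have h2 : Real.sin s * ρ = Real.sin t * ρ' := mul_right_cancel₀ hg0 h1
        have hs0 : 0 ≤ Real.sin s := Real.sin_nonneg_of_nonneg_of_le_pi hs hs'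
        have ht0 : 0 ≤ Real.sin t := Real.sin_nonneg_of_nonneg_of_le_pi ht ht'
        by_cases hρρ : ρ = ρ'
        · subst hρρ
          left
          have h3 : Real.sin s = Real.sin t := mul_right_cancel₀ hρ0 h2
          rw [h3] at hP
          have h4 : ((Real.cos s : ℝ) : ℂ) * (-c m) = (Real.cos t : ℝ) * (-c m) := by
            linear_combination hP
          have h5 : Real.cos s = Real.cos t := by
            exact_mod_cast mul_right_cancel₀ (neg_ne_zero.2 (cne m)) h4
          exact ⟨rfl, rfl, Real.injOn_cos ⟨hs, hs'⟩ ⟨ht, ht'⟩ h5⟩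
        · right
          apply both
          · rcases hρ with a | a <;> rcases hρ' with b | b <;> rw [a, b] at h2 hρρ
            · exact absurd rfl hρρ
            · linarith
            · linarith
            · exact absurd rfl hρρ
          · rcases hρ with a | a <;> rcases hρ' with b | b <;> rw [a, b] at h2 hρρ
            · exact absurd rfl hρρ
            · linarith
            · linarith
            · exact absurd rfl hρρ
      · right
        obtain ⟨h1, h2⟩ := νind m m' _ _ hm hQ'
        apply both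
        · rcases mul_eq_zero.1 h1 with h | h
          · exact (mul_eq_zero.1 h).resolve_right hρ0
          · exact absurd h hg0
        · rcases mul_eq_zero.1 h2 with h | h
          · exact (mul_eq_zero.1 h).resolve_right hρ0'
          · exact absurd h hg0
    -- a digon arc and a connecting arc
    have dc : ∀ (m m' : ZMod r) (ρ s t : ℝ), (ρ = 1 ∨ ρ = -1) →
        0 ≤ s → s ≤ Real.pi → 0 ≤ t → t ≤ Real.pi / r →
        (Real.cos s : ℂ) * (-c m) + Real.sin s * (I * c m / 2)
          = (Real.cos t : ℂ) * (-c m') + Real.sin t * (-(I * c m')) →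
        (Real.sin s : ℂ) * (ρ * (g * ν m)) = 0 →
        ((s = 0 ∨ s = Real.pi) ∧ (t = 0 ∨ t = Real.pi / r)) := by
      intro m m' ρ s t hρ hs hs' ht ht' hP hQ
      have hρ0 : (ρ : ℂ) ≠ 0 := by rcases hρ with h | h <;> rw [h] <;> norm_num
      have hgC : (g : ℂ) ≠ 0 := by exact_mod_cast hg0
      have h1 : ((Real.sin s : ℝ) : ℂ) = 0 := by
        rcases mul_eq_zero.1 hQ with h | h
        · exact h
        · exact absurd h (mul_ne_zero hρ0 (mul_ne_zero hgC (νne m)))
      have h2 : Real.sin s = 0 := by exact_mod_cast h1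
      have h3 := sin0 s hs hs' h2
      refine ⟨h3, ?_⟩
      rw [h1, zero_mul, add_zero] at hP
      rcases h3 with h | h
      · rw [h, Real.cos_zero] at hP
        refine ang1 m m' t 1 (Or.inl rfl) ht ht' ?_
        rw [exp_I_eq]
        push_cast at hP ⊢
        linear_combination -hP
      · rw [h, Real.cos_pi] at hP
        refine ang1 m m' t (-1) (Or.inr rfl) ht ht' ?_
        rw [exp_I_eq]
        push_cast at hP ⊢
        linear_combination -hP
    -- two connecting arcs
    have cc : ∀ (m m' : ZMod r) (s t : ℝ), 0 ≤ s → s ≤ Real.pi / r → 0 ≤ t → t ≤ Real.pi / r →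
        (Real.cos s : ℂ) * (-c m) + Real.sin s * (-(I * c m))
          = (Real.cos t : ℂ) * (-c m') + Real.sin t * (-(I * c m')) → m = m' ∧ s = t := by
      intro m m' s t hs hs' ht ht' hP
      apply ang2 m m' s t hs hs' ht ht'
      rw [exp_I_eq, exp_I_eq]
      push_cast at hP ⊢
      linear_combination -hP
    have form : ∀ (m : ZMod r) (s : ℝ),
        arc (pos (true, m)) (dir ((true, m), 0)) s
          = mk ((Real.cos s : ℂ) * (-c m) + Real.sin s * (I * c m / 2))
            ((Real.sin s : ℂ) * (((1 : ℝ) : ℂ) * (g * ν m))) ∧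
        arc (pos (true, m)) (dir ((true, m), 1)) s
          = mk ((Real.cos s : ℂ) * (-c m) + Real.sin s * (I * c m / 2))
            ((Real.sin s : ℂ) * (((-1 : ℝ) : ℂ) * (g * ν m))) ∧
        arc (pos (true, m)) (dir ((true, m), 2)) s
          = mk ((Real.cos s : ℂ) * (-c m) + Real.sin s * (-(I * c m))) 0 := by
      intro m s
      refine ⟨?_, ?_, ?_⟩
      · show arc (mk (-c m) 0) (mk (I * c m / 2) (g * ν m)) s = _
        rw [mk_arc]; congr 1; push_cast; ring
      · show arc (mk (-c m) 0) (mk (I * c m / 2) (-(g * ν m))) s = _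
        rw [mk_arc]; congr 1; push_cast; ring
      · show arc (mk (-c m) 0) (mk (-(I * c m)) 0) s = _
        rw [mk_arc]; congr 1; simp
    rintro ⟨⟨b, m⟩, i⟩ ⟨⟨b', m'⟩, i'⟩ hb hb' s hs t ht h
    simp only at hb hb'
    subst hb hb'
    obtain ⟨f0, f1, f2⟩ := form m s
    obtain ⟨g0, g1, g2⟩ := form m' t
    have hs1 := hs.1
    have hs2 := hs.2
    have ht1 := ht.1
    have ht2 := ht.2
    fin_cases i <;> fin_cases i'
    · change arc (pos (true, m)) (dir ((true, m), 0)) s
        = arc (pos (true, m')) (dir ((true, m'), 0)) t at h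
      rw [f0, g0] at h
      obtain ⟨hP, hQ⟩ := mk_inj h
      rcases dd m m' 1 1 s t (Or.inl rfl) (Or.inl rfl) hs1 hs2 ht1 ht2 hP hQ with k | k
      · left; rw [k.1, k.2.2]; exact ⟨rfl, rfl⟩
      · right; exact k
    · change arc (pos (true, m)) (dir ((true, m), 0)) s
        = arc (pos (true, m')) (dir ((true, m'), 1)) t at h
      rw [f0, g1] at h
      obtain ⟨hP, hQ⟩ := mk_inj h
      rcases dd m m' 1 (-1) s t (Or.inl rfl) (Or.inr rfl) hs1 hs2 ht1 ht2 hP hQ with k | k
      · exact absurd k.2.1 (by norm_num)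
      · right; exact k
    · change arc (pos (true, m)) (dir ((true, m), 0)) s
        = arc (pos (true, m')) (dir ((true, m'), 2)) t at h
      rw [f0, g2] at h
      obtain ⟨hP, hQ⟩ := mk_inj h
      right; exact dc m m' 1 s t (Or.inl rfl) hs1 hs2 ht1 ht2 hP hQ
    · change arc (pos (true, m)) (dir ((true, m), 1)) s
        = arc (pos (true, m')) (dir ((true, m'), 0)) t at h
      rw [f1, g0] at h
      obtain ⟨hP, hQ⟩ := mk_inj h
      rcases dd m m' (-1) 1 s t (Or.inr rfl) (Or.inl rfl) hs1 hs2 ht1 ht2 hP hQ with k | k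
      · exact absurd k.2.1 (by norm_num)
      · right; exact k
    · change arc (pos (true, m)) (dir ((true, m), 1)) s
        = arc (pos (true, m')) (dir ((true, m'), 1)) t at h
      rw [f1, g1] at h
      obtain ⟨hP, hQ⟩ := mk_inj h
      rcases dd m m' (-1) (-1) s t (Or.inr rfl) (Or.inr rfl) hs1 hs2 ht1 ht2 hP hQ with k | k
      · left; rw [k.1, k.2.2]; exact ⟨rfl, rfl⟩
      · right; exact k
    · change arc (pos (true, m)) (dir ((true, m), 1)) s
        = arc (pos (true, m')) (dir ((true, m'), 2)) t at h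
      rw [f1, g2] at h
      obtain ⟨hP, hQ⟩ := mk_inj h
      right; exact dc m m' (-1) s t (Or.inr rfl) hs1 hs2 ht1 ht2 hP hQ
    · change arc (pos (true, m)) (dir ((true, m), 2)) s
        = arc (pos (true, m')) (dir ((true, m'), 0)) t at h
      rw [f2, g0] at h
      obtain ⟨hP, hQ⟩ := mk_inj h
      right
      have k := dc m' m 1 t s (Or.inl rfl) ht1 ht2 hs1 hs2 hP.symm hQ.symm
      exact ⟨k.2, k.1⟩
    · change arc (pos (true, m)) (dir ((true, m), 2)) s
        = arc (pos (true, m')) (dir ((true, m'), 1)) t at h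
      rw [f2, g1] at h
      obtain ⟨hP, hQ⟩ := mk_inj h
      right
      have k := dc m' m (-1) t s (Or.inr rfl) ht1 ht2 hs1 hs2 hP.symm hQ.symm
      exact ⟨k.2, k.1⟩
    · change arc (pos (true, m)) (dir ((true, m), 2)) s
        = arc (pos (true, m')) (dir ((true, m'), 2)) t at h
      rw [f2, g2] at h
      obtain ⟨hP, hQ⟩ := mk_inj h
      left
      obtain ⟨k1, k2⟩ := cc m m' s t hs1 hs2 ht1 ht2 hP
      rw [k1, k2]; exact ⟨rfl, rfl⟩

end Pool.Agent.Lib.MP_a226eb_gt
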