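import Mathlib

/-!
# Totatives of an odd number in its first fifth
-/

namespace Pool.Agent.Lib.MP_a226eb_gt

open ArithmeticFunction Finset
open scoped ArithmeticFunction.Moebius

lemma sum_mu (g : ℕ) :
    ∑ d ∈ g.divisors, (μ d : ℤ) = if g = 1 then 1 else 0 := by
  have h := congrArg (fun f : ArithmeticFunction ℤ => f g) moebius_mul_coe_zeta
  simp only [coe_mul_zeta_apply, one_apply] at h
  exact h

lemma count_coprime (m M : ℕ) (hm : 0 < m) :
    (((Ioc 0 M).filter (fun i => Nat.Coprime i m)).card : ℤ)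
      = ∑ d ∈ m.divisors, μ d * ((M / d : ℕ) : ℤ) := by
  have h1 : (((Ioc 0 M).filter (fun i => Nat.Coprime i m)).card : ℤ)
      = ∑ i ∈ Ioc 0 M, ∑ d ∈ m.divisors, if d ∣ i then (μ d : ℤ) else 0 := by
    rw [card_filter]
    push_cast
    refine sum_congr rfl fun i hi => ?_
    have hi0 : 0 < i := (mem_Ioc.1 hi).1
    have h2 := sum_mu (Nat.gcd i m)
    rw [← sum_filter]
    have h3 : (m.divisors.filter (fun d => d ∣ i)) = (Nat.gcd i m).divisors := by
      ext d
      simp only [mem_filter, Nat.mem_divisors]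
      constructor
      · rintro ⟨⟨h, _⟩, h'⟩
        exact ⟨Nat.dvd_gcd h' h, (Nat.gcd_pos_of_pos_left _ hi0).ne'⟩
      · rintro ⟨h, _⟩
        exact ⟨⟨h.trans (Nat.gcd_dvd_right _ _), hm.ne'⟩, h.trans (Nat.gcd_dvd_left _ _)⟩
    rw [h3, h2]
  rw [h1, sum_comm]
  refine sum_congr rfl fun d hd => ?_
  rw [← sum_filter, sum_const, Nat.Ioc_filter_dvd_card_eq_div, nsmul_eq_mul, mul_comm]

lemma totient_mu (m : ℕ) (hm : 0 < m) :
    (Nat.totient m : ℤ) = ∑ d ∈ m.divisors, μ d * ((m / d : ℕ) : ℤ) := by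
  rw [← count_coprime m m hm]
  congr 1
  rw [Nat.totient_eq_card_coprime]
  rcases Nat.eq_or_lt_of_le (Nat.succ_le_of_lt hm) with h | h
  · have : m = 1 := h.symm
    subst this
    decide
  · refine card_bij (fun a _ => a) ?_ ?_ ?_
    · intro a ha
      simp only [mem_filter, mem_range, mem_Ioc] at ha ⊢
      refine ⟨⟨?_, ha.1.le⟩, ha.2.symm⟩
      rcases Nat.eq_zero_or_pos a with h0 | h0
      · rw [h0] at ha
        have := ha.2
        simp at this
        omega
      · exact h0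
    · intro a _ b _ h; exact h
    · intro b hb
      simp only [mem_filter, mem_range, mem_Ioc] at hb ⊢
      refine ⟨b, ⟨?_, hb.2.symm⟩, rfl⟩
      rcases Nat.eq_or_lt_of_le hb.1.2 with h0 | h0
      · rw [h0] at hb
        have := hb.2
        simp at this
        omega
      · exact h0

lemma sum_abs_mu (m : ℕ) (hm : 0 < m) :
    ∑ d ∈ m.divisors, |(μ d : ℤ)| = 2 ^ m.primeFactors.card := by
  have h := Nat.sum_divisors_filter_squarefree (n := m) hm.ne' (f := fun _ => (1 : ℤ))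
  rw [sum_filter] at h
  simp only [abs_moebius]
  rw [h, Nat.factors_eq]
  simp

/-- the number of totatives in the first fifth -/
def T5 (m : ℕ) : ℕ := ((Ioc 0 (m / 5)).filter (fun i => Nat.Coprime i m)).card

lemma T5_le (m : ℕ) (hm : 1 < m) : 5 * (T5 m : ℤ) ≤ m.totient + 2 * 2 ^ m.primeFactors.card := by
  have hm0 : 0 < m := by omega
  have h1 := count_coprime m (m / 5) hm0
  have h2 := totient_mu m hm0
  have h3 := sum_mu m
  rw [if_neg (by omega)] at h3
  have h4 := sum_abs_mu m hm0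
  unfold T5
  rw [h1, h2, ← h4, mul_sum, mul_sum]
  have h5 : ∑ d ∈ m.divisors, (2 * |(μ d : ℤ)|) = ∑ d ∈ m.divisors, (2 * |(μ d : ℤ)| - 2 * μ d) := by
    rw [sum_sub_distrib, ← mul_sum (f := fun d => (μ d : ℤ)), h3]; ring
  rw [h5, ← sum_add_distrib]
  refine sum_le_sum fun d hd => ?_
  have h6 : m / 5 / d = m / d / 5 := by
    rw [Nat.div_div_eq_div_mul, Nat.div_div_eq_div_mul, mul_comm]
  rw [h6]
  generalize m / d = t
  have h7 : ((t / 5 : ℕ) : ℤ) = (t : ℤ) / 5 := by push_cast; rfl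
  rw [h7]
  rcases moebius_eq_or d with h | h | h <;> rw [h] <;> norm_num <;> omega

/-- the correction factor at the primes three and five -/
def cf (m : ℕ) : ℕ := (if 3 ∣ m then 3 else 1) * (if 5 ∣ m then 5 else 4)

lemma cf_mul {a b : ℕ} (h : Nat.Coprime a b) : cf a * cf b = 4 * cf (a * b) := by
  have h3 : ¬ (3 ∣ a ∧ 3 ∣ b) := fun ⟨x, y⟩ => by
    have := Nat.dvd_gcd x y; rw [h] at this; omega
  have h5 : ¬ (5 ∣ a ∧ 5 ∣ b) := fun ⟨x, y⟩ => by
    have := Nat.dvd_gcd x y; rw [h] at this; omega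
  unfold cf
  simp only [Nat.Prime.dvd_mul Nat.prime_three, Nat.Prime.dvd_mul Nat.prime_five]
  by_cases a3 : 3 ∣ a <;> by_cases b3 : 3 ∣ b <;> by_cases a5 : 5 ∣ a <;> by_cases b5 : 5 ∣ b <;>
    simp_all

lemma weight_bound (m : ℕ) : Odd m →
    4 * (m * 4 ^ m.primeFactors.card) ≤ cf m * m.totient ^ 2 := by
  induction m using Nat.recOnPosPrimePosCoprime with
  | zero => intro h; exact absurd h (by decide)
  | one => intro _; simp [cf]
  | prime_pow p n hp hn =>
    intro hodd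
    have hp2 : p ≠ 2 := by
      rintro rfl
      exact (Nat.not_odd_iff_even.2 (Nat.even_pow.2 ⟨even_two, hn.ne'⟩)) hodd
    rw [Nat.primeFactors_prime_pow hn.ne' hp, card_singleton, Nat.totient_prime_pow hp hn]
    obtain ⟨t, rfl⟩ : ∃ t, n = t + 1 := ⟨n - 1, by omega⟩
    rw [Nat.add_sub_cancel, pow_one]
    have hcf4 : 4 ≤ cf (p ^ (t + 1)) := by
      unfold cf; split_ifs <;> norm_num
    have hpt : 1 ≤ p ^ t := Nat.one_le_pow _ _ hp.pos
    have hsq : p ^ t ≤ (p ^ t) ^ 2 := by nlinarith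
    by_cases h3 : p = 3
    · subst h3
      have hcf : 12 ≤ cf (3 ^ (t + 1)) := by
        unfold cf
        rw [if_pos (dvd_pow_self 3 (by omega))]
        split_ifs <;> norm_num
      calc 4 * (3 ^ (t + 1) * 4) = 48 * 3 ^ t := by ring
        _ ≤ 48 * (3 ^ t) ^ 2 := Nat.mul_le_mul_left _ hsq
        _ = 12 * (3 ^ t * (3 - 1)) ^ 2 := by norm_num; ring
        _ ≤ _ := Nat.mul_le_mul_right _ hcf
    by_cases h5 : p = 5
    · subst h5
      have hcf : 5 ≤ cf (5 ^ (t + 1)) := by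
        unfold cf
        rw [if_pos (dvd_pow_self 5 (by omega) : 5 ∣ 5 ^ (t + 1))]
        split_ifs <;> norm_num
      calc 4 * (5 ^ (t + 1) * 4) = 80 * 5 ^ t := by ring
        _ ≤ 80 * (5 ^ t) ^ 2 := Nat.mul_le_mul_left _ hsq
        _ = 5 * (5 ^ t * (5 - 1)) ^ 2 := by norm_num; ring
        _ ≤ _ := Nat.mul_le_mul_right _ hcf
    · have hp7 : 7 ≤ p := by
        have h2 := hp.two_le
        by_contra hcon
        have : p = 4 ∨ p = 6 := by omega
        rcases this with h | h <;> rw [h] at hp <;> revert hp <;> decide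
      obtain ⟨r, rfl⟩ : ∃ r, p = r + 1 := ⟨p - 1, by omega⟩
      rw [Nat.add_sub_cancel]
      have hr : 4 * (r + 1) ≤ r ^ 2 := by nlinarith
      calc 4 * ((r + 1) ^ (t + 1) * 4) = 4 * ((r + 1) ^ t * (4 * (r + 1))) := by ring
        _ ≤ 4 * (((r + 1) ^ t) ^ 2 * r ^ 2) :=
            Nat.mul_le_mul_left _ (Nat.mul_le_mul hsq hr)
        _ = 4 * ((r + 1) ^ t * r) ^ 2 := by ring
        _ ≤ _ := Nat.mul_le_mul_right _ hcf4
  | coprime a b ha hb hab iha ihb =>
    intro hodd
    have ho := Nat.odd_mul.1 hodd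
    have h1 := iha ho.1
    have h2 := ihb ho.2
    rw [hab.primeFactors_mul, card_union_of_disjoint hab.disjoint_primeFactors,
      Nat.totient_mul hab]
    have h3 := Nat.mul_le_mul h1 h2
    have h4 := cf_mul hab
    have h5 : 4 * (4 * (a * b * 4 ^ (a.primeFactors.card + b.primeFactors.card)))
        ≤ 4 * (cf (a * b) * (a.totient * b.totient) ^ 2) := by
      calc 4 * (4 * (a * b * 4 ^ (a.primeFactors.card + b.primeFactors.card)))
          = 4 * (a * 4 ^ a.primeFactors.card) * (4 * (b * 4 ^ b.primeFactors.card)) := by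
            rw [pow_add]; ring
        _ ≤ cf a * a.totient ^ 2 * (cf b * b.totient ^ 2) := h3
        _ = (cf a * cf b) * (a.totient * b.totient) ^ 2 := by ring
        _ = _ := by rw [h4]; ring
    omega

/-- the number of totatives `i` of `m` with `5 i < m` -/
def T5' (m : ℕ) : ℕ := ((Ioc 0 (m / 5)).filter (fun i => Nat.Coprime i m ∧ 5 * i < m)).card

lemma T5'_le (m : ℕ) : T5' m ≤ T5 m := by
  unfold T5' T5
  apply card_le_card
  intro i hi
  simp only [mem_filter] at hi ⊢
  exact ⟨hi.1, hi.2.1⟩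

lemma T5_small : ∀ m < 241, m % 2 = 1 → 1 < m → m ≠ 15 → m ≠ 21 → 4 * T5' m < m.totient := by
  decide +kernel

lemma T5_15 : 4 * T5' 15 = Nat.totient 15 := by decide +kernel

lemma T5_21 : 4 * T5' 21 = Nat.totient 21 := by decide +kernel

/-- fewer than a quarter of the totatives are in the first fifth -/
theorem T5_lt (m : ℕ) (hm : 1 < m) (hodd : Odd m) (h15 : m ≠ 15) (h21 : m ≠ 21) :
    4 * T5' m < m.totient := by
  by_cases hs : m < 241
  · exact T5_small m hs (Nat.odd_iff.1 hodd) hm h15 h21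
  push Not at hs
  have h1 := weight_bound m hodd
  have h2 := T5_le m hm
  have hcf : cf m ≤ 15 := by unfold cf; split_ifs <;> norm_num
  have h3 : 4 * (m * 4 ^ m.primeFactors.card) ≤ 15 * m.totient ^ 2 :=
    h1.trans (Nat.mul_le_mul_right _ hcf)
  set w := 2 ^ m.primeFactors.card with hw
  have hw4 : (4 : ℕ) ^ m.primeFactors.card = w ^ 2 := by
    rw [hw, ← pow_mul, mul_comm, pow_mul]; norm_num
  rw [hw4] at h3
  have h4 : 8 * w < m.totient := by
    by_contra hcon
    push Not at hcon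
    have hwp : 0 < w := by positivity
    have h5 : m.totient ^ 2 ≤ (8 * w) ^ 2 := Nat.pow_le_pow_left hcon 2
    nlinarith [mul_pos hwp hwp]
  have h6 : (8 * w : ℤ) < m.totient := by exact_mod_cast h4
  have h7 : ((2 : ℤ) * 2 ^ m.primeFactors.card) = 2 * (w : ℤ) := by rw [hw]; push_cast; ring
  rw [h7] at h2
  have h8 : 4 * (T5 m : ℤ) < m.totient := by linarith
  have h9 : 4 * T5 m < m.totient := by exact_mod_cast h8
  have := T5'_le m
  omega

lemma T5_all (m : ℕ) (hm : 1 < m) (hodd : Odd m) : 4 * T5' m ≤ m.totient := by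
  by_cases h15 : m = 15
  · rw [h15]; exact T5_15.le
  by_cases h21 : m = 21
  · rw [h21]; exact T5_21.le
  exact (T5_lt m hm hodd h15 h21).le

end Pool.Agent.Lib.MP_a226eb_gt
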